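import Mathlib
set_option autoImplicit false

namespace Pool.Agent.Helper321.DW

/-- the Euclidean unit ball of `ℂ²` -/
def BB : Set (Fin 2 → ℂ) := {z | ‖z 0‖ ^ 2 + ‖z 1‖ ^ 2 < 1}

/-- the tube model `{Re s > (Im v)²}` of the unit ball -/
def TT : Set (Fin 2 → ℂ) := {z | (z 1).im ^ 2 < (z 0).re}

end Pool.Agent.Helper321.DW
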