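import Pool.Agent.Helper321.DW.BBDef
set_option autoImplicit false
set_option linter.unusedSectionVars false
open Metric Set Filter Topology
open scoped InnerProductSpace ComplexConjugate

namespace Pool.Agent.Helper321.DW

variable {E : Type} [NormedAddCommGroup E] [InnerProductSpace ℂ E]

theorem j10780_iff (x : EuclideanSpace ℂ (Fin 2)) :
    EuclideanSpace.equiv (Fin 2) ℂ x ∈ BB ↔ x ∈ ball (0 : EuclideanSpace ℂ (Fin 2)) 1 := by
  rw [mem_ball_zero_iff]
  have h1 : ‖x‖ ^ 2 = ‖x 0‖ ^ 2 + ‖x 1‖ ^ 2 := by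
    rw [EuclideanSpace.norm_eq, Real.sq_sqrt (by positivity), Fin.sum_univ_two]
  have h2 : EuclideanSpace.equiv (Fin 2) ℂ x ∈ BB ↔ ‖x 0‖ ^ 2 + ‖x 1‖ ^ 2 < 1 := Iff.rfl
  rw [h2, ← h1]
  constructor
  · intro h
    have := norm_nonneg x
    nlinarith
  · intro h
    have := norm_nonneg x
    nlinarith

theorem j10780_iff' (z : Fin 2 → ℂ) :
    (EuclideanSpace.equiv (Fin 2) ℂ).symm z ∈ ball (0 : EuclideanSpace ℂ (Fin 2)) 1 ↔ z ∈ BB := by
  rw [← j10780_iff, ContinuousLinearEquiv.apply_symm_apply]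

theorem j10780_open : IsOpen BB := by
  unfold BB
  exact isOpen_lt (by fun_prop) continuous_const

theorem BB_props : IsOpen BB ∧ BB.Nonempty ∧ Bornology.IsBounded BB ∧ Convex ℝ BB := by
  refine ⟨j10780_open, ⟨0, ?_⟩, ?_, ?_⟩
  · show ‖(0 : Fin 2 → ℂ) 0‖ ^ 2 + ‖(0 : Fin 2 → ℂ) 1‖ ^ 2 < 1
    simp
  · refine (isBounded_closedBall (x := (0 : Fin 2 → ℂ)) (r := 1)).subset ?_
    intro z hz
    have hz' : ‖z 0‖ ^ 2 + ‖z 1‖ ^ 2 < 1 := hz
    rw [mem_closedBall_zero_iff, pi_norm_le_iff_of_nonneg zero_le_one]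
    intro i
    have h0 := norm_nonneg (z 0)
    have h1 := norm_nonneg (z 1)
    fin_cases i
    · show ‖z 0‖ ≤ 1
      nlinarith [sq_nonneg ‖z 1‖]
    · show ‖z 1‖ ≤ 1
      nlinarith [sq_nonneg ‖z 0‖]
  · intro x hx y hy s t hs ht hst
    rw [← j10780_iff'] at hx hy ⊢
    have h := convex_ball (0 : EuclideanSpace ℂ (Fin 2)) 1 hx hy hs ht hst
    have e : (EuclideanSpace.equiv (Fin 2) ℂ).symm (s • x + t • y) =
        s • (EuclideanSpace.equiv (Fin 2) ℂ).symm x + t • (EuclideanSpace.equiv (Fin 2) ℂ).symm y := by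
      rfl
    rw [e]
    exact h

theorem BB_DW
    (hE : ∀ F : EuclideanSpace ℂ (Fin 2) → EuclideanSpace ℂ (Fin 2),
      DifferentiableOn ℂ F (ball 0 1) → MapsTo F (ball 0 1) (ball 0 1) →
      (∀ z ∈ ball (0 : EuclideanSpace ℂ (Fin 2)) 1, F z ≠ z) →
      ∃ p : EuclideanSpace ℂ (Fin 2), ‖p‖ = 1 ∧ ∀ z ∈ ball (0 : EuclideanSpace ℂ (Fin 2)) 1,
        Tendsto (fun n : ℕ => F^[n] z) atTop (𝓝 p))
    (f : (Fin 2 → ℂ) → (Fin 2 → ℂ)) (hf : DifferentiableOn ℂ f BB) (hm : MapsTo f BB BB)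
    (hnf : ∀ z ∈ BB, f z ≠ z) :
    ∃ p ∈ frontier BB, ∀ z ∈ BB, Tendsto (fun m : ℕ => f^[m] z) atTop (𝓝 p) := by
  set e := EuclideanSpace.equiv (Fin 2) ℂ with he
  set F : EuclideanSpace ℂ (Fin 2) → EuclideanSpace ℂ (Fin 2) := fun x => e.symm (f (e x)) with hF
  have hmaps : MapsTo e (ball 0 1) BB := fun x hx => (j10780_iff x).2 hx
  have hFd : DifferentiableOn ℂ F (ball 0 1) := by
    have h1 : DifferentiableOn ℂ (fun x => f (e x)) (ball 0 1) :=
      hf.comp e.differentiable.differentiableOn hmaps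
    exact e.symm.differentiable.comp_differentiableOn h1
  have hFm : MapsTo F (ball 0 1) (ball 0 1) := fun x hx => (j10780_iff' _).2 (hm (hmaps hx))
  have hFf : ∀ z ∈ ball (0 : EuclideanSpace ℂ (Fin 2)) 1, F z ≠ z := by
    intro z hz h
    apply hnf (e z) (hmaps hz)
    have h1 : e.symm (f (e z)) = z := h
    have h2 := congrArg e h1
    rwa [ContinuousLinearEquiv.apply_symm_apply] at h2
  obtain ⟨p, hp, hlim⟩ := hE F hFd hFm hFf
  have hit : ∀ (n : ℕ) (z : Fin 2 → ℂ), e (F^[n] (e.symm z)) = f^[n] z := by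
    intro n
    induction n with
    | zero => intro z; simp
    | succ n ih =>
      intro z
      rw [Function.iterate_succ_apply, Function.iterate_succ_apply, ← ih]
      show e (F^[n] (e.symm (f (e (e.symm z))))) = _
      rw [ContinuousLinearEquiv.apply_symm_apply]
  have hlim' : ∀ z ∈ BB, Tendsto (fun m : ℕ => f^[m] z) atTop (𝓝 (e p)) := by
    intro z hz
    have h1 := hlim (e.symm z) ((j10780_iff' z).2 hz)
    have h2 := (e.continuous.tendsto p).comp h1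
    refine h2.congr fun n => ?_
    exact hit n z
  refine ⟨e p, ⟨?_, ?_⟩, hlim'⟩
  · obtain ⟨z, hz⟩ := BB_props.2.1
    refine mem_closure_of_tendsto (hlim' z hz) (Filter.Eventually.of_forall fun n => ?_)
    exact hm.iterate n hz
  · rw [j10780_open.interior_eq, j10780_iff, mem_ball_zero_iff, hp]
    exact lt_irrefl _


end Pool.Agent.Helper321.DW
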