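import Pool.Agent.Helper321.DW.Sg
set_option autoImplicit false
set_option linter.unusedSectionVars false
open Metric Set Filter Topology
open scoped InnerProductSpace ComplexConjugate

namespace Pool.Agent.Helper321.DW

variable {E : Type} [NormedAddCommGroup E] [InnerProductSpace ℂ E]

theorem dw7_cvx {V : Type} [NormedAddCommGroup V] [NormedSpace ℂ V] (u v : V) {s : ℝ}
    (h0 : 0 ≤ s) (h1 : s ≤ 1) :
    ‖((1 - s : ℝ) : ℂ) • u + ((s : ℝ) : ℂ) • v‖ ^ 2 ≤ (1 - s) * ‖u‖ ^ 2 + s * ‖v‖ ^ 2 := by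
  have h : ‖((1 - s : ℝ) : ℂ) • u + ((s : ℝ) : ℂ) • v‖ ≤ (1 - s) * ‖u‖ + s * ‖v‖ := by
    refine (norm_add_le _ _).trans ?_
    rw [norm_smul, norm_smul, Complex.norm_real, Complex.norm_real, Real.norm_of_nonneg h0,
      Real.norm_of_nonneg (by linarith : (0:ℝ) ≤ 1 - s)]
  have h2 : ‖((1 - s : ℝ) : ℂ) • u + ((s : ℝ) : ℂ) • v‖ ^ 2 ≤ ((1 - s) * ‖u‖ + s * ‖v‖) ^ 2 :=
    pow_le_pow_left₀ (norm_nonneg _) h 2
  refine h2.trans ?_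
  have h3 : 0 ≤ s * (1 - s) * (‖u‖ - ‖v‖) ^ 2 := by
    have : 0 ≤ 1 - s := by linarith
    positivity
  nlinarith [h3]

set_option maxHeartbeats 4000000 in
/-- A holomorphic self-map of the ball with a bounded (relatively compact) orbit has a fixed point. -/
theorem fixed_of_bounded_orbit [FiniteDimensional ℂ E] {F : E → E}
    (hF : DifferentiableOn ℂ F (ball (0:E) 1))
    (hm : MapsTo F (ball (0:E) 1) (ball (0:E) 1))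
    (hSPF : ∀ a ∈ ball (0:E) 1, ∀ b ∈ ball (0:E) 1, sg a b ≤ sg (F a) (F b))
    (hEH : ∀ G : E → E, DifferentiableOn ℂ G (ball (0:E) 1) → ∀ ρ < 1,
      (∀ z ∈ ball (0:E) 1, ‖G z‖ ≤ ρ) → ∃ x ∈ ball (0:E) 1, G x = x ∧
      ∀ z ∈ ball (0:E) 1, Tendsto (fun n : ℕ => G^[n] z) atTop (𝓝 x))
    {w : E} {r : ℝ} (hr : r < 1) (hw : ∀ n : ℕ, ‖F^[n] w‖ ≤ r) :
    ∃ x ∈ ball (0:E) 1, F x = x := by
  have hr0 : 0 ≤ r := (norm_nonneg _).trans (hw 0)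
  have hw0 : ‖w‖ ≤ r := hw 0
  have hwb : w ∈ ball (0:E) 1 := by rw [mem_ball_zero_iff]; linarith
  set a : ℕ → E := fun n => F^[n] w with ha
  have hab : ∀ n, a n ∈ ball (0:E) 1 := fun n => by
    rw [mem_ball_zero_iff]; exact (hw n).trans_lt hr
  have hasucc : ∀ n, a (n + 1) = F (a n) := fun n => Function.iterate_succ_apply' F n w
  set t0 : ℝ := (1 - ‖w‖ ^ 2) * (1 - r ^ 2) / 4 with ht0
  have hr2 : r ^ 2 < 1 := by nlinarith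
  have hw2 : ‖w‖ ^ 2 < 1 := by nlinarith [norm_nonneg w]
  have ht0pos : 0 < t0 := by
    have h1 : 0 < 1 - ‖w‖ ^ 2 := by linarith
    have h2 : 0 < 1 - r ^ 2 := by linarith
    positivity
  -- bounds on the inner products
  have hlow : ∀ n, ∀ z : E, ‖z‖ < 1 → 1 - r ≤ ‖1 - ⟪a n, z⟫_ℂ‖ := by
    intro n z hz
    have h1 : ‖⟪a n, z⟫_ℂ‖ ≤ r * 1 :=
      (norm_inner_le_norm _ _).trans (mul_le_mul (hw n) hz.le (norm_nonneg _) hr0)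
    have h2 : ‖(1 : ℂ)‖ - ‖⟪a n, z⟫_ℂ‖ ≤ ‖1 - ⟪a n, z⟫_ℂ‖ := norm_sub_norm_le _ _
    rw [norm_one] at h2
    linarith
  have hup : ∀ n, ∀ z : E, ‖z‖ < 1 → ‖1 - ⟪a n, z⟫_ℂ‖ ≤ 2 := by
    intro n z hz
    have h1 : ‖⟪a n, z⟫_ℂ‖ ≤ r * 1 :=
      (norm_inner_le_norm _ _).trans (mul_le_mul (hw n) hz.le (norm_nonneg _) hr0)
    have h2 : ‖1 - ⟪a n, z⟫_ℂ‖ ≤ ‖(1 : ℂ)‖ + ‖⟪a n, z⟫_ℂ‖ := norm_sub_le _ _
    rw [norm_one] at h2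
    linarith
  set C : Set E := {z | ‖z‖ < 1 ∧ ∀ ε > 0, ∀ᶠ n in atTop,
    t0 * ‖1 - ⟪a n, z⟫_ℂ‖ ^ 2 ≤ (1 - ‖z‖ ^ 2) * (1 - ‖a n‖ ^ 2) + ε} with hC
  -- w belongs to C
  have hCw : w ∈ C := by
    refine ⟨by linarith, fun ε hε => Eventually.of_forall fun n => ?_⟩
    have h1 := hup n w (by linarith)
    have h1' : ‖1 - ⟪a n, w⟫_ℂ‖ ^ 2 ≤ 4 := by nlinarith [norm_nonneg (1 - ⟪a n, w⟫_ℂ)]
    have h2 : ‖a n‖ ^ 2 ≤ r ^ 2 := pow_le_pow_left₀ (norm_nonneg _) (hw n) 2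
    have h3 : t0 * ‖1 - ⟪a n, w⟫_ℂ‖ ^ 2 ≤ t0 * 4 := mul_le_mul_of_nonneg_left h1' ht0pos.le
    have h4 : t0 * 4 = (1 - ‖w‖ ^ 2) * (1 - r ^ 2) := by rw [ht0]; ring
    have h5 : (1 - ‖w‖ ^ 2) * (1 - r ^ 2) ≤ (1 - ‖w‖ ^ 2) * (1 - ‖a n‖ ^ 2) :=
      mul_le_mul_of_nonneg_left (by linarith) (by linarith)
    linarith
  -- C stays away from the sphere
  have hCr : ∀ z ∈ C, ‖z‖ ^ 2 ≤ 1 - t0 * (1 - r) ^ 2 := by
    rintro z ⟨hz, h⟩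
    apply le_of_forall_pos_le_add
    intro ε hε
    obtain ⟨n, hn⟩ := (h ε hε).exists
    have h1 := hlow n z hz
    have h1' : (1 - r) ^ 2 ≤ ‖1 - ⟪a n, z⟫_ℂ‖ ^ 2 := pow_le_pow_left₀ (by linarith) h1 2
    have h2 : t0 * (1 - r) ^ 2 ≤ t0 * ‖1 - ⟪a n, z⟫_ℂ‖ ^ 2 :=
      mul_le_mul_of_nonneg_left h1' ht0pos.le
    have hz2 : ‖z‖ ^ 2 < 1 := by nlinarith [norm_nonneg z]
    have h3 : (1 - ‖z‖ ^ 2) * (1 - ‖a n‖ ^ 2) ≤ (1 - ‖z‖ ^ 2) * 1 :=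
      mul_le_mul_of_nonneg_left (by nlinarith [sq_nonneg ‖a n‖]) (by linarith)
    linarith
  -- convexity
  have hCc : ∀ z ∈ C, ∀ z' ∈ C, ∀ s : ℝ, 0 ≤ s → s ≤ 1 →
      ((1 - s : ℝ) : ℂ) • z + ((s : ℝ) : ℂ) • z' ∈ C := by
    rintro z ⟨hz, h⟩ z' ⟨hz', h'⟩ s hs0 hs1
    have hn2 := dw7_cvx z z' hs0 hs1
    have hz2 : ‖z‖ ^ 2 < 1 := by nlinarith [norm_nonneg z]
    have hz2' : ‖z'‖ ^ 2 < 1 := by nlinarith [norm_nonneg z']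
    refine ⟨?_, fun ε hε => ?_⟩
    · have : ‖((1 - s : ℝ) : ℂ) • z + ((s : ℝ) : ℂ) • z'‖ ^ 2 < 1 := by
        rcases eq_or_lt_of_le hs0 with h0 | h0
        · subst h0; nlinarith
        · nlinarith [mul_lt_mul_of_pos_left hz2' h0,
            mul_le_mul_of_nonneg_left hz2.le (by linarith : (0:ℝ) ≤ 1 - s)]
      nlinarith [norm_nonneg (((1 - s : ℝ) : ℂ) • z + ((s : ℝ) : ℂ) • z')]
    · filter_upwards [h ε hε, h' ε hε] with n h1 h2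
      have e1 : (1 : ℂ) - ⟪a n, ((1 - s : ℝ) : ℂ) • z + ((s : ℝ) : ℂ) • z'⟫_ℂ
          = ((1 - s : ℝ) : ℂ) • (1 - ⟪a n, z⟫_ℂ) + ((s : ℝ) : ℂ) • (1 - ⟪a n, z'⟫_ℂ) := by
        rw [inner_add_right, inner_smul_right, inner_smul_right, smul_eq_mul, smul_eq_mul]
        push_cast; ring
      have h3 := dw7_cvx (1 - ⟪a n, z⟫_ℂ) (1 - ⟪a n, z'⟫_ℂ) hs0 hs1
      rw [← e1] at h3
      have ha2 : ‖a n‖ ^ 2 ≤ r ^ 2 := pow_le_pow_left₀ (norm_nonneg _) (hw n) 2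
      have h4 : t0 * ‖1 - ⟪a n, ((1 - s : ℝ) : ℂ) • z + ((s : ℝ) : ℂ) • z'⟫_ℂ‖ ^ 2
          ≤ t0 * ((1 - s) * ‖1 - ⟪a n, z⟫_ℂ‖ ^ 2 + s * ‖1 - ⟪a n, z'⟫_ℂ‖ ^ 2) :=
        mul_le_mul_of_nonneg_left h3 ht0pos.le
      have h5 : (1 - s) * (t0 * ‖1 - ⟪a n, z⟫_ℂ‖ ^ 2)
          ≤ (1 - s) * ((1 - ‖z‖ ^ 2) * (1 - ‖a n‖ ^ 2) + ε) :=
        mul_le_mul_of_nonneg_left h1 (by linarith)
      have h6 : s * (t0 * ‖1 - ⟪a n, z'⟫_ℂ‖ ^ 2)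
          ≤ s * ((1 - ‖z'‖ ^ 2) * (1 - ‖a n‖ ^ 2) + ε) :=
        mul_le_mul_of_nonneg_left h2 hs0
      have h7 : ‖((1 - s : ℝ) : ℂ) • z + ((s : ℝ) : ℂ) • z'‖ ^ 2 * (1 - ‖a n‖ ^ 2)
          ≤ ((1 - s) * ‖z‖ ^ 2 + s * ‖z'‖ ^ 2) * (1 - ‖a n‖ ^ 2) :=
        mul_le_mul_of_nonneg_right hn2 (by linarith)
      nlinarith [h4, h5, h6, h7]
  -- invariance
  have hCF : ∀ z ∈ C, F z ∈ C := by
    rintro z ⟨hz, h⟩
    have hzb : z ∈ ball (0:E) 1 := by rw [mem_ball_zero_iff]; exact hz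
    have hFz : ‖F z‖ < 1 := by have := hm hzb; rwa [mem_ball_zero_iff] at this
    refine ⟨hFz, fun ε hε => ?_⟩
    have hε' : 0 < ε * (1 - r) ^ 2 / 4 := by
      have : 0 < 1 - r := by linarith
      positivity
    have h1 := h _ hε'
    rw [eventually_atTop] at h1 ⊢
    obtain ⟨N, hN⟩ := h1
    refine ⟨N + 1, fun n hn => ?_⟩
    obtain ⟨k, rfl⟩ : ∃ k, n = k + 1 := ⟨n - 1, by omega⟩
    have hk := hN k (by omega)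
    have hS := hSPF (a k) (hab k) z hzb
    rw [← hasucc k] at hS
    unfold sg at hS
    have l1 := hlow k z hz
    have l2 := hlow (k + 1) (F z) hFz
    have u2 := hup (k + 1) (F z) hFz
    have hrp : 0 < 1 - r := by linarith
    have p1 : 0 < ‖1 - ⟪a k, z⟫_ℂ‖ ^ 2 := by have := hrp.trans_le l1; positivity
    have p2 : 0 < ‖1 - ⟪a (k + 1), F z⟫_ℂ‖ ^ 2 := by have := hrp.trans_le l2; positivity
    have q1 : (1 - r) ^ 2 ≤ ‖1 - ⟪a k, z⟫_ℂ‖ ^ 2 := pow_le_pow_left₀ hrp.le l1 2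
    have q2 : ‖1 - ⟪a (k + 1), F z⟫_ℂ‖ ^ 2 ≤ 4 := by
      nlinarith [norm_nonneg (1 - ⟪a (k + 1), F z⟫_ℂ)]
    -- t0 - ε/4 ≤ sg (a k) z
    have s1 : t0 - ε / 4 ≤ (1 - ‖a k‖ ^ 2) * (1 - ‖z‖ ^ 2) / ‖1 - ⟪a k, z⟫_ℂ‖ ^ 2 := by
      rw [le_div_iff₀ p1]
      have : ε / 4 * (1 - r) ^ 2 ≤ ε / 4 * ‖1 - ⟪a k, z⟫_ℂ‖ ^ 2 :=
        mul_le_mul_of_nonneg_left q1 (by positivity)
      have e2 : (t0 - ε / 4) * ‖1 - ⟪a k, z⟫_ℂ‖ ^ 2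
        = t0 * ‖1 - ⟪a k, z⟫_ℂ‖ ^ 2 - ε / 4 * ‖1 - ⟪a k, z⟫_ℂ‖ ^ 2 := by ring
      have e3 : (1 - ‖a k‖ ^ 2) * (1 - ‖z‖ ^ 2) = (1 - ‖z‖ ^ 2) * (1 - ‖a k‖ ^ 2) := mul_comm _ _
      linarith
    have s2 := s1.trans hS
    rw [le_div_iff₀ p2] at s2
    have s3 : ε / 4 * ‖1 - ⟪a (k + 1), F z⟫_ℂ‖ ^ 2 ≤ ε / 4 * 4 :=
      mul_le_mul_of_nonneg_left q2 (by positivity)
    have s4 : (t0 - ε / 4) * ‖1 - ⟪a (k + 1), F z⟫_ℂ‖ ^ 2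
        = t0 * ‖1 - ⟪a (k + 1), F z⟫_ℂ‖ ^ 2 - ε / 4 * ‖1 - ⟪a (k + 1), F z⟫_ℂ‖ ^ 2 := by ring
    have s5 : (1 - ‖a (k + 1)‖ ^ 2) * (1 - ‖F z‖ ^ 2) = (1 - ‖F z‖ ^ 2) * (1 - ‖a (k + 1)‖ ^ 2) :=
      mul_comm _ _
    linarith
  -- the approximations
  set ρ' : ℝ := Real.sqrt (1 - t0 * (1 - r) ^ 2) with hρ'
  have hρ1 : ρ' < 1 := by
    rw [hρ', Real.sqrt_lt' one_pos]
    have : 0 < t0 * (1 - r) ^ 2 := by
      have : 0 < 1 - r := by linarith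
      positivity
    linarith
  have hCρ : ∀ z ∈ C, ‖z‖ ≤ ρ' := fun z hz => Real.le_sqrt_of_sq_le (hCr z hz)
  have hx : ∀ k : ℕ, ∃ x : E, ‖x‖ ≤ ρ' ∧
      ((1 - 1 / ((k : ℝ) + 2) : ℝ) : ℂ) • F x + ((1 / ((k : ℝ) + 2) : ℝ) : ℂ) • w = x := by
    intro k
    have hs0 : (0 : ℝ) < 1 / ((k : ℝ) + 2) := by positivity
    have hs1 : 1 / ((k : ℝ) + 2) ≤ 1 := by
      rw [div_le_one (by positivity)]; linarith [Nat.cast_nonneg (α := ℝ) k]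
    set s : ℝ := 1 / ((k : ℝ) + 2) with hs
    set G : E → E := fun z => ((1 - s : ℝ) : ℂ) • F z + ((s : ℝ) : ℂ) • w with hG
    have hGd : DifferentiableOn ℂ G (ball (0:E) 1) :=
      (hF.const_smul _).add (differentiableOn_const _)
    have hρ : (1 - s) + s * ‖w‖ < 1 := by nlinarith
    obtain ⟨x, hxb, hGx, hlim⟩ := hEH G hGd ((1 - s) + s * ‖w‖) hρ (by
      intro z hz
      have hFz : ‖F z‖ < 1 := by have := hm hz; rwa [mem_ball_zero_iff] at this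
      refine (norm_add_le _ _).trans ?_
      rw [norm_smul, norm_smul, Complex.norm_real, Complex.norm_real, Real.norm_of_nonneg hs0.le,
        Real.norm_of_nonneg (by linarith : (0:ℝ) ≤ 1 - s)]
      nlinarith [mul_le_mul_of_nonneg_left hFz.le (by linarith : (0:ℝ) ≤ 1 - s)])
    refine ⟨x, ?_, hGx⟩
    have hit : ∀ n : ℕ, G^[n] w ∈ C := by
      intro n
      induction n with
      | zero => exact hCw
      | succ n ih =>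
        rw [Function.iterate_succ_apply']
        exact hCc _ (hCF _ ih) _ hCw s hs0.le hs1
    exact le_of_tendsto ((hlim w hwb).norm) (Eventually.of_forall fun n => hCρ _ (hit n))
  choose x hx1 hx2 using hx
  have : ProperSpace E := FiniteDimensional.proper ℂ E
  obtain ⟨y, hy, φ, hφ, hlim⟩ := (isCompact_closedBall (0 : E) ρ').tendsto_subseq
    (x := x) (fun k => by rw [mem_closedBall_zero_iff]; exact hx1 k)
  have hyn : ‖y‖ ≤ ρ' := by rwa [mem_closedBall_zero_iff] at hy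
  have hyb : y ∈ ball (0:E) 1 := by rw [mem_ball_zero_iff]; linarith
  refine ⟨y, hyb, ?_⟩
  have hFc : ContinuousAt F y :=
    (hF.continuousOn).continuousAt (isOpen_ball.mem_nhds hyb)
  have hs : Tendsto (fun k : ℕ => 1 / ((φ k : ℝ) + 2)) atTop (𝓝 0) := by
    have h1 : Tendsto (fun k : ℕ => (φ k : ℝ) + 2) atTop atTop :=
      tendsto_atTop_add_const_right _ _ (tendsto_natCast_atTop_atTop.comp hφ.tendsto_atTop)
    have h2 := tendsto_inv_atTop_zero.comp h1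
    refine h2.congr fun k => ?_
    simp [Function.comp]
  have hs' : Tendsto (fun k : ℕ => (((1 / ((φ k : ℝ) + 2) : ℝ)) : ℂ)) atTop (𝓝 ((0 : ℝ) : ℂ)) :=
    (Complex.continuous_ofReal.tendsto 0).comp hs
  have hs'' : Tendsto (fun k : ℕ => (((1 - 1 / ((φ k : ℝ) + 2) : ℝ)) : ℂ)) atTop
      (𝓝 ((1 - 0 : ℝ) : ℂ)) :=
    (Complex.continuous_ofReal.tendsto (1 - 0)).comp (tendsto_const_nhds.sub hs)
  have hFl : Tendsto (fun k => F (x (φ k))) atTop (𝓝 (F y)) := hFc.tendsto.comp hlim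
  have hL := (hs''.smul hFl).add (hs'.smul (tendsto_const_nhds (x := w)))
  have hL2 : Tendsto (fun k => x (φ k)) atTop
      (𝓝 (((1 - 0 : ℝ) : ℂ) • F y + ((0 : ℝ) : ℂ) • w)) := by
    refine hL.congr fun k => ?_
    exact hx2 (φ k)
  have := tendsto_nhds_unique hL2 hlim
  simpa using this


end Pool.Agent.Helper321.DW
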