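import Mathlib
set_option autoImplicit false
set_option linter.unusedSectionVars false
open Metric Set Filter Topology
open scoped InnerProductSpace ComplexConjugate

namespace Pool.Agent.Helper321.DW

variable {E : Type} [NormedAddCommGroup E] [InnerProductSpace ℂ E]

/-- Calka type lemma: a cluster point of an orbit of a nonexpansive map has relatively compact orbit. -/
theorem calka {X : Type} [TopologicalSpace X] {f : X → X} (hf : Continuous f) (c : X → X → ℝ)
    (hsymm : ∀ x y, c x y = c y x) (htri : ∀ x y z, c x z ≤ c x y + c y z)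
    (hself : ∀ x, c x x = 0) (hne : ∀ x y, c (f x) (f y) ≤ c x y)
    (hcont : ∀ x, ∀ ε > 0, ∀ᶠ y in 𝓝 x, c x y < ε)
    {w z : X} {r : ℝ} (hr : 0 < r) {K : Set X} (hK : IsCompact K) (hKr : ∀ y, c w y < r → y ∈ K)
    (hw : MapClusterPt w atTop (fun n : ℕ => f^[n] z)) :
    ∃ K' : Set X, IsCompact K' ∧ ∀ n : ℕ, f^[n] w ∈ K' := by
  classical
  have hit : ∀ (m : ℕ) (x y : X), c (f^[m] x) (f^[m] y) ≤ c x y := by
    intro m
    induction m with
    | zero => intro x y; exact le_rfl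
    | succ m ih =>
      intro x y
      rw [Function.iterate_succ_apply, Function.iterate_succ_apply]
      exact (ih _ _).trans (hne x y)
  -- recurrence
  have hrec : ∀ ε > 0, ∀ N : ℕ, ∃ m ≥ N, c (f^[m] w) w < ε := by
    intro ε hε N
    have hU : {y | c w y < ε / 2} ∈ 𝓝 w := hcont w (ε / 2) (half_pos hε)
    have hfreq := hw.frequently hU
    rw [frequently_atTop] at hfreq
    obtain ⟨n1, _, hn1⟩ := hfreq 0
    obtain ⟨n2, hn2, hn2'⟩ := hfreq (n1 + N)
    refine ⟨n2 - n1, by omega, ?_⟩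
    have e : f^[n2 - n1] (f^[n1] z) = f^[n2] z := by
      rw [← Function.iterate_add_apply]
      congr 2
      omega
    have h1 := htri (f^[n2 - n1] w) (f^[n2] z) w
    have h2 := hit (n2 - n1) w (f^[n1] z)
    rw [e] at h2
    have h3 : c w (f^[n1] z) < ε / 2 := hn1
    have h4 : c w (f^[n2] z) < ε / 2 := hn2'
    rw [hsymm w (f^[n2] z)] at h4
    linarith
  set A : Set ℕ := {n | c w (f^[n] w) < r} with hA
  have h0A : 0 ∈ A := by
    show c w w < r
    rw [hself]
    exact hr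
  obtain ⟨t, ht, hcov⟩ := hK.elim_nhds_subcover (fun x => {y | c x y < r / 4})
    (fun x _ => hcont x (r / 4) (by linarith))
  have hm : ∀ x : X, ∃ m : ℕ, (∃ k ∈ A, c x (f^[k] w) < r / 4) →
      1 ≤ m ∧ ∀ n, c x (f^[n] w) < r / 4 → n + m ∈ A := by
    intro x
    by_cases hx : ∃ k ∈ A, c x (f^[k] w) < r / 4
    · obtain ⟨k, hkA, hk⟩ := hx
      obtain ⟨m', hm', hm''⟩ := hrec (r / 2) (half_pos hr) (k + 1)
      refine ⟨m' - k, fun _ => ⟨by omega, fun n hn => ?_⟩⟩
      have e1 : f^[m' - k] (f^[k] w) = f^[m'] w := by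
        rw [← Function.iterate_add_apply]
        congr 2
        omega
      have e2 : f^[m' - k] (f^[n] w) = f^[n + (m' - k)] w := by
        rw [← Function.iterate_add_apply, Nat.add_comm]
      have h1 := hit (m' - k) (f^[k] w) (f^[n] w)
      rw [e1, e2] at h1
      have h2 := htri (f^[k] w) x (f^[n] w)
      have h3 := htri w (f^[m'] w) (f^[n + (m' - k)] w)
      rw [hsymm (f^[k] w) x] at h2
      rw [hsymm w (f^[m'] w)] at h3
      show c w (f^[n + (m' - k)] w) < r
      linarith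
    · exact ⟨0, fun h => absurd h hx⟩
  choose mm hmm using hm
  set M : ℕ := t.sup mm with hM
  have hstep : ∀ n ∈ A, ∃ m, 1 ≤ m ∧ m ≤ M ∧ n + m ∈ A := by
    intro n hn
    have hnK : f^[n] w ∈ K := hKr _ hn
    obtain ⟨x, hx, hxn⟩ := mem_iUnion₂.1 (hcov hnK)
    obtain ⟨h1, h2⟩ := hmm x ⟨n, hn, hxn⟩
    exact ⟨mm x, h1, Finset.le_sup hx, h2 n hxn⟩
  have hgap : ∀ n : ℕ, ∃ a ∈ A, a ≤ n ∧ n ≤ a + M := by
    intro n
    induction n with
    | zero => exact ⟨0, h0A, le_rfl, by omega⟩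
    | succ n ih =>
      obtain ⟨a, ha, h1, h2⟩ := ih
      by_cases h : n + 1 ≤ a + M
      · exact ⟨a, ha, by omega, h⟩
      · obtain ⟨m, hm1, hm2, hm3⟩ := hstep a ha
        exact ⟨a + m, hm3, by omega, by omega⟩
  refine ⟨⋃ j ∈ Finset.range (M + 1), f^[j] '' K, ?_, ?_⟩
  · exact (Finset.range (M + 1)).isCompact_biUnion fun j _ => hK.image (hf.iterate j)
  · intro n
    obtain ⟨a, ha, h1, h2⟩ := hgap n
    rw [mem_iUnion₂]
    refine ⟨n - a, Finset.mem_range.2 (by omega), f^[a] w, hKr _ ha, ?_⟩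
    rw [← Function.iterate_add_apply]
    congr 2
    omega


end Pool.Agent.Helper321.DW
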