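import Pool.Agent.Helper321.DW.Sg
set_option autoImplicit false
set_option linter.unusedSectionVars false
open Metric Set Filter Topology
open scoped InnerProductSpace ComplexConjugate

namespace Pool.Agent.Helper321.DW

variable {E : Type} [NormedAddCommGroup E] [InnerProductSpace ℂ E]

theorem ctr_inner (x u : E) (t : ℝ) :
    1 - ⟪x, x + (t : ℂ) • u⟫_ℂ = ((1 - ‖x‖ ^ 2 : ℝ) : ℂ) - (t : ℂ) * ⟪x, u⟫_ℂ := by
  rw [inner_add_right, inner_smul_right, inner_self_eq_norm_sq_to_K]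
  push_cast
  simp only [Complex.coe_algebraMap]
  ring

theorem ctr_norm (x u : E) (t : ℝ) :
    ‖x + (t : ℂ) • u‖ ^ 2 = ‖x‖ ^ 2 + 2 * t * (⟪x, u⟫_ℂ).re + t ^ 2 * ‖u‖ ^ 2 := by
  rw [@norm_add_sq ℂ, inner_smul_right, norm_smul, mul_pow, Complex.norm_real, Real.norm_eq_abs,
    sq_abs]
  have : RCLike.re ((t : ℂ) * ⟪x, u⟫_ℂ) = t * (⟪x, u⟫_ℂ).re := by
    simp
  rw [this]
  ring

theorem ctr_num (x u : E) (t : ℝ) :
    ‖1 - ⟪x, x + (t : ℂ) • u⟫_ℂ‖ ^ 2 - (1 - ‖x‖ ^ 2) * (1 - ‖x + (t : ℂ) • u‖ ^ 2) =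
      t ^ 2 * (‖⟪x, u⟫_ℂ‖ ^ 2 + (1 - ‖x‖ ^ 2) * ‖u‖ ^ 2) := by
  rw [ctr_inner, ctr_norm, ← Complex.normSq_eq_norm_sq, ← Complex.normSq_eq_norm_sq,
    Complex.normSq_apply, Complex.normSq_apply]
  simp only [Complex.sub_re, Complex.sub_im, Complex.ofReal_re, Complex.ofReal_im, Complex.mul_re,
    Complex.mul_im]
  ring

theorem ctr_sg (x u : E) (t : ℝ) (h : ‖1 - ⟪x, x + (t : ℂ) • u⟫_ℂ‖ ≠ 0) :
    1 - sg x (x + (t : ℂ) • u) = t ^ 2 * (‖⟪x, u⟫_ℂ‖ ^ 2 + (1 - ‖x‖ ^ 2) * ‖u‖ ^ 2) /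
      ‖1 - ⟪x, x + (t : ℂ) • u⟫_ℂ‖ ^ 2 := by
  unfold sg
  rw [← ctr_num, sub_div, div_self (pow_ne_zero 2 h)]

theorem ctr_re (x y : E) (hx : ‖x‖ < 1) (hy : ‖y‖ < 1) : 0 < (1 - ⟪x, y⟫_ℂ).re := by
  have h1 : ‖⟪x, y⟫_ℂ‖ ≤ ‖x‖ * ‖y‖ := norm_inner_le_norm x y
  have h2 : (⟪x, y⟫_ℂ).re ≤ ‖⟪x, y⟫_ℂ‖ := Complex.re_le_norm _
  have h3 : ‖x‖ * ‖y‖ < 1 := by
    have := norm_nonneg x
    have := norm_nonneg y
    nlinarith
  rw [Complex.sub_re, Complex.one_re]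
  linarith

theorem ctr_two (x y : E) (hx : ‖x‖ < 1) (hy : ‖y‖ < 1) : ‖1 - ⟪x, y⟫_ℂ‖ ≤ 2 := by
  have h1 : ‖⟪x, y⟫_ℂ‖ ≤ ‖x‖ * ‖y‖ := norm_inner_le_norm x y
  have h3 : ‖x‖ * ‖y‖ < 1 := by
    have := norm_nonneg x
    have := norm_nonneg y
    nlinarith
  have h4 := norm_sub_le (1 : ℂ) ⟪x, y⟫_ℂ
  rw [norm_one] at h4
  linarith

/-- the main comparison -/
theorem ctr_main (x u : E) (t ρ : ℝ) (ht0 : 0 < t) (ht1 : t < 1) (hρ0 : 0 ≤ ρ) (hρ : ρ < 1)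
    (hx : ‖x‖ ≤ ρ) (hy : ‖x + u‖ < 1) (hyt : ‖x + (t : ℂ) • u‖ < 1) :
    1 - sg x (x + (t : ℂ) • u) ≤
      t ^ 2 / (t ^ 2 + (1 - t) ^ 2 * (1 - ρ ^ 2) ^ 2 / 4) * (1 - sg x (x + u)) := by
  have hx1 : ‖x‖ < 1 := lt_of_le_of_lt hx hρ
  have hxx : 0 ≤ ‖x‖ := norm_nonneg x
  set A : ℝ := 1 - ‖x‖ ^ 2 with hA
  have hAρ : 1 - ρ ^ 2 ≤ A := by rw [hA]; nlinarith
  have hρ2 : 0 < 1 - ρ ^ 2 := by nlinarith
  have hA0 : 0 < A := lt_of_lt_of_le hρ2 hAρ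
  set B : ℂ := ⟪x, u⟫_ℂ with hB
  have e1 : x + u = x + ((1 : ℝ) : ℂ) • u := by simp
  have d1 : 1 - ⟪x, x + u⟫_ℂ = (A : ℂ) - B := by
    rw [e1, ctr_inner, ← hA, ← hB]; simp
  have dt : 1 - ⟪x, x + (t : ℂ) • u⟫_ℂ = (A : ℂ) - t * B := ctr_inner x u t
  have r1 : 0 < ((A : ℂ) - B).re := by rw [← d1]; exact ctr_re x _ hx1 hy
  have rt : 0 < ((A : ℂ) - t * B).re := by rw [← dt]; exact ctr_re x _ hx1 hyt
  have n1 : 0 < ‖(A : ℂ) - B‖ := norm_pos_iff.2 fun h => by rw [h] at r1; simp at r1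
  have nt : 0 < ‖(A : ℂ) - t * B‖ := norm_pos_iff.2 fun h => by rw [h] at rt; simp at rt
  have b1 : ‖(A : ℂ) - B‖ ≤ 2 := by rw [← d1]; exact ctr_two x _ hx1 hy
  set N : ℝ := ‖B‖ ^ 2 + A * ‖u‖ ^ 2 with hN
  have hN0 : 0 ≤ N := by positivity
  have s1 : 1 - sg x (x + u) = N / ‖(A : ℂ) - B‖ ^ 2 := by
    have := ctr_sg x u 1 (by rw [← e1, d1]; exact n1.ne')
    rw [← e1, d1] at this
    rw [this, one_pow, one_mul]
  have st : 1 - sg x (x + (t : ℂ) • u) = t ^ 2 * N / ‖(A : ℂ) - t * B‖ ^ 2 := by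
    have := ctr_sg x u t (by rw [dt]; exact nt.ne')
    rw [dt] at this
    rw [this]
  -- norm comparison
  have key : (t ^ 2 + (1 - t) ^ 2 * (1 - ρ ^ 2) ^ 2 / 4) * ‖(A : ℂ) - B‖ ^ 2 ≤
      ‖(A : ℂ) - t * B‖ ^ 2 := by
    have k1 : ‖(A : ℂ) - t * B‖ ^ 2 = (1 - t) ^ 2 * A ^ 2 +
        2 * (1 - t) * A * t * ((A : ℂ) - B).re + t ^ 2 * ‖(A : ℂ) - B‖ ^ 2 := by
      rw [← Complex.normSq_eq_norm_sq, ← Complex.normSq_eq_norm_sq,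
        Complex.normSq_apply, Complex.normSq_apply]
      simp only [Complex.sub_re, Complex.sub_im, Complex.ofReal_re, Complex.ofReal_im,
        Complex.mul_re, Complex.mul_im]
      ring
    have k2 : 0 ≤ 2 * (1 - t) * A * t * ((A : ℂ) - B).re := by
      have : 0 < 1 - t := by linarith
      positivity
    have k3 : (1 - ρ ^ 2) ^ 2 ≤ A ^ 2 := pow_le_pow_left₀ hρ2.le hAρ 2
    have k4 : ‖(A : ℂ) - B‖ ^ 2 ≤ 4 := by nlinarith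
    have k5 : (1 - t) ^ 2 * (1 - ρ ^ 2) ^ 2 / 4 * ‖(A : ℂ) - B‖ ^ 2 ≤ (1 - t) ^ 2 * A ^ 2 := by
      calc (1 - t) ^ 2 * (1 - ρ ^ 2) ^ 2 / 4 * ‖(A : ℂ) - B‖ ^ 2
          ≤ (1 - t) ^ 2 * (1 - ρ ^ 2) ^ 2 / 4 * 4 :=
            mul_le_mul_of_nonneg_left k4 (by positivity)
        _ = (1 - t) ^ 2 * (1 - ρ ^ 2) ^ 2 := by ring
        _ ≤ _ := mul_le_mul_of_nonneg_left k3 (by positivity)
    rw [k1, add_mul]
    linarith
  rw [s1, st]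
  have hc : 0 < t ^ 2 + (1 - t) ^ 2 * (1 - ρ ^ 2) ^ 2 / 4 := by positivity
  rw [div_mul_div_comm, div_le_div_iff₀ (by positivity) (by positivity)]
  have hm := mul_le_mul_of_nonneg_left key (mul_nonneg (sq_nonneg t) hN0)
  linarith

/-- strict contraction of the pseudo-hyperbolic quantity for maps with relatively compact image. -/
theorem contraction
    (hSP : ∀ F : E → E, DifferentiableOn ℂ F (ball (0:E) 1) →
      MapsTo F (ball (0:E) 1) (ball (0:E) 1) →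
      ∀ a ∈ ball (0:E) 1, ∀ b ∈ ball (0:E) 1, sg a b ≤ sg (F a) (F b))
    {G : E → E} (hG : DifferentiableOn ℂ G (ball (0:E) 1)) {ρ : ℝ} (hρ : ρ < 1)
    (hGρ : ∀ z ∈ ball (0:E) 1, ‖G z‖ ≤ ρ) :
    ∃ κ : ℝ, 0 ≤ κ ∧ κ < 1 ∧ ∀ a ∈ ball (0:E) 1, ∀ b ∈ ball (0:E) 1,
      1 - sg (G a) (G b) ≤ κ * (1 - sg a b) := by
  have hρ0 : 0 ≤ ρ := (norm_nonneg _).trans (hGρ 0 (by simp))
  have hρ2 : 0 < 1 - ρ ^ 2 := by nlinarith
  set d : ℝ := (1 - ρ) / 4 with hd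
  have hd0 : 0 < d := by rw [hd]; linarith
  set t : ℝ := 1 / (1 + d) with ht
  have ht0 : 0 < t := by rw [ht]; positivity
  have ht1 : t < 1 := by rw [ht, div_lt_one (by positivity)]; linarith
  have htd : t * (1 + d) = 1 := by rw [ht]; field_simp
  have h1t : 0 < 1 - t := by linarith
  have hc : 0 < (1 - t) ^ 2 * (1 - ρ ^ 2) ^ 2 / 4 := by positivity
  refine ⟨t ^ 2 / (t ^ 2 + (1 - t) ^ 2 * (1 - ρ ^ 2) ^ 2 / 4), by positivity, ?_, ?_⟩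
  · rw [div_lt_one (by positivity)]
    linarith
  · intro a ha b hb
    have hsub : ∀ z ∈ ball (0:E) 1, ‖G z + (d : ℂ) • (G z - G a)‖ < 1 := by
      intro z hz
      have h1 := hGρ z hz
      have h2 := hGρ a ha
      calc ‖G z + (d : ℂ) • (G z - G a)‖ ≤ ‖G z‖ + ‖(d : ℂ) • (G z - G a)‖ := norm_add_le _ _
        _ = ‖G z‖ + d * ‖G z - G a‖ := by
            rw [norm_smul, Complex.norm_real, Real.norm_of_nonneg hd0.le]
        _ ≤ ‖G z‖ + d * (‖G z‖ + ‖G a‖) := by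
            gcongr
            exact norm_sub_le _ _
        _ ≤ ρ + d * (ρ + ρ) := by gcongr
        _ < 1 := by rw [hd]; nlinarith
    have hF := hSP (fun z => G z + (d : ℂ) • (G z - G a))
      (hG.add ((hG.sub_const _).const_smul _))
      (fun z hz => mem_ball_zero_iff.2 (hsub z hz)) a ha b hb
    simp only [sub_self, smul_zero, add_zero] at hF
    set u : E := G b + (d : ℂ) • (G b - G a) - G a with hu
    have e1 : G a + u = G b + (d : ℂ) • (G b - G a) := by rw [hu]; abel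
    have e2 : G a + (t : ℂ) • u = G b := by
      have h3 : u = ((1 + d : ℝ) : ℂ) • (G b - G a) := by
        rw [hu]
        push_cast
        rw [add_smul, one_smul]
        abel
      rw [h3, smul_smul, ← Complex.ofReal_mul, htd]
      simp
    have hmain := ctr_main (G a) u t ρ ht0 ht1 hρ0 hρ (hGρ a ha) (by rw [e1]; exact hsub b hb)
      (by rw [e2]; exact lt_of_le_of_lt (hGρ b hb) hρ)
    rw [e1, e2] at hmain
    refine hmain.trans (mul_le_mul_of_nonneg_left ?_ (by positivity))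
    linarith


end Pool.Agent.Helper321.DW
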