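import Pool.Agent.Helper321.DW.Sg
set_option autoImplicit false
set_option linter.unusedSectionVars false
open Metric Set Filter Topology
open scoped InnerProductSpace ComplexConjugate

namespace Pool.Agent.Helper321.DW

variable {E : Type} [NormedAddCommGroup E] [InnerProductSpace ℂ E]

theorem den_pos_10773 {x y : E} (hx : ‖x‖ < 1) (hy : ‖y‖ < 1) : 0 < ‖1 - ⟪x, y⟫_ℂ‖ := by
  rw [norm_pos_iff, sub_ne_zero]
  intro h
  have h1 : ‖⟪x, y⟫_ℂ‖ ≤ ‖x‖ * ‖y‖ := norm_inner_le_norm x y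
  rw [← h, norm_one] at h1
  nlinarith [norm_nonneg x, norm_nonneg y]

theorem sg_nonneg_10773 {x y : E} (hx : ‖x‖ < 1) (hy : ‖y‖ < 1) : 0 ≤ sg x y := by
  unfold sg
  have h1 : 0 ≤ 1 - ‖x‖ ^ 2 := by nlinarith [norm_nonneg x]
  have h2 : 0 ≤ 1 - ‖y‖ ^ 2 := by nlinarith [norm_nonneg y]
  positivity

theorem one_sub_norm_sq_10773 (p : ℂ) : ‖1 - p‖ ^ 2 = 1 - 2 * p.re + ‖p‖ ^ 2 := by
  rw [Complex.sq_norm, Complex.sq_norm, Complex.normSq_apply, Complex.normSq_apply]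
  simp
  ring

theorem key_10773 {x y : E} : ‖x - y‖ ^ 2 * (1 - ‖x‖ ^ 2) ≤
    ‖1 - ⟪x, y⟫_ℂ‖ ^ 2 - (1 - ‖x‖ ^ 2) * (1 - ‖y‖ ^ 2) := by
  have h1 := one_sub_norm_sq_10773 ⟪x, y⟫_ℂ
  have h2 : ‖x - y‖ ^ 2 = ‖x‖ ^ 2 - 2 * (⟪x, y⟫_ℂ).re + ‖y‖ ^ 2 := norm_sub_sq (𝕜 := ℂ) x y
  have h3 : ‖⟪x, y - x⟫_ℂ‖ ^ 2 =
      ‖⟪x, y⟫_ℂ‖ ^ 2 - 2 * ‖x‖ ^ 2 * (⟪x, y⟫_ℂ).re + ‖x‖ ^ 4 := by
    have hxx : ⟪x, x⟫_ℂ = ((‖x‖ ^ 2 : ℝ) : ℂ) := by
      rw [inner_self_eq_norm_sq_to_K]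
      push_cast
      rfl
    rw [inner_sub_right, hxx]
    generalize ⟪x, y⟫_ℂ = c
    rw [Complex.sq_norm, Complex.sq_norm, Complex.normSq_apply, Complex.normSq_apply]
    simp only [Complex.sub_re, Complex.sub_im, Complex.ofReal_re, Complex.ofReal_im]
    ring
  have h4 : 0 ≤ ‖⟪x, y - x⟫_ℂ‖ ^ 2 := by positivity
  rw [h1, h2]
  nlinarith

theorem dist_bound_10773 {x y : E} {ρ : ℝ} (hρ0 : 0 ≤ ρ) (hρ : ρ < 1) (hx : ‖x‖ ≤ ρ)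
    (hy : ‖y‖ ≤ ρ) : ‖x - y‖ ^ 2 * (1 - ρ ^ 2) ≤ 4 * (1 - sg x y) := by
  have hx1 : ‖x‖ < 1 := lt_of_le_of_lt hx hρ
  have hy1 : ‖y‖ < 1 := lt_of_le_of_lt hy hρ
  have hd := den_pos_10773 hx1 hy1
  have hk := key_10773 (x := x) (y := y)
  have hsg : ‖1 - ⟪x, y⟫_ℂ‖ ^ 2 - (1 - ‖x‖ ^ 2) * (1 - ‖y‖ ^ 2) =
      ‖1 - ⟪x, y⟫_ℂ‖ ^ 2 * (1 - sg x y) := by
    unfold sg
    field_simp
  rw [hsg] at hk
  have hxs : ‖x‖ ^ 2 ≤ ρ ^ 2 := pow_le_pow_left₀ (norm_nonneg x) hx 2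
  have h5 : ‖x - y‖ ^ 2 * (1 - ρ ^ 2) ≤ ‖x - y‖ ^ 2 * (1 - ‖x‖ ^ 2) :=
    mul_le_mul_of_nonneg_left (by linarith) (by positivity)
  have h6 : 0 ≤ ‖x - y‖ ^ 2 * (1 - ρ ^ 2) := by
    have : 0 ≤ 1 - ρ ^ 2 := by nlinarith
    positivity
  have h7 : 0 ≤ ‖1 - ⟪x, y⟫_ℂ‖ ^ 2 * (1 - sg x y) := by linarith
  have h8 : 0 ≤ 1 - sg x y := by
    by_contra hc
    push Not at hc
    have : ‖1 - ⟪x, y⟫_ℂ‖ ^ 2 * (1 - sg x y) < 0 :=
      mul_neg_of_pos_of_neg (by positivity) hc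
    linarith
  have h9 : ‖1 - ⟪x, y⟫_ℂ‖ ≤ 2 := by
    have a1 : ‖⟪x, y⟫_ℂ‖ ≤ ‖x‖ * ‖y‖ := norm_inner_le_norm x y
    have a2 : ‖1 - ⟪x, y⟫_ℂ‖ ≤ ‖(1 : ℂ)‖ + ‖⟪x, y⟫_ℂ‖ := norm_sub_le _ _
    rw [norm_one] at a2
    nlinarith [norm_nonneg x, norm_nonneg y]
  have h10 : ‖1 - ⟪x, y⟫_ℂ‖ ^ 2 ≤ 4 := by nlinarith
  have h11 : ‖1 - ⟪x, y⟫_ℂ‖ ^ 2 * (1 - sg x y) ≤ 4 * (1 - sg x y) :=
    mul_le_mul_of_nonneg_right h10 h8
  linarith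

/-- A map with image in a smaller ball which contracts `1 - sg` has an attracting fixed point. -/
theorem exists_fixed [CompleteSpace E] {G : E → E} (hG : ContinuousOn G (ball (0:E) 1)) {ρ : ℝ}
    (hρ : ρ < 1) (hGρ : ∀ z ∈ ball (0:E) 1, ‖G z‖ ≤ ρ) {κ : ℝ} (h0 : 0 ≤ κ) (h1 : κ < 1)
    (hc : ∀ a ∈ ball (0:E) 1, ∀ b ∈ ball (0:E) 1, 1 - sg (G a) (G b) ≤ κ * (1 - sg a b)) :
    ∃ x ∈ ball (0:E) 1, G x = x ∧
      ∀ z ∈ ball (0:E) 1, Tendsto (fun n : ℕ => G^[n] z) atTop (𝓝 x) := by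
  have hz0 : (0 : E) ∈ ball (0:E) 1 := mem_ball_self one_pos
  have hρ0 : 0 ≤ ρ := le_trans (norm_nonneg _) (hGρ 0 hz0)
  have hball : ∀ z ∈ ball (0:E) 1, G z ∈ ball (0:E) 1 := by
    intro z hz
    rw [mem_ball_zero_iff]
    exact lt_of_le_of_lt (hGρ z hz) hρ
  have hit : ∀ n : ℕ, ∀ z ∈ ball (0:E) 1, G^[n] z ∈ ball (0:E) 1 := by
    intro n
    induction n with
    | zero => intro z hz; exact hz
    | succ n ih => intro z hz; rw [Function.iterate_succ_apply]; exact ih _ (hball z hz)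
  have hitρ : ∀ n : ℕ, ∀ z ∈ ball (0:E) 1, ‖G^[n + 1] z‖ ≤ ρ := by
    intro n z hz
    rw [Function.iterate_succ_apply']
    exact hGρ _ (hit n z hz)
  have hcon : ∀ n : ℕ, ∀ a ∈ ball (0:E) 1, ∀ b ∈ ball (0:E) 1,
      1 - sg (G^[n] a) (G^[n] b) ≤ κ ^ n := by
    intro n a ha b hb
    induction n with
    | zero =>
      have := sg_nonneg_10773 (mem_ball_zero_iff.1 ha) (mem_ball_zero_iff.1 hb)
      simp only [Function.iterate_zero, id_eq, pow_zero]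
      linarith
    | succ n ih =>
      rw [Function.iterate_succ_apply', Function.iterate_succ_apply']
      calc 1 - sg (G (G^[n] a)) (G (G^[n] b)) ≤ κ * (1 - sg (G^[n] a) (G^[n] b)) :=
            hc _ (hit n a ha) _ (hit n b hb)
        _ ≤ κ * κ ^ n := mul_le_mul_of_nonneg_left ih h0
        _ = κ ^ (n + 1) := by ring
  have hρ2 : 0 < 1 - ρ ^ 2 := by nlinarith
  set M : ℝ := 4 / (1 - ρ ^ 2) with hM
  have hMpos : 0 < M := by positivity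
  have hd2 : ∀ n : ℕ, ∀ a ∈ ball (0:E) 1, ∀ b ∈ ball (0:E) 1,
      ‖G^[n + 1] a - G^[n + 1] b‖ ^ 2 ≤ M * κ ^ (n + 1) := by
    intro n a ha b hb
    have k1 := dist_bound_10773 hρ0 hρ (hitρ n a ha) (hitρ n b hb)
    have k2 := hcon (n + 1) a ha b hb
    rw [hM, div_mul_eq_mul_div, le_div_iff₀ hρ2]
    linarith
  have hd : ∀ n : ℕ, ∀ a ∈ ball (0:E) 1, ∀ b ∈ ball (0:E) 1,
      ‖G^[n + 1] a - G^[n + 1] b‖ ≤ (√M * √κ) * (√κ) ^ n := by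
    intro n a ha b hb
    apply le_of_sq_le_sq _ (by positivity)
    calc ‖G^[n + 1] a - G^[n + 1] b‖ ^ 2 ≤ M * κ ^ (n + 1) := hd2 n a ha b hb
      _ = ((√M * √κ) * (√κ) ^ n) ^ 2 := by
          have e1 : √M ^ 2 = M := Real.sq_sqrt hMpos.le
          have e2 : √κ ^ 2 = κ := Real.sq_sqrt h0
          calc M * κ ^ (n + 1) = √M ^ 2 * (√κ ^ 2) ^ (n + 1) := by rw [e1, e2]
            _ = _ := by ring
  have hκ1 : √κ < 1 := by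
    rw [Real.sqrt_lt' one_pos]
    simpa using h1
  have hcau : CauchySeq (fun n : ℕ => G^[n + 1] 0) := by
    apply cauchySeq_of_le_geometric (√κ) (√M * √κ) hκ1
    intro n
    rw [dist_eq_norm]
    have := hd n 0 hz0 (G 0) (hball 0 hz0)
    rw [← Function.iterate_succ_apply G (n + 1) 0] at this
    exact this
  obtain ⟨x, hx⟩ := cauchySeq_tendsto_of_complete hcau
  have hxρ : ‖x‖ ≤ ρ := by
    have := hx.norm
    exact le_of_tendsto this (Filter.Eventually.of_forall (fun n => hitρ n 0 hz0))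
  have hxb : x ∈ ball (0:E) 1 := by
    rw [mem_ball_zero_iff]
    exact lt_of_le_of_lt hxρ hρ
  have hGx : G x = x := by
    have hca : ContinuousAt G x := hG.continuousAt (isOpen_ball.mem_nhds hxb)
    have t1 : Tendsto (fun n : ℕ => G (G^[n + 1] 0)) atTop (𝓝 (G x)) := hca.tendsto.comp hx
    have t2 : Tendsto (fun n : ℕ => G (G^[n + 1] 0)) atTop (𝓝 x) := by
      have t3 := (tendsto_add_atTop_iff_nat (f := fun n : ℕ => G^[n + 1] 0) 1).2 hx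
      refine t3.congr ?_
      intro n
      rw [Function.iterate_succ_apply']
    exact tendsto_nhds_unique t1 t2
  refine ⟨x, hxb, hGx, ?_⟩
  intro z hz
  have hfix : ∀ n : ℕ, G^[n] x = x := fun n => Function.iterate_fixed hGx n
  rw [← tendsto_add_atTop_iff_nat 1]
  rw [tendsto_iff_norm_sub_tendsto_zero]
  have hgeo : Tendsto (fun n : ℕ => (√M * √κ) * (√κ) ^ n) atTop (𝓝 0) := by
    have := (tendsto_pow_atTop_nhds_zero_of_lt_one (Real.sqrt_nonneg κ) hκ1).const_mul (√M * √κ)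
    simpa using this
  refine squeeze_zero (fun n => norm_nonneg _) (fun n => ?_) hgeo
  have := hd n z hz x hxb
  rwa [hfix] at this


end Pool.Agent.Helper321.DW
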