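import Mathlib
set_option autoImplicit false
set_option linter.unusedSectionVars false
open Metric Set Filter Topology
open scoped InnerProductSpace ComplexConjugate

namespace Pool.Agent.Helper321.DW

variable {E : Type} [NormedAddCommGroup E] [InnerProductSpace ℂ E]

theorem lipschitz_self {G : E → E} (hG : DifferentiableOn ℂ G (ball (0:E) 1))
    (hm : MapsTo G (ball (0:E) 1) (ball (0:E) 1)) {a b : E} (ha : a ∈ ball (0:E) 1)
    (hb : ‖b - a‖ < 1 - ‖a‖) : ‖G b - G a‖ ≤ 2 / (1 - ‖a‖) * ‖b - a‖ := by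
  rw [mem_ball_zero_iff] at ha
  have hR : 0 < 1 - ‖a‖ := by linarith
  by_cases hab : b = a
  · rw [hab]; simp
  · have hn : ‖b - a‖ ≠ 0 := norm_ne_zero_iff.mpr (sub_ne_zero.mpr hab)
    obtain ⟨e, he⟩ : ∃ e : E, e = ((‖b - a‖ : ℂ))⁻¹ • (b - a) := ⟨_, rfl⟩
    have hnc : ((‖b - a‖ : ℝ) : ℂ) ≠ 0 := by exact_mod_cast hn
    have he1 : ‖e‖ = 1 := by
      rw [he, norm_smul, norm_inv, Complex.norm_real, norm_norm]
      exact inv_mul_cancel₀ hn
    have hball : ∀ t : ℂ, t ∈ ball (0 : ℂ) (1 - ‖a‖) → a + t • e ∈ ball (0 : E) 1 := by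
      intro t ht
      rw [mem_ball_zero_iff] at ht ⊢
      calc ‖a + t • e‖ ≤ ‖a‖ + ‖t • e‖ := norm_add_le _ _
        _ = ‖a‖ + ‖t‖ := by rw [norm_smul, he1, mul_one]
        _ < 1 := by linarith
    have hd : DifferentiableOn ℂ (fun t : ℂ => G (a + t • e)) (ball 0 (1 - ‖a‖)) := by
      refine hG.comp ?_ hball
      exact ((differentiable_const a).add (differentiable_id.smul_const e)).differentiableOn
    have hmaps : MapsTo (fun t : ℂ => G (a + t • e)) (ball 0 (1 - ‖a‖))
        (ball ((fun t : ℂ => G (a + t • e)) 0) 2) := by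
      intro t ht
      rw [mem_ball, dist_eq_norm]
      have h1 := hm (hball t ht)
      have h2 := hm (hball 0 (mem_ball_self hR))
      rw [mem_ball_zero_iff] at h1 h2
      refine lt_of_le_of_lt (norm_sub_le _ _) ?_
      show ‖G (a + t • e)‖ + ‖G (a + (0 : ℂ) • e)‖ < 2
      linarith
    have hz : ((‖b - a‖ : ℝ) : ℂ) ∈ ball (0 : ℂ) (1 - ‖a‖) := by
      rw [mem_ball_zero_iff, Complex.norm_real, norm_norm]
      exact hb
    have key := Complex.dist_le_div_mul_dist_of_mapsTo_ball hd (hmaps.mono_right ball_subset_closedBall) hz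
    have hb2 : a + ((‖b - a‖ : ℝ) : ℂ) • e = b := by
      rw [he, smul_inv_smul₀ hnc, add_sub_cancel]
    simp only [hb2, zero_smul, add_zero, dist_eq_norm, sub_zero, Complex.norm_real, norm_norm] at key
    exact key


end Pool.Agent.Helper321.DW
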