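import Mathlib
set_option autoImplicit false
set_option linter.unusedSectionVars false
open Metric Set Filter Topology
open scoped InnerProductSpace ComplexConjugate

namespace Pool.Agent.Helper321.DW

variable {E : Type} [NormedAddCommGroup E] [InnerProductSpace ℂ E]

/-- interior cluster points are impossible for fixed-point-free maps -/
theorem no_interior_cluster [FiniteDimensional ℂ E] {F : E → E}
    (hF : DifferentiableOn ℂ F (ball (0:E) 1))
    (hm : MapsTo F (ball (0:E) 1) (ball (0:E) 1)) (hnf : ∀ z ∈ ball (0:E) 1, F z ≠ z)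
    (hlip : ∀ G : E → E, DifferentiableOn ℂ G (ball (0:E) 1) →
      MapsTo G (ball (0:E) 1) (ball (0:E) 1) → ∀ a ∈ ball (0:E) 1, ∀ b : E,
      ‖b - a‖ < 1 - ‖a‖ → ‖G b - G a‖ ≤ 2 / (1 - ‖a‖) * ‖b - a‖)
    (hbdd : ∀ w : E, ∀ r : ℝ, r < 1 → (∀ n : ℕ, ‖F^[n] w‖ ≤ r) → ∃ x ∈ ball (0:E) 1, F x = x)
    (hcalka : ∀ (X : Type) (_ : TopologicalSpace X) (f : X → X), Continuous f → ∀ c : X → X → ℝ,
      (∀ x y, c x y = c y x) → (∀ x y z, c x z ≤ c x y + c y z) →
      (∀ x, c x x = 0) → (∀ x y, c (f x) (f y) ≤ c x y) →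
      (∀ x, ∀ ε > 0, ∀ᶠ y in 𝓝 x, c x y < ε) →
      ∀ (w z : X) (r : ℝ), 0 < r → ∀ K : Set X, IsCompact K → (∀ y, c w y < r → y ∈ K) →
      MapClusterPt w atTop (fun n : ℕ => f^[n] z) →
      ∃ K' : Set X, IsCompact K' ∧ ∀ n : ℕ, f^[n] w ∈ K')
    {z w : E} (hz : z ∈ ball (0:E) 1) (hw : w ∈ ball (0:E) 1) :
    ¬ MapClusterPt w atTop (fun n : ℕ => F^[n] z) := by
  intro hcl
  set X := {x : E // x ∈ ball (0:E) 1} with hX
  let f : X → X := fun x => ⟨F x.1, hm x.2⟩
  have hval : ∀ (n : ℕ) (x : X), ((f^[n] x : X) : E) = F^[n] (x : E) := by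
    intro n
    induction n with
    | zero => intro x; rfl
    | succ k ih => intro x; rw [Function.iterate_succ_apply, Function.iterate_succ_apply, ih]
  have hmaps : ∀ n : ℕ, MapsTo (F^[n]) (ball (0:E) 1) (ball (0:E) 1) := fun n => hm.iterate n
  have hdiff : ∀ n : ℕ, DifferentiableOn ℂ (F^[n]) (ball (0:E) 1) := by
    intro n
    induction n with
    | zero => exact differentiableOn_id
    | succ k ih =>
      rw [Function.iterate_succ]
      exact ih.comp hF hm
  have hn1 : ∀ (n : ℕ) (x : X), ‖F^[n] (x : E)‖ ≤ 1 := by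
    intro n x
    have := hmaps n x.2
    rw [mem_ball_zero_iff] at this
    exact this.le
  let c : X → X → ℝ := fun x y => ⨆ n : ℕ, ‖F^[n] (x : E) - F^[n] (y : E)‖
  have hbd : ∀ x y : X, BddAbove (range fun n : ℕ => ‖F^[n] (x : E) - F^[n] (y : E)‖) := by
    intro x y
    refine ⟨2, ?_⟩
    rintro _ ⟨n, rfl⟩
    refine (norm_sub_le _ _).trans ?_
    linarith [hn1 n x, hn1 n y]
  have hle : ∀ (x y : X) (n : ℕ), ‖F^[n] (x : E) - F^[n] (y : E)‖ ≤ c x y := fun x y n =>
    le_ciSup (hbd x y) n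
  have hlec : ∀ (x y : X) (b : ℝ), (∀ n : ℕ, ‖F^[n] (x : E) - F^[n] (y : E)‖ ≤ b) → c x y ≤ b :=
    fun x y b h => ciSup_le h
  have hfc : Continuous f := by
    refine Continuous.subtype_mk ?_ _
    exact hF.continuousOn.restrict
  have h1w : 0 < 1 - ‖w‖ := by
    rw [mem_ball_zero_iff] at hw
    linarith
  set r := (1 - ‖w‖) / 2 with hr
  have hr0 : 0 < r := by positivity
  let K : Set X := {y : X | ‖(y : E) - w‖ ≤ r}
  haveI : ProperSpace E := FiniteDimensional.proper ℂ E
  have hKc : IsCompact K := by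
    rw [Subtype.isCompact_iff]
    have : (Subtype.val '' K : Set E) = closedBall w r := by
      ext y
      constructor
      · rintro ⟨y', hy', rfl⟩
        rw [mem_closedBall, dist_eq_norm]
        exact hy'
      · intro hy
        rw [mem_closedBall, dist_eq_norm] at hy
        have hy1 : y ∈ ball (0:E) 1 := by
          rw [mem_ball_zero_iff]
          have : ‖y‖ ≤ ‖y - w‖ + ‖w‖ := by
            have := norm_add_le (y - w) w
            simpa using this
          linarith
        exact ⟨⟨y, hy1⟩, hy, rfl⟩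
    rw [this]
    exact isCompact_closedBall w r
  obtain ⟨K', hK', hK'2⟩ := hcalka X inferInstance f hfc c
    (by
      intro x y
      change (⨆ n : ℕ, _) = ⨆ n : ℕ, _
      congr 1
      funext n
      exact norm_sub_rev _ _)
    (by
      intro x y z
      refine hlec _ _ _ fun n => ?_
      have h1 := hle x y n
      have h2 := hle y z n
      have h3 : F^[n] (x : E) - F^[n] (z : E) = (F^[n] (x : E) - F^[n] (y : E)) +
        (F^[n] (y : E) - F^[n] (z : E)) := by abel
      rw [h3]
      exact (norm_add_le _ _).trans (by linarith))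
    (by
      intro x
      change (⨆ n : ℕ, _) = _
      simp)
    (by
      intro x y
      refine hlec _ _ _ fun n => ?_
      have := hle x y (n + 1)
      rw [Function.iterate_succ_apply, Function.iterate_succ_apply] at this
      exact this)
    (by
      intro x ε hε
      have hx1 : 0 < 1 - ‖(x : E)‖ := by
        have := x.2
        rw [mem_ball_zero_iff] at this
        linarith
      have hev : ∀ᶠ y : X in 𝓝 x, dist y x < min (1 - ‖(x : E)‖) (ε * (1 - ‖(x : E)‖) / 4) := by
        have : 0 < min (1 - ‖(x : E)‖) (ε * (1 - ‖(x : E)‖) / 4) := by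
          apply lt_min hx1
          positivity
        exact Metric.ball_mem_nhds x this
      filter_upwards [hev] with y hy
      have hd : dist y x = ‖(y : E) - x‖ := by rw [Subtype.dist_eq, dist_eq_norm]
      rw [hd] at hy
      have hy1 := lt_of_lt_of_le hy (min_le_left _ _)
      have hy2 := lt_of_lt_of_le hy (min_le_right _ _)
      have hc : c x y ≤ ε / 2 := by
        refine hlec _ _ _ fun n => ?_
        rw [norm_sub_rev]
        refine (hlip (F^[n]) (hdiff n) (hmaps n) x x.2 y hy1).trans ?_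
        rw [div_mul_eq_mul_div, div_le_iff₀ hx1]
        nlinarith
      linarith)
    ⟨w, hw⟩ ⟨z, hz⟩ r hr0 K hKc
    (by
      intro y hy
      have h0 := hle ⟨w, hw⟩ y 0
      rw [Function.iterate_zero, id, id, norm_sub_rev] at h0
      exact (lt_of_le_of_lt h0 hy).le)
    (by
      rw [mapClusterPt_iff_frequently] at hcl ⊢
      intro s hs
      rw [mem_nhds_subtype] at hs
      obtain ⟨t, ht, hts⟩ := hs
      refine (hcl t ht).mono ?_
      intro n hn
      apply hts
      change ((f^[n] ⟨z, hz⟩ : X) : E) ∈ t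
      rw [hval]
      exact hn)
  obtain ⟨x, hxK, hx⟩ := hK'.exists_isMaxOn ⟨_, hK'2 0⟩
    (f := fun y : X => ‖(y : E)‖) (continuous_subtype_val.norm.continuousOn)
  have hx1 : ‖(x : E)‖ < 1 := by
    have := x.2
    rwa [mem_ball_zero_iff] at this
  obtain ⟨p, hp, hp2⟩ := hbdd w ‖(x : E)‖ hx1 (by
    intro n
    have h1 := hx (hK'2 n)
    have h2 : ‖((f^[n] ⟨w, hw⟩ : X) : E)‖ ≤ ‖(x : E)‖ := h1
    rw [hval] at h2
    exact h2)
  exact hnf p hp hp2


end Pool.Agent.Helper321.DW
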