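import Mathlib
set_option autoImplicit false
set_option linter.unusedSectionVars false
open Metric Set Filter Topology
open scoped InnerProductSpace ComplexConjugate

namespace Pool.Agent.Helper321.DW

variable {E : Type} [NormedAddCommGroup E] [InnerProductSpace ℂ E]

/-- convergence to the Wolff point -/
theorem tendsto_wolff [FiniteDimensional ℂ E] {F : E → E}
    (hm : MapsTo F (ball (0:E) 1) (ball (0:E) 1)) {p : E} (hp : ‖p‖ = 1)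
    (hJ : ∀ z ∈ ball (0:E) 1,
      (1 - ‖z‖ ^ 2) * ‖1 - ⟪p, F z⟫_ℂ‖ ^ 2 ≤ (1 - ‖F z‖ ^ 2) * ‖1 - ⟪p, z⟫_ℂ‖ ^ 2)
    (hno : ∀ z ∈ ball (0:E) 1, ∀ w ∈ ball (0:E) 1, ¬ MapClusterPt w atTop (fun n : ℕ => F^[n] z))
    {z : E} (hz : z ∈ ball (0:E) 1) :
    Tendsto (fun n : ℕ => F^[n] z) atTop (𝓝 p) := by
  haveI : ProperSpace E := FiniteDimensional.proper ℂ E
  have hball : ∀ n : ℕ, F^[n] z ∈ ball (0:E) 1 := fun n => hm.iterate n hz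
  have hpos : ∀ x ∈ ball (0:E) 1, 0 < 1 - ‖x‖ ^ 2 := by
    intro x hx
    rw [mem_ball_zero_iff] at hx
    nlinarith [norm_nonneg x]
  have hind : ∀ n : ℕ, (1 - ‖z‖ ^ 2) * ‖1 - ⟪p, F^[n] z⟫_ℂ‖ ^ 2 ≤
      (1 - ‖F^[n] z‖ ^ 2) * ‖1 - ⟪p, z⟫_ℂ‖ ^ 2 := by
    intro n
    induction n with
    | zero => simp
    | succ n ih =>
      have h1 := hJ _ (hball n)
      rw [Function.iterate_succ_apply']
      have hA := hpos _ (hball n)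
      have hA0 := hpos _ hz
      have hA1 := hpos _ (hm (hball n))
      have h2 : ((1 - ‖z‖ ^ 2) * ‖1 - ⟪p, F (F^[n] z)⟫_ℂ‖ ^ 2) * (1 - ‖F^[n] z‖ ^ 2) ≤
          ((1 - ‖F (F^[n] z)‖ ^ 2) * ‖1 - ⟪p, z⟫_ℂ‖ ^ 2) * (1 - ‖F^[n] z‖ ^ 2) := by
        calc ((1 - ‖z‖ ^ 2) * ‖1 - ⟪p, F (F^[n] z)⟫_ℂ‖ ^ 2) * (1 - ‖F^[n] z‖ ^ 2) 
            = (1 - ‖z‖ ^ 2) * ((1 - ‖F^[n] z‖ ^ 2) * ‖1 - ⟪p, F (F^[n] z)⟫_ℂ‖ ^ 2) := by ring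
          _ ≤ (1 - ‖z‖ ^ 2) * ((1 - ‖F (F^[n] z)‖ ^ 2) * ‖1 - ⟪p, F^[n] z⟫_ℂ‖ ^ 2) :=
              mul_le_mul_of_nonneg_left h1 hA0.le
          _ = (1 - ‖F (F^[n] z)‖ ^ 2) * ((1 - ‖z‖ ^ 2) * ‖1 - ⟪p, F^[n] z⟫_ℂ‖ ^ 2) := by ring
          _ ≤ (1 - ‖F (F^[n] z)‖ ^ 2) * ((1 - ‖F^[n] z‖ ^ 2) * ‖1 - ⟪p, z⟫_ℂ‖ ^ 2) :=
              mul_le_mul_of_nonneg_left ih hA1.le
          _ = _ := by ring
      exact le_of_mul_le_mul_right h2 hA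
  refine (isCompact_closedBall (0:E) 1).tendsto_nhds_of_unique_mapClusterPt
    (Eventually.of_forall fun n => ball_subset_closedBall (hball n)) ?_
  intro y hy hcl
  rw [mem_closedBall_zero_iff] at hy
  rcases hy.lt_or_eq with h | h
  · exact absurd hcl (hno z hz y (by rw [mem_ball_zero_iff]; exact h))
  · have hclosed : IsClosed {x : E | (1 - ‖z‖ ^ 2) * ‖1 - ⟪p, x⟫_ℂ‖ ^ 2 ≤
      (1 - ‖x‖ ^ 2) * ‖1 - ⟪p, z⟫_ℂ‖ ^ 2} := by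
      apply isClosed_le
      · fun_prop
      · fun_prop
    have hmem : y ∈ {x : E | (1 - ‖z‖ ^ 2) * ‖1 - ⟪p, x⟫_ℂ‖ ^ 2 ≤
      (1 - ‖x‖ ^ 2) * ‖1 - ⟪p, z⟫_ℂ‖ ^ 2} := by
      by_contra hn
      have h1 := hclosed.isOpen_compl.mem_nhds hn
      obtain ⟨n, hn⟩ := ((mapClusterPt_iff_frequently.mp hcl) _ h1).exists
      exact hn (hind n)
    have h2 : (1 - ‖z‖ ^ 2) * ‖1 - ⟪p, y⟫_ℂ‖ ^ 2 ≤
      (1 - ‖y‖ ^ 2) * ‖1 - ⟪p, z⟫_ℂ‖ ^ 2 := hmem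
    rw [h] at h2
    have hA0 := hpos _ hz
    have h3 : ‖1 - ⟪p, y⟫_ℂ‖ ^ 2 = 0 := by
      have h4 : 0 ≤ ‖1 - ⟪p, y⟫_ℂ‖ ^ 2 := by positivity
      nlinarith
    have h4 : 1 - ⟪p, y⟫_ℂ = 0 := by
      rw [← norm_eq_zero]
      exact pow_eq_zero_iff (two_ne_zero) |>.mp h3
    have h5 : ⟪p, y⟫_ℂ = 1 := (sub_eq_zero.mp h4).symm
    exact ((inner_eq_one_iff_of_norm_eq_one hp h).mp h5).symm


end Pool.Agent.Helper321.DW
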