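import Pool.Agent.Helper321.DW.Sg
set_option autoImplicit false
set_option linter.unusedSectionVars false
open Metric Set Filter Topology
open scoped InnerProductSpace ComplexConjugate

namespace Pool.Agent.Helper321.DW

variable {E : Type} [NormedAddCommGroup E] [InnerProductSpace ℂ E]

/-- Wolff's lemma for the unit ball: existence of the Wolff point and Julia's inequality. -/
theorem wolff_point [FiniteDimensional ℂ E] {F : E → E} (hF : DifferentiableOn ℂ F (ball (0:E) 1))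
    (hm : MapsTo F (ball (0:E) 1) (ball (0:E) 1)) (hnf : ∀ z ∈ ball (0:E) 1, F z ≠ z)
    (hSP : ∀ F : E → E, DifferentiableOn ℂ F (ball (0:E) 1) →
      MapsTo F (ball (0:E) 1) (ball (0:E) 1) →
      ∀ a ∈ ball (0:E) 1, ∀ b ∈ ball (0:E) 1, sg a b ≤ sg (F a) (F b))
    (hEH : ∀ G : E → E, DifferentiableOn ℂ G (ball (0:E) 1) → ∀ ρ < 1,
      (∀ z ∈ ball (0:E) 1, ‖G z‖ ≤ ρ) → ∃ x ∈ ball (0:E) 1, G x = x) :
    ∃ p : E, ‖p‖ = 1 ∧ ∀ z ∈ ball (0:E) 1,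
      (1 - ‖z‖ ^ 2) * ‖1 - ⟪p, F z⟫_ℂ‖ ^ 2 ≤ (1 - ‖F z‖ ^ 2) * ‖1 - ⟪p, z⟫_ℂ‖ ^ 2 := by
  haveI : ProperSpace E := FiniteDimensional.proper ℂ E
  set ρ : ℕ → ℝ := fun k => 1 - 1 / ((k : ℝ) + 1 + 1) with hρ
  have hρ1 : ∀ k, ρ k < 1 := fun k => by
    have : (0 : ℝ) < 1 / ((k : ℝ) + 1 + 1) := by positivity
    simp only [hρ]; linarith
  have hρ0 : ∀ k, 0 ≤ ρ k := fun k => by
    have h : 1 / ((k : ℝ) + 1 + 1) ≤ 1 := by
      rw [div_le_one (by positivity)]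
      have : (0 : ℝ) ≤ k := Nat.cast_nonneg k
      linarith
    simp only [hρ]; linarith
  have hρlim : Tendsto ρ atTop (𝓝 1) := by
    have h1 : Tendsto (fun k : ℕ => 1 / ((k : ℝ) + 1)) atTop (𝓝 0) :=
      tendsto_one_div_add_atTop_nhds_zero_nat
    have h2 := h1.comp (tendsto_add_atTop_nat 1)
    have h3 := h2.const_sub 1
    simp only [sub_zero] at h3
    refine h3.congr fun k => ?_
    simp [hρ]
  set G : ℕ → E → E := fun k z => (ρ k : ℂ) • F z with hG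
  have hGd : ∀ k, DifferentiableOn ℂ (G k) (ball (0:E) 1) := fun k => hF.const_smul _
  have hnG : ∀ k z, ‖G k z‖ = ρ k * ‖F z‖ := fun k z => by
    simp only [hG]
    rw [norm_smul, Complex.norm_real, Real.norm_eq_abs, abs_of_nonneg (hρ0 k)]
  have hFn : ∀ z ∈ ball (0:E) 1, ‖F z‖ < 1 := fun z hz => by
    have := hm hz
    rwa [mem_ball_zero_iff] at this
  have hGb : ∀ k, ∀ z ∈ ball (0:E) 1, ‖G k z‖ ≤ ρ k := fun k z hz => by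
    rw [hnG]
    calc ρ k * ‖F z‖ ≤ ρ k * 1 := mul_le_mul_of_nonneg_left (hFn z hz).le (hρ0 k)
      _ = ρ k := mul_one _
  have hGm : ∀ k, MapsTo (G k) (ball (0:E) 1) (ball (0:E) 1) := fun k z hz => by
    rw [mem_ball_zero_iff]
    exact (hGb k z hz).trans_lt (hρ1 k)
  have hfix : ∀ k, ∃ x ∈ ball (0:E) 1, G k x = x := fun k => hEH (G k) (hGd k) (ρ k) (hρ1 k) (hGb k)
  choose x hxb hxf using hfix
  obtain ⟨p, hp, φ, hφ, hlim⟩ := (isCompact_closedBall (0:E) 1).tendsto_subseq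
    (fun k => ball_subset_closedBall (hxb k))
  have hρφ : Tendsto (fun k => (ρ (φ k) : ℂ)) atTop (𝓝 1) := by
    have h1 : Tendsto (fun k => ρ (φ k)) atTop (𝓝 1) := hρlim.comp hφ.tendsto_atTop
    have h2 := (Complex.continuous_ofReal.tendsto 1).comp h1
    rw [Complex.ofReal_one] at h2
    exact h2
  have hlim' : Tendsto (fun k => x (φ k)) atTop (𝓝 p) := hlim
  have hple : ‖p‖ ≤ 1 := by rwa [mem_closedBall_zero_iff] at hp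
  have hp1 : ‖p‖ = 1 := by
    by_contra hne
    have hlt : ‖p‖ < 1 := lt_of_le_of_ne hple hne
    have hpb : p ∈ ball (0:E) 1 := by rwa [mem_ball_zero_iff]
    have hFc : ContinuousAt F p := (hF.continuousOn).continuousAt (isOpen_ball.mem_nhds hpb)
    have h1 : Tendsto (fun k => (ρ (φ k) : ℂ) • F (x (φ k))) atTop (𝓝 ((1 : ℂ) • F p)) :=
      hρφ.smul (hFc.tendsto.comp hlim')
    have h2 : (fun k => (ρ (φ k) : ℂ) • F (x (φ k))) = fun k => x (φ k) :=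
      funext fun k => hxf (φ k)
    rw [h2, one_smul] at h1
    exact hnf p hpb (tendsto_nhds_unique h1 hlim')
  refine ⟨p, hp1, fun z hz => ?_⟩
  have hin : ∀ a b : E, ‖a‖ < 1 → ‖b‖ < 1 → 0 < ‖1 - ⟪a, b⟫_ℂ‖ := by
    intro a b ha hb
    rw [norm_pos_iff]
    intro h
    have h1 : ⟪a, b⟫_ℂ = 1 := (sub_eq_zero.mp h).symm
    have h2 := norm_inner_le_norm (𝕜 := ℂ) a b
    rw [h1, norm_one] at h2
    nlinarith [norm_nonneg a, norm_nonneg b]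
  have key : ∀ k, (1 - ‖z‖ ^ 2) * ‖1 - ⟪x k, (ρ k : ℂ) • F z⟫_ℂ‖ ^ 2 ≤
      (1 - ‖(ρ k : ℂ) • F z‖ ^ 2) * ‖1 - ⟪x k, z⟫_ℂ‖ ^ 2 := by
    intro k
    have h1 := hSP (G k) (hGd k) (hGm k) (x k) (hxb k) z hz
    rw [hxf k] at h1
    unfold sg at h1
    have hxk : ‖x k‖ < 1 := by have := hxb k; rwa [mem_ball_zero_iff] at this
    have hzn : ‖z‖ < 1 := by rwa [mem_ball_zero_iff] at hz
    have hGz : ‖(ρ k : ℂ) • F z‖ < 1 := by have := hGm k hz; rwa [mem_ball_zero_iff] at this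
    have d1 := hin (x k) z hxk hzn
    have d2 := hin (x k) ((ρ k : ℂ) • F z) hxk hGz
    have hc : 0 < 1 - ‖x k‖ ^ 2 := by nlinarith [norm_nonneg (x k)]
    have h2 : (1 - ‖x k‖ ^ 2) * (1 - ‖z‖ ^ 2) / ‖1 - ⟪x k, z⟫_ℂ‖ ^ 2 ≤
        (1 - ‖x k‖ ^ 2) * (1 - ‖(ρ k : ℂ) • F z‖ ^ 2) / ‖1 - ⟪x k, (ρ k : ℂ) • F z⟫_ℂ‖ ^ 2 := h1
    rw [div_le_div_iff₀ (by positivity) (by positivity)] at h2
    have h3 : (1 - ‖x k‖ ^ 2) * ((1 - ‖z‖ ^ 2) * ‖1 - ⟪x k, (ρ k : ℂ) • F z⟫_ℂ‖ ^ 2) ≤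
        (1 - ‖x k‖ ^ 2) * ((1 - ‖(ρ k : ℂ) • F z‖ ^ 2) * ‖1 - ⟪x k, z⟫_ℂ‖ ^ 2) := by
      nlinarith
    exact le_of_mul_le_mul_left h3 hc
  have hsm : Tendsto (fun k => (ρ (φ k) : ℂ) • F z) atTop (𝓝 (F z)) := by
    have := hρφ.smul_const (F z)
    rwa [one_smul] at this
  have L1 : Tendsto (fun k => (1 - ‖z‖ ^ 2) * ‖1 - ⟪x (φ k), (ρ (φ k) : ℂ) • F z⟫_ℂ‖ ^ 2) atTop
      (𝓝 ((1 - ‖z‖ ^ 2) * ‖1 - ⟪p, F z⟫_ℂ‖ ^ 2)) :=
    (((hlim'.inner hsm).const_sub 1).norm.pow 2).const_mul _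
  have L2 : Tendsto (fun k => (1 - ‖(ρ (φ k) : ℂ) • F z‖ ^ 2) * ‖1 - ⟪x (φ k), z⟫_ℂ‖ ^ 2) atTop
      (𝓝 ((1 - ‖F z‖ ^ 2) * ‖1 - ⟪p, z⟫_ℂ‖ ^ 2)) :=
    ((hsm.norm.pow 2).const_sub 1).mul (((hlim'.inner tendsto_const_nhds).const_sub 1).norm.pow 2)
  exact le_of_tendsto_of_tendsto' L1 L2 fun k => key (φ k)


end Pool.Agent.Helper321.DW
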