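import Pool.Agent.Helper321.DW.SP
import Pool.Agent.Helper321.DW.Contraction
import Pool.Agent.Helper321.DW.ExFixed
import Pool.Agent.Helper321.DW.Wolff
import Pool.Agent.Helper321.DW.Calka
import Pool.Agent.Helper321.DW.Lip
import Pool.Agent.Helper321.DW.BddOrbit
import Pool.Agent.Helper321.DW.NoCluster
import Pool.Agent.Helper321.DW.TendWolff
import Pool.Agent.Helper321.DW.BallBB
set_option autoImplicit false
open Metric Set Filter Topology
open scoped InnerProductSpace ComplexConjugate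

namespace Pool.Agent.Helper321.DW

variable {E : Type} [NormedAddCommGroup E] [InnerProductSpace ℂ E]

theorem sg_SP {F : E → E} (hF : DifferentiableOn ℂ F (ball (0:E) 1))
    (hm : MapsTo F (ball (0:E) 1) (ball (0:E) 1)) :
    ∀ a ∈ ball (0:E) 1, ∀ b ∈ ball (0:E) 1, sg a b ≤ sg (F a) (F b) := by
  intro a ha b hb
  have h := schwarz_pick hF hm ha hb
  have h1 := den_pos_10773 (mem_ball_zero_iff.1 ha) (mem_ball_zero_iff.1 hb)
  have h2 := den_pos_10773 (mem_ball_zero_iff.1 (hm ha)) (mem_ball_zero_iff.1 (hm hb))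
  unfold sg
  rw [div_le_div_iff₀ (by positivity) (by positivity)]
  exact h

theorem EH [CompleteSpace E] {G : E → E} (hG : DifferentiableOn ℂ G (ball (0:E) 1)) {ρ : ℝ}
    (hρ : ρ < 1) (hGρ : ∀ z ∈ ball (0:E) 1, ‖G z‖ ≤ ρ) :
    ∃ x ∈ ball (0:E) 1, G x = x ∧
      ∀ z ∈ ball (0:E) 1, Tendsto (fun n : ℕ => G^[n] z) atTop (𝓝 x) := by
  obtain ⟨κ, h0, h1, hc⟩ := contraction (fun F hF hm => sg_SP hF hm) hG hρ hGρ
  exact exists_fixed hG.continuousOn hρ hGρ h0 h1 hc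

/-- Denjoy–Wolff theorem for the unit ball of a finite-dimensional complex inner product space. -/
theorem DW_ball [FiniteDimensional ℂ E] {F : E → E} (hF : DifferentiableOn ℂ F (ball (0:E) 1))
    (hm : MapsTo F (ball (0:E) 1) (ball (0:E) 1)) (hnf : ∀ z ∈ ball (0:E) 1, F z ≠ z) :
    ∃ p : E, ‖p‖ = 1 ∧ ∀ z ∈ ball (0:E) 1, Tendsto (fun n : ℕ => F^[n] z) atTop (𝓝 p) := by
  haveI : CompleteSpace E := FiniteDimensional.complete ℂ E
  obtain ⟨p, hp, hJ⟩ := wolff_point hF hm hnf (fun F hF hm => sg_SP hF hm)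
    (fun G hG ρ hρ h => by
      obtain ⟨x, hx, h1, _⟩ := EH hG hρ h
      exact ⟨x, hx, h1⟩)
  refine ⟨p, hp, fun z hz => tendsto_wolff hm hp hJ ?_ hz⟩
  intro z hz w hw
  exact no_interior_cluster hF hm hnf (fun G hG hm a ha b hb => lipschitz_self hG hm ha hb)
    (fun w r hr hw => fixed_of_bounded_orbit hF hm (sg_SP hF hm)
      (fun G hG ρ hρ h => EH hG hρ h) hr hw)
    (fun X _ f hf c h1 h2 h3 h4 h5 w z r hr K hK hKr hw =>
      calka hf c h1 h2 h3 h4 h5 hr hK hKr hw) hz hw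

theorem BB_DenjoyWolff (f : (Fin 2 → ℂ) → (Fin 2 → ℂ)) (hf : DifferentiableOn ℂ f BB)
    (hm : MapsTo f BB BB) (hnf : ∀ z ∈ BB, f z ≠ z) :
    ∃ p ∈ frontier BB, ∀ z ∈ BB, Tendsto (fun m : ℕ => f^[m] z) atTop (𝓝 p) :=
  BB_DW (fun _ hF hm hnf => DW_ball hF hm hnf) f hf hm hnf

end Pool.Agent.Helper321.DW
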