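import Pool.Agent.Helper321.DW.Defs
set_option autoImplicit false
open Metric Set Filter Topology Complex

namespace Pool.Agent.Helper321.DW

theorem G0_a_real (e : ℝ) (r : Fin 2 → Fin 2 → ℝ) (j : Fin 2) :
    (G0 e).a j (rc r) = ((e * (3 * (r 0 0 + r 1 0) / (1 + Qr r)) : ℝ) : ℂ) := by
  simp only [G0, ss, qq, rc, Qr]
  push_cast
  ring

theorem G0_base : ∃ e : ℝ, 0 < e ∧ ∃ r0 : Fin 2 → Fin 2 → ℝ, Cls (G0 e) 1 0 ∧
    (∀ t : ℕ, ∀ j, 1 ≤ ((G0 e).rmap^[t] r0) j 0 ∧ ((G0 e).rmap^[t] r0) j 0 ≤ 3 / 2) ∧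
    (∀ j, Tendsto (fun t : ℕ => ((G0 e).rmap^[t] r0) j 1) atTop atTop) := by
  refine ⟨1 / 100, by norm_num, fun _ => ![1, 0], ?_, ?_⟩
  · refine ⟨?_, ?_, ?_, ?_, ?_⟩
    · intro r _ j
      simp [G0]
    · intro r _ j
      rw [G0_a_real, Complex.ofReal_im]
    · intro r hr j
      rw [G0_a_real, Complex.ofReal_re]
      have h0 := hr 0
      have h1 := hr 1
      have hQ : 0 ≤ Qr r := by unfold Qr; nlinarith [sq_nonneg (r 0 1), sq_nonneg (r 1 1)]
      apply mul_nonneg (by norm_num)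
      apply div_nonneg <;> linarith
    · intro r hr h4 j
      rw [G0_a_real, Complex.ofReal_re]
      have h0 := hr 0
      have h1 := hr 1
      have hQ : Qr r = (r 0 1) ^ 2 + (r 1 1) ^ 2 + 3 * (r 0 0 + r 1 0) := rfl
      have hx : 0 < 1 + (r 0 1) ^ 2 + (r 1 1) ^ 2 := by positivity
      have hQ0 : 0 < 1 + Qr r := by rw [hQ]; nlinarith [sq_nonneg (r 0 1), sq_nonneg (r 1 1)]
      rw [← mul_div_assoc, div_le_div_iff₀ hQ0 hx]
      nlinarith [sq_nonneg (r 0 1), sq_nonneg (r 1 1)]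
    · intro r hr _ j
      refine ⟨0, 0, ?_, ?_, le_rfl, le_rfl, ?_⟩
      · simp [G0]
      · rw [abs_zero]; positivity
      · positivity
  · have key : ∀ t : ℕ, ∀ j, ((G0 (1 / 100)).rmap^[t] (fun _ => ![1, 0])) j 1 = (t : ℝ) ∧
        1 ≤ ((G0 (1 / 100)).rmap^[t] (fun _ => ![1, 0])) j 0 ∧
        ((G0 (1 / 100)).rmap^[t] (fun _ => ![1, 0])) j 0 ≤ 1 + 24 / 100 * (1 - 1 / ((t : ℝ) + 1)) := by
      intro t
      induction t with
      | zero =>
        intro j
        simp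
      | succ t ih =>
        rw [Function.iterate_succ_apply']
        generalize (G0 (1 / 100)).rmap^[t] (fun _ => ![1, 0]) = r at ih
        intro j
        have ht0 : (0 : ℝ) ≤ t := Nat.cast_nonneg t
        have htt : (t : ℝ) ≤ (t : ℝ) ^ 2 := by exact_mod_cast Nat.le_self_pow (by norm_num) t
        have hfr : 0 ≤ 1 / ((t : ℝ) + 1) := by positivity
        have i0 := ih 0
        have i1 := ih 1
        have ij := ih j
        have hQ : Qr r = (t : ℝ) ^ 2 + (t : ℝ) ^ 2 + 3 * (r 0 0 + r 1 0) := by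
          unfold Qr; rw [i0.1, i1.1]
        have ha : 0 ≤ (1 / 100 : ℝ) * (3 * (r 0 0 + r 1 0) / (1 + Qr r)) := by
          apply mul_nonneg (by norm_num)
          apply div_nonneg
          · linarith [i0.2.1, i1.2.1]
          · rw [hQ]; nlinarith [i0.2.1, i1.2.1, sq_nonneg (t : ℝ)]
        have hb : (1 / 100 : ℝ) * (3 * (r 0 0 + r 1 0) / (1 + Qr r)) ≤
            24 / 100 * (1 / ((t : ℝ) + 1) - 1 / ((t : ℝ) + 1 + 1)) := by
          have e1 : 24 / 100 * (1 / ((t : ℝ) + 1) - 1 / ((t : ℝ) + 1 + 1)) =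
              (24 / 100) / (((t : ℝ) + 1) * ((t : ℝ) + 1 + 1)) := by
            field_simp
            ring
          have hQ0 : 0 < 1 + Qr r := by
            rw [hQ]; nlinarith [i0.2.1, i1.2.1, sq_nonneg (t : ℝ)]
          rw [e1, ← mul_div_assoc, div_le_div_iff₀ hQ0 (by positivity), hQ]
          have hs4 : r 0 0 + r 1 0 ≤ 4 := by linarith [i0.2.2, i1.2.2]
          have hs2 : 2 ≤ r 0 0 + r 1 0 := by linarith [i0.2.1, i1.2.1]
          generalize r 0 0 + r 1 0 = s at hs4 hs2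
          have : 1 / 100 * (3 * s) * (((t : ℝ) + 1) * ((t : ℝ) + 1 + 1)) ≤
              1 / 100 * (3 * 4) * (((t : ℝ) + 1) * ((t : ℝ) + 1 + 1)) := by
            apply mul_le_mul_of_nonneg_right _ (by positivity)
            linarith
          nlinarith
        refine ⟨?_, ?_, ?_⟩
        · simp [Sys.rmap, G0, ij.1]
        · simp only [Sys.rmap, G0_a_real, Complex.ofReal_re, Matrix.cons_val_zero]
          linarith [ij.2.1]
        · simp only [Sys.rmap, G0_a_real, Complex.ofReal_re, Matrix.cons_val_zero]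
          push_cast
          linarith [ij.2.2]
    refine ⟨?_, ?_⟩
    · intro t j
      refine ⟨(key t j).2.1, ?_⟩
      have h1 := (key t j).2.2
      have hfr : 0 ≤ 1 / ((t : ℝ) + 1) := by positivity
      linarith
    · intro j
      have : (fun t : ℕ => ((G0 (1 / 100)).rmap^[t] (fun _ => ![1, 0])) j 1) = fun t : ℕ => (t : ℝ) :=
        funext (fun t => (key t j).1)
      rw [this]
      exact tendsto_natCast_atTop_atTop


end Pool.Agent.Helper321.DW
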