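import Pool.Agent.Helper321.DW.Defs
set_option autoImplicit false
open Metric Set Filter Topology Complex

namespace Pool.Agent.Helper321.DW

theorem re_pos_alg (x0 x1 y0 y1 sr si : ℝ) (h : y0 ^ 2 + y1 ^ 2 < sr) :
    0 < sr * (1 + (x0 ^ 2 - y0 ^ 2 + (x1 ^ 2 - y1 ^ 2) + 3 * sr)) +
      si * (2 * (x0 * y0) + 2 * (x1 * y1) + 3 * si) := by
  have hsr : 0 < sr := lt_of_le_of_lt (by positivity) h
  have e : sr * (1 + (x0 ^ 2 - y0 ^ 2 + (x1 ^ 2 - y1 ^ 2) + 3 * sr)) +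
      si * (2 * (x0 * y0) + 2 * (x1 * y1) + 3 * si) =
      sr + (x0 ^ 2 + x1 ^ 2) * (sr - (y0 ^ 2 + y1 ^ 2)) + (x0 * y1 - x1 * y0) ^ 2 +
      (x0 * y0 + x1 * y1 + si) ^ 2 + 2 * si ^ 2 + sr * (sr - (y0 ^ 2 + y1 ^ 2)) + 2 * sr ^ 2 := by
    ring
  rw [e]
  have h' : 0 < sr - (y0 ^ 2 + y1 ^ 2) := by linarith
  positivity

theorem re_pos_qq {P : X} (hP : P ∈ Om) : 0 < (1 + qq P).re := by
  have h0 := hP 0
  have h1 := hP 1
  have e : (1 + qq P).re = 1 + (((P 0 1).re ^ 2 - (P 0 1).im ^ 2) +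
      ((P 1 1).re ^ 2 - (P 1 1).im ^ 2) + 3 * ((P 0 0).re + (P 1 0).re)) := by
    unfold qq
    simp [pow_two, Complex.add_re, Complex.mul_re]
  rw [e]
  nlinarith [sq_nonneg (P 0 1).re, sq_nonneg (P 1 1).re, sq_nonneg (P 0 1).im,
    sq_nonneg (P 1 1).im]

theorem re_pos_ne {P : X} (hP : P ∈ Om) : 1 + qq P ≠ 0 := by
  intro h
  have := re_pos_qq hP
  rw [h] at this
  simp at this

theorem re_pos : ∀ P ∈ Om, 0 < (3 * ss P / (1 + qq P)).re := by
  intro P hP
  have h0 := hP 0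
  have h1 := hP 1
  have hn : 0 < Complex.normSq (1 + qq P) := Complex.normSq_pos.2 (re_pos_ne hP)
  rw [Complex.div_re, ← add_div]
  apply div_pos _ hn
  have key := re_pos_alg (P 0 1).re (P 1 1).re (P 0 1).im (P 1 1).im
    ((P 0 0).re + (P 1 0).re) ((P 0 0).im + (P 1 0).im) (by linarith)
  have e : (3 * ss P).re * (1 + qq P).re + (3 * ss P).im * (1 + qq P).im =
      3 * (((P 0 0).re + (P 1 0).re) * (1 + ((P 0 1).re ^ 2 - (P 0 1).im ^ 2 +
        ((P 1 1).re ^ 2 - (P 1 1).im ^ 2) + 3 * ((P 0 0).re + (P 1 0).re))) +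
      ((P 0 0).im + (P 1 0).im) * (2 * ((P 0 1).re * (P 0 1).im) +
        2 * ((P 1 1).re * (P 1 1).im) + 3 * ((P 0 0).im + (P 1 0).im))) := by
    unfold ss qq
    simp [pow_two, Complex.add_re, Complex.mul_re, Complex.add_im, Complex.mul_im]
    ring
  rw [e]
  linarith

theorem G0_ineq (e lam : ℝ) : Ineq (G0 e) lam e := by
  intro P _ j
  show 2 * (P j 1).im * (1 : ℂ).im + lam * (1 : ℂ).im ^ 2 + e * (3 * ss P / (1 + qq P)).re ≤
    ((e : ℂ) * (3 * ss P / (1 + qq P))).re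
  rw [Complex.re_ofReal_mul, Complex.one_im]
  apply le_of_eq
  ring

theorem G0_diff (e : ℝ) (j : Fin 2) :
    DifferentiableOn ℂ ((G0 e).b j) Om ∧ DifferentiableOn ℂ ((G0 e).a j) Om := by
  constructor
  · exact differentiableOn_const _
  · show DifferentiableOn ℂ (fun P : X => (e : ℂ) * (3 * ss P / (1 + qq P))) Om
    have hc : ∀ j k : Fin 2, Differentiable ℂ (fun P : X => P j k) := by
      intro j k
      exact differentiable_pi.1 (differentiable_pi.1 differentiable_id j) k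
    have hs : Differentiable ℂ ss := (hc 0 0).add (hc 1 0)
    have hq : Differentiable ℂ qq :=
      (((hc 0 1).pow 2).add ((hc 1 1).pow 2)).add (((hc 0 0).add (hc 1 0)).const_mul 3)
    apply DifferentiableOn.const_mul
    intro P hP
    have h1 : DifferentiableAt ℂ (fun P : X => 3 * ss P) P := (hs P).const_mul 3
    have h2 : DifferentiableAt ℂ (fun P : X => 1 + qq P) P := (hq P).const_add 1
    have h3 : DifferentiableAt ℂ (fun P : X => (1 + qq P)⁻¹) P :=
      (differentiableAt_inv (re_pos_ne hP)).comp P h2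
    have h4 := h1.fun_mul h3
    simp only [div_eq_mul_inv]
    exact h4.differentiableWithinAt


end Pool.Agent.Helper321.DW
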