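import Pool.Agent.Helper321.DW.Defs
set_option autoImplicit false
open Metric Set Filter Topology Complex

namespace Pool.Agent.Helper321.DW

/-- the block inequality -/
theorem block_ineq {P : X} (hP : P ∈ Om) {h V W M L K : ℝ} (hh : 0 < h) (hM : 0 < M) (hML : M ≤ L)
    (hK : 0 ≤ K) (hKh : K * h ≤ 1) (i : Fin 2)
    (hquad : ∀ z : ℂ, 2 * (th L (qq P) * z).im ^ 2 ≤
      ((3 * (L : ℂ) ^ 2 * ss P / ((L : ℂ) ^ 2 + qq P) ^ 2) * z ^ 2).re
        + 2 * z.im * (th L (qq P) * z).im)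
    (hth : (th M (qq P)).im ^ 2 ≤ 2 * (3 * ss P / ((M : ℂ) ^ 2 + qq P)).re)
    (hpos : 0 < (3 * ss P / ((M : ℂ) ^ 2 + qq P)).re) :
    2 * (P i 1).im * (bb h V W M L (qq P) (P i 1)).im
      + K * (bb h V W M L (qq P) (P i 1)).im ^ 2 ≤ (aa h V W M L (qq P) (ss P) (P i 1)).re := by
  set q := qq P with hq
  set s := ss P with hs
  set v := P i 1 with hv
  set C := Cc h V W M L q with hC
  have hL : 0 < L := lt_of_lt_of_le hM hML
  have hr0 : 0 < M / L := div_pos hM hL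
  have hr1 : M / L ≤ 1 := (div_le_one hL).mpr hML
  have hCim : C.im = (V / h) * (1 - (M / L) ^ 2) * (th M q).im := by
    have h1 : C = (((V / h) * (M / L) ^ 2 - W / h : ℝ) : ℂ)
        + (((V / h) * (1 - (M / L) ^ 2) : ℝ) : ℂ) * th M q := by
      have hhc : (h : ℂ) ≠ 0 := by exact_mod_cast hh.ne'
      rw [hC]
      unfold Cc
      push_cast
      field_simp
      ring
    rw [h1, Complex.add_im, Complex.ofReal_im, Complex.im_ofReal_mul, zero_add]
  have hCsq : h * C.im ^ 2 ≤ 2 * (V ^ 2 / h) * (3 * s / ((M : ℂ) ^ 2 + q)).re := by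
    have h1 : C.im ^ 2 = (V / h) ^ 2 * ((1 - (M / L) ^ 2) ^ 2 * (th M q).im ^ 2) := by
      rw [hCim]; ring
    have h2 : (1 - (M / L) ^ 2) ^ 2 ≤ 1 := by
      have h3 : (M / L) ^ 2 ≤ 1 := pow_le_one₀ hr0.le hr1
      have h4 : 0 ≤ (M / L) ^ 2 := sq_nonneg _
      nlinarith
    have h3 : (1 - (M / L) ^ 2) ^ 2 * (th M q).im ^ 2 ≤ (th M q).im ^ 2 :=
      mul_le_of_le_one_left (sq_nonneg _) h2
    have h4 : h * C.im ^ 2 ≤ h * ((V / h) ^ 2 * (2 * (3 * s / ((M : ℂ) ^ 2 + q)).re)) := by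
      rw [h1]
      exact mul_le_mul_of_nonneg_left
        (mul_le_mul_of_nonneg_left (h3.trans hth) (sq_nonneg _)) hh.le
    refine h4.trans (le_of_eq ?_)
    field_simp
  have hbb : (bb h V W M L q v).im = -(h * (th L q * (v - C)).im) := by
    have h1 : bb h V W M L q v = ((-h : ℝ) : ℂ) * (th L q * (v - C)) := by
      unfold bb
      rw [← hC]
      push_cast
      ring
    rw [h1, Complex.im_ofReal_mul]
    ring
  have haa : (aa h V W M L q s v).re =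
      h * ((3 * (L : ℂ) ^ 2 * s / ((L : ℂ) ^ 2 + q) ^ 2) * (v - C) ^ 2).re
        + 3 * (V ^ 2 / h) * (3 * s / ((M : ℂ) ^ 2 + q)).re := by
    have h1 : aa h V W M L q s v =
        (h : ℂ) * ((3 * (L : ℂ) ^ 2 * s / ((L : ℂ) ^ 2 + q) ^ 2) * (v - C) ^ 2)
        + ((3 * (V ^ 2 / h) : ℝ) : ℂ) * (3 * s / ((M : ℂ) ^ 2 + q)) := by
      unfold aa
      rw [← hC]
      push_cast
      ring
    rw [h1, Complex.add_re, Complex.re_ofReal_mul, Complex.re_ofReal_mul]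
  have hz := hquad (v - C)
  have hvim : (v - C).im = v.im - C.im := Complex.sub_im _ _
  rw [hbb, haa]
  set I := (th L q * (v - C)).im with hI
  set E := ((3 * (L : ℂ) ^ 2 * s / ((L : ℂ) ^ 2 + q) ^ 2) * (v - C) ^ 2).re with hE
  set G := (3 * s / ((M : ℂ) ^ 2 + q)).re with hG
  rw [hvim] at hz
  have e1 : h * (2 * I ^ 2) ≤ h * (E + 2 * (v.im - C.im) * I) := mul_le_mul_of_nonneg_left hz hh.le
  have e2 : K * h * (h * I ^ 2) ≤ 1 * (h * I ^ 2) :=
    mul_le_mul_of_nonneg_right hKh (by positivity)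
  have e3 : 0 ≤ (V ^ 2 / h) * G := by positivity
  have e4 : 0 ≤ h * (I + C.im) ^ 2 := by positivity
  nlinarith [e1, e2, e3, e4, hCsq]



end Pool.Agent.Helper321.DW
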