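import Pool.Agent.Helper321.DW.Defs
set_option autoImplicit false
open Metric Set Filter Topology Complex

namespace Pool.Agent.Helper321.DW

theorem bs_re (P : X) (hP : P ∈ Om) : 0 < (qq P).re := by
  have h0 := hP 0
  have h1 := hP 1
  unfold qq
  simp only [pow_two, Complex.add_re, Complex.mul_re, Complex.re_ofNat, Complex.im_ofNat] at h0 h1 ⊢
  nlinarith [sq_nonneg (P 0 1).re, sq_nonneg (P 1 1).re, sq_nonneg (P 0 1).im,
    sq_nonneg (P 1 1).im]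

theorem bs_den (L : ℝ) (q : ℂ) (hq : 0 ≤ q.re) : L ^ 2 ≤ ‖(L : ℂ) ^ 2 + q‖ := by
  have h : ((L : ℂ) ^ 2 + q).re = L ^ 2 + q.re := by
    rw [Complex.add_re, ← Complex.ofReal_pow, Complex.ofReal_re]
  calc L ^ 2 ≤ L ^ 2 + q.re := by linarith
    _ = ((L : ℂ) ^ 2 + q).re := h.symm
    _ ≤ _ := Complex.re_le_norm _

theorem bs_den_ne (L : ℝ) (hL : 0 < L) (q : ℂ) (hq : 0 ≤ q.re) : (L : ℂ) ^ 2 + q ≠ 0 := by
  have h := bs_den L q hq
  have h2 : 0 < L ^ 2 := by positivity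
  rw [← norm_ne_zero_iff]
  linarith

theorem bs_th (L : ℝ) (hL : 0 < L) (q : ℂ) (hq : 0 ≤ q.re) : ‖th L q‖ ≤ 1 := by
  unfold th
  have h := bs_den L q hq
  have h2 : 0 < L ^ 2 := by positivity
  rw [norm_div, norm_pow, Complex.norm_real, Real.norm_of_nonneg hL.le]
  exact div_le_one_of_le₀ h (norm_nonneg _)

theorem bs_th_sub (M : ℝ) (hM : 0 < M) (q : ℂ) (hq : 0 ≤ q.re) : ‖th M q - 1‖ ≤ ‖q‖ / M ^ 2 := by
  have h := bs_den M q hq
  have h2 : 0 < M ^ 2 := by positivity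
  have hne := bs_den_ne M hM q hq
  have e : th M q - 1 = - (q / ((M : ℂ) ^ 2 + q)) := by
    unfold th
    field_simp
    ring
  rw [e, norm_neg, norm_div]
  exact div_le_div_of_nonneg_left (norm_nonneg _) h2 h

theorem bs_ident (M L : ℝ) (hM : 0 < M) (hL : 0 < L) (q : ℂ) (hq : 0 ≤ q.re) :
    th L q * (((M / L : ℝ) : ℂ) ^ 2 + (1 - ((M / L : ℝ) : ℂ) ^ 2) * th M q) = th M q := by
  have h1 := bs_den_ne M hM q hq
  have h2 := bs_den_ne L hL q hq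
  have h3 : (L : ℂ) ≠ 0 := Complex.ofReal_ne_zero.2 hL.ne'
  unfold th
  push_cast
  field_simp
  ring

theorem bs_Cc (h V W M L : ℝ) (hh : 0 < h) (hV : 0 ≤ V) (hW : 0 ≤ W) (hM : 0 < M) (hML : M ≤ L)
    (q : ℂ) (hq : 0 ≤ q.re) : ‖Cc h V W M L q‖ ≤ (V + W) / h := by
  have hL : 0 < L := lt_of_lt_of_le hM hML
  unfold Cc
  rw [norm_div, Complex.norm_real, Real.norm_of_nonneg hh.le]
  refine div_le_div_of_nonneg_right ?_ hh.le
  have e0 : 0 ≤ (M / L) ^ 2 := by positivity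
  have e1 : (M / L) ^ 2 ≤ 1 := by
    have : M / L ≤ 1 := (div_le_one hL).2 hML
    have h0 : 0 ≤ M / L := by positivity
    nlinarith
  have hc : ‖((M / L : ℝ) : ℂ) ^ 2 + (1 - ((M / L : ℝ) : ℂ) ^ 2) * th M q‖ ≤ 1 := by
    have e2 : (1 - ((M / L : ℝ) : ℂ) ^ 2) = ((1 - (M / L) ^ 2 : ℝ) : ℂ) := by push_cast; ring
    calc ‖((M / L : ℝ) : ℂ) ^ 2 + (1 - ((M / L : ℝ) : ℂ) ^ 2) * th M q‖
        ≤ ‖((M / L : ℝ) : ℂ) ^ 2‖ + ‖(1 - ((M / L : ℝ) : ℂ) ^ 2) * th M q‖ := norm_add_le _ _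
      _ = (M / L) ^ 2 + (1 - (M / L) ^ 2) * ‖th M q‖ := by
          rw [e2, norm_mul, ← Complex.ofReal_pow, Complex.norm_real, Complex.norm_real,
            Real.norm_of_nonneg e0, Real.norm_of_nonneg (by linarith)]
      _ ≤ (M / L) ^ 2 + (1 - (M / L) ^ 2) * 1 := by
          gcongr
          exact bs_th M hM q hq
      _ = 1 := by ring
  calc ‖(V : ℂ) * (((M / L : ℝ) : ℂ) ^ 2 + (1 - ((M / L : ℝ) : ℂ) ^ 2) * th M q) - (W : ℂ)‖
      ≤ ‖(V : ℂ) * (((M / L : ℝ) : ℂ) ^ 2 + (1 - ((M / L : ℝ) : ℂ) ^ 2) * th M q)‖ + ‖(W : ℂ)‖ :=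
        norm_sub_le _ _
    _ = V * ‖((M / L : ℝ) : ℂ) ^ 2 + (1 - ((M / L : ℝ) : ℂ) ^ 2) * th M q‖ + W := by
        rw [norm_mul, Complex.norm_real, Complex.norm_real, Real.norm_of_nonneg hV,
          Real.norm_of_nonneg hW]
    _ ≤ V * 1 + W := by gcongr
    _ = V + W := by ring

theorem bs_bb (h V W M L ρ : ℝ) (hh : 0 < h) (hV : 0 ≤ V) (hW : 0 ≤ W) (hM : 0 < M) (hL : 0 < L)
    (q v : ℂ) (hq : 0 ≤ q.re) (hv : ‖v‖ ≤ ρ) :
    ‖bb h V W M L q v - (V : ℂ) + (W : ℂ)‖ ≤ h * ρ + V * (‖q‖ / M ^ 2) + 2 * W := by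
  have hid := bs_ident M L hM hL q hq
  have hne : (h : ℂ) ≠ 0 := Complex.ofReal_ne_zero.2 hh.ne'
  have e : bb h V W M L q v - (V : ℂ) + (W : ℂ) =
      -((h : ℂ) * th L q * v) + ((V : ℂ) * (th M q - 1) + (W : ℂ) * (1 - th L q)) := by
    have e1 : (h : ℂ) * Cc h V W M L q =
        (V : ℂ) * (((M / L : ℝ) : ℂ) ^ 2 + (1 - ((M / L : ℝ) : ℂ) ^ 2) * th M q) - (W : ℂ) := by
      unfold Cc
      rw [mul_div_cancel₀ _ hne]
    unfold bb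
    linear_combination (th L q) * e1 + (V : ℂ) * hid
  rw [e]
  have t1 := bs_th L hL q hq
  have t2 := bs_th_sub M hM q hq
  have n1 : ‖-((h : ℂ) * th L q * v)‖ ≤ h * ρ := by
    rw [norm_neg, norm_mul, norm_mul, Complex.norm_real, Real.norm_of_nonneg hh.le]
    calc h * ‖th L q‖ * ‖v‖ ≤ h * 1 * ρ := by gcongr
      _ = h * ρ := by ring
  have n2 : ‖(V : ℂ) * (th M q - 1)‖ ≤ V * (‖q‖ / M ^ 2) := by
    rw [norm_mul, Complex.norm_real, Real.norm_of_nonneg hV]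
    gcongr
  have n3 : ‖(W : ℂ) * (1 - th L q)‖ ≤ 2 * W := by
    rw [norm_mul, Complex.norm_real, Real.norm_of_nonneg hW]
    have : ‖1 - th L q‖ ≤ 2 := by
      have := norm_sub_le (1 : ℂ) (th L q)
      rw [norm_one] at this
      linarith
    nlinarith
  calc _ ≤ ‖-((h : ℂ) * th L q * v)‖ + ‖(V : ℂ) * (th M q - 1) + (W : ℂ) * (1 - th L q)‖ :=
        norm_add_le _ _
    _ ≤ ‖-((h : ℂ) * th L q * v)‖ + (‖(V : ℂ) * (th M q - 1)‖ + ‖(W : ℂ) * (1 - th L q)‖) := by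
        gcongr
        exact norm_add_le _ _
    _ ≤ _ := by linarith

theorem bs_aa (h V W M L ρ : ℝ) (hh : 0 < h) (hV : 0 ≤ V) (hW : 0 ≤ W) (hM : 0 < M) (hML : M ≤ L)
    (q s v : ℂ) (hq : 0 ≤ q.re) (hv : ‖v‖ ≤ ρ) (hs : ‖s‖ ≤ 2 * ρ) :
    ‖aa h V W M L q s v‖ ≤ h * (6 * ρ / L ^ 2) * (ρ + (V + W) / h) ^ 2 +
      9 * (V ^ 2 / h) * (2 * ρ) / M ^ 2 := by
  have hL : 0 < L := lt_of_lt_of_le hM hML
  have hρ : 0 ≤ ρ := (norm_nonneg v).trans hv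
  have d1 := bs_den L q hq
  have d2 := bs_den M q hq
  have hL2 : 0 < L ^ 2 := by positivity
  have hM2 : 0 < M ^ 2 := by positivity
  have c1 := bs_Cc h V W M L hh hV hW hM hML q hq
  have c2 : ‖v - Cc h V W M L q‖ ≤ ρ + (V + W) / h :=
    (norm_sub_le _ _).trans (add_le_add hv c1)
  have c3 : 0 ≤ ρ + (V + W) / h := (norm_nonneg _).trans c2
  unfold aa
  refine (norm_add_le _ _).trans (add_le_add ?_ ?_)
  · rw [norm_mul, norm_mul, Complex.norm_real, Real.norm_of_nonneg hh.le, norm_pow, norm_div,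
      norm_mul, norm_mul, norm_pow, norm_pow, Complex.norm_real, Real.norm_of_nonneg hL.le]
    have h3 : ‖(3 : ℂ)‖ = 3 := by simp
    rw [h3]
    have k1 : 3 * L ^ 2 * ‖s‖ / ‖(L : ℂ) ^ 2 + q‖ ^ 2 ≤ 6 * ρ / L ^ 2 := by
      have d3 : (L ^ 2) ^ 2 ≤ ‖(L : ℂ) ^ 2 + q‖ ^ 2 := pow_le_pow_left₀ hL2.le d1 2
      calc 3 * L ^ 2 * ‖s‖ / ‖(L : ℂ) ^ 2 + q‖ ^ 2
          ≤ 3 * L ^ 2 * (2 * ρ) / (L ^ 2) ^ 2 := by gcongr
        _ = 6 * ρ / L ^ 2 := by field_simp; ring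
    gcongr
  · rw [norm_div, norm_mul, norm_mul, Complex.norm_real, Real.norm_of_nonneg (by positivity)]
    have h9 : ‖(9 : ℂ)‖ = 9 := by simp
    rw [h9]
    gcongr

theorem block_small (V ρ δ : ℝ) (hV : 0 ≤ V) (hδ : 0 < δ) (i : Fin 2) :
    NE (fun h M L W => ∀ P ∈ Om, ‖P‖ ≤ ρ →
      ‖bb h V W M L (qq P) (P i 1) - (V : ℂ) + (W : ℂ)‖ ≤ δ ∧
      ‖aa h V W M L (qq P) (ss P) (P i 1)‖ ≤ δ) := by
  rcases lt_or_ge ρ 0 with hρ | hρ
  · refine ⟨1, one_pos, fun h _ _ => ⟨0, fun M _ => ⟨0, fun L _ => ⟨1, one_pos, fun W _ _ P _ hP => ?_⟩⟩⟩⟩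
    exact absurd ((norm_nonneg P).trans hP) (not_le.2 hρ)
  · set K : ℝ := 2 * ρ ^ 2 + 6 * ρ with hK
    have hK0 : 0 ≤ K := by positivity
    refine ⟨δ / (4 * (ρ + 1)), by positivity, fun h hh0 hh => ?_⟩
    refine ⟨1 + 4 * V * K / δ + 36 * V ^ 2 * ρ / (h * δ), fun M hM => ?_⟩
    refine ⟨M + 12 * h * ρ * (ρ + (V + 1) / h) ^ 2 / δ, fun L hL => ?_⟩
    refine ⟨min 1 (δ / 8), by positivity, fun W hW0 hW P hP hPρ => ?_⟩
    have q1 : 0 ≤ 4 * V * K / δ := by positivity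
    have q2 : 0 ≤ 36 * V ^ 2 * ρ / (h * δ) := by positivity
    have q3 : 0 ≤ 12 * h * ρ * (ρ + (V + 1) / h) ^ 2 / δ := by positivity
    have hM1 : 1 ≤ M := by linarith
    have hM0 : 0 < M := by linarith
    have hML : M ≤ L := by linarith
    have hL1 : 1 ≤ L := by linarith
    have hL0 : 0 < L := by linarith
    have hW1 : W ≤ 1 := hW.trans (min_le_left _ _)
    have hW8 : W ≤ δ / 8 := hW.trans (min_le_right _ _)
    have hPj : ∀ j k, ‖P j k‖ ≤ ρ := fun j k =>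
      ((norm_le_pi_norm (P j) k).trans (norm_le_pi_norm P j)).trans hPρ
    have hq := (bs_re P hP).le
    have hqn : ‖qq P‖ ≤ K := by
      unfold qq
      calc ‖(P 0 1) ^ 2 + (P 1 1) ^ 2 + 3 * (P 0 0 + P 1 0)‖
          ≤ ‖(P 0 1) ^ 2 + (P 1 1) ^ 2‖ + ‖3 * (P 0 0 + P 1 0)‖ := norm_add_le _ _
        _ ≤ (‖(P 0 1) ^ 2‖ + ‖(P 1 1) ^ 2‖) + ‖(3 : ℂ)‖ * (‖P 0 0‖ + ‖P 1 0‖) := by
            rw [norm_mul]
            gcongr
            · exact norm_add_le _ _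
            · exact norm_add_le _ _
        _ ≤ (ρ ^ 2 + ρ ^ 2) + 3 * (ρ + ρ) := by
            have h3 : ‖(3 : ℂ)‖ = 3 := by simp
            rw [norm_pow, norm_pow, h3]
            gcongr <;> exact hPj _ _
        _ = K := by rw [hK]; ring
    have hsn : ‖ss P‖ ≤ 2 * ρ := by
      unfold ss
      calc ‖P 0 0 + P 1 0‖ ≤ ‖P 0 0‖ + ‖P 1 0‖ := norm_add_le _ _
        _ ≤ ρ + ρ := add_le_add (hPj _ _) (hPj _ _)
        _ = 2 * ρ := by ring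
    have hM2 : M ≤ M ^ 2 := by nlinarith
    have hL2 : L ≤ L ^ 2 := by nlinarith
    have hhρ : h * ρ ≤ δ / 4 := by
      have h1 : h * (4 * (ρ + 1)) ≤ δ := (le_div_iff₀ (by positivity)).1 hh
      nlinarith
    constructor
    · refine (bs_bb h V W M L ρ hh0 hV hW0.le hM0 hL0 _ _ hq (hPj i 1)).trans ?_
      have k1 : V * (‖qq P‖ / M ^ 2) ≤ δ / 4 := by
        have k2 : 4 * V * K / δ ≤ M ^ 2 := by linarith
        rw [div_le_iff₀ hδ] at k2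
        rw [← mul_div_assoc, div_le_iff₀ (by positivity)]
        have k3 : V * ‖qq P‖ ≤ V * K := mul_le_mul_of_nonneg_left hqn hV
        linarith
      linarith
    · refine (bs_aa h V W M L ρ hh0 hV hW0.le hM0 hML _ _ _ hq (hPj i 1) hsn).trans ?_
      have k1 : h * (6 * ρ / L ^ 2) * (ρ + (V + W) / h) ^ 2 ≤ δ / 2 := by
        have k2 : 12 * h * ρ * (ρ + (V + 1) / h) ^ 2 / δ ≤ L ^ 2 := by linarith
        rw [div_le_iff₀ hδ] at k2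
        have k3 : (ρ + (V + W) / h) ^ 2 ≤ (ρ + (V + 1) / h) ^ 2 := by gcongr
        have k4 : h * (6 * ρ / L ^ 2) * (ρ + (V + W) / h) ^ 2 =
            6 * h * ρ * (ρ + (V + W) / h) ^ 2 / L ^ 2 := by ring
        rw [k4, div_le_iff₀ (by positivity)]
        have k5 : 6 * h * ρ * (ρ + (V + W) / h) ^ 2 ≤ 6 * h * ρ * (ρ + (V + 1) / h) ^ 2 :=
          mul_le_mul_of_nonneg_left k3 (by positivity)
        linarith
      have k6 : 9 * (V ^ 2 / h) * (2 * ρ) / M ^ 2 ≤ δ / 2 := by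
        have k2 : 36 * V ^ 2 * ρ / (h * δ) ≤ M ^ 2 := by linarith
        rw [div_le_iff₀ (by positivity)] at k2
        have k4 : 9 * (V ^ 2 / h) * (2 * ρ) / M ^ 2 = 18 * V ^ 2 * ρ / (h * M ^ 2) := by
          field_simp; ring
        rw [k4, div_le_iff₀ (by positivity)]
        linarith
      linarith


end Pool.Agent.Helper321.DW
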