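import Pool.Agent.Helper321.DW.BBDef
set_option autoImplicit false
open Metric Set Filter Topology

namespace Pool.Agent.Helper321.DW

theorem cayley_nsq (z : ℂ) : ‖z‖ ^ 2 = z.re ^ 2 + z.im ^ 2 := by
  rw [← Complex.normSq_eq_norm_sq, Complex.normSq_apply]
  ring

theorem cayley_re {z : Fin 2 → ℂ} (hz : z ∈ TT) : ‖z 1‖ ^ 2 < (2 * z 0 + z 1 ^ 2).re := by
  have h : (z 1).im ^ 2 < (z 0).re := hz
  rw [cayley_nsq]
  simp only [Complex.add_re, Complex.mul_re, Complex.re_ofNat, Complex.im_ofNat, sq]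
  nlinarith

theorem cayley_ne {z : Fin 2 → ℂ} (hz : z ∈ TT) : 2 * z 0 + z 1 ^ 2 + 1 ≠ 0 := by
  intro h
  have h1 := cayley_re hz
  have h2 := congrArg Complex.re h
  rw [Complex.add_re, Complex.one_re, Complex.zero_re] at h2
  have h3 : 0 ≤ ‖z 1‖ ^ 2 := by positivity
  linarith

theorem cayley_ne2 {z : Fin 2 → ℂ} (hz : z ∈ BB) : 1 - z 0 ≠ 0 := by
  intro h
  have h1 : ‖z 0‖ ^ 2 + ‖z 1‖ ^ 2 < 1 := hz
  have h2 : z 0 = 1 := by linear_combination -h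
  rw [h2, norm_one] at h1
  have h3 : 0 ≤ ‖z 1‖ ^ 2 := by positivity
  linarith

theorem cayley_div {f g : (Fin 2 → ℂ) → ℂ} {S : Set (Fin 2 → ℂ)} (hf : DifferentiableOn ℂ f S)
    (hg : DifferentiableOn ℂ g S) (h : ∀ z ∈ S, g z ≠ 0) :
    DifferentiableOn ℂ (fun z => f z / g z) S := by
  simp only [div_eq_mul_inv]
  exact hf.mul (hg.inv h)

theorem cayley : ∃ Φ Ψ : (Fin 2 → ℂ) → (Fin 2 → ℂ), DifferentiableOn ℂ Φ TT ∧
    DifferentiableOn ℂ Ψ BB ∧ MapsTo Φ TT BB ∧ MapsTo Ψ BB TT ∧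
    (∀ z ∈ TT, Ψ (Φ z) = z) ∧ (∀ z ∈ BB, Φ (Ψ z) = z) := by
  refine ⟨fun z => ![(2 * z 0 + z 1 ^ 2 - 1) / (2 * z 0 + z 1 ^ 2 + 1),
      2 * z 1 / (2 * z 0 + z 1 ^ 2 + 1)],
    fun z => ![((1 + z 0) / (1 - z 0) - (z 1 / (1 - z 0)) ^ 2) / 2, z 1 / (1 - z 0)],
    ?_, ?_, ?_, ?_, ?_, ?_⟩
  · rw [differentiableOn_pi]
    intro i
    fin_cases i
    · show DifferentiableOn ℂ (fun z : Fin 2 → ℂ =>
        (2 * z 0 + z 1 ^ 2 - 1) / (2 * z 0 + z 1 ^ 2 + 1)) TT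
      refine cayley_div (by fun_prop) (by fun_prop) fun z hz => cayley_ne hz
    · show DifferentiableOn ℂ (fun z : Fin 2 → ℂ => 2 * z 1 / (2 * z 0 + z 1 ^ 2 + 1)) TT
      refine cayley_div (by fun_prop) (by fun_prop) fun z hz => cayley_ne hz
  · have d1 : DifferentiableOn ℂ (fun z : Fin 2 → ℂ => z 1 / (1 - z 0)) BB :=
      cayley_div (by fun_prop) (by fun_prop) fun z hz => cayley_ne2 hz
    have d2 : DifferentiableOn ℂ (fun z : Fin 2 → ℂ => (1 + z 0) / (1 - z 0)) BB :=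
      cayley_div (by fun_prop) (by fun_prop) fun z hz => cayley_ne2 hz
    rw [differentiableOn_pi]
    intro i
    fin_cases i
    · show DifferentiableOn ℂ (fun z : Fin 2 → ℂ =>
        ((1 + z 0) / (1 - z 0) - (z 1 / (1 - z 0)) ^ 2) / 2) BB
      exact cayley_div (d2.sub (d1.pow 2)) (by fun_prop) (fun z hz => two_ne_zero)
    · exact d1
  · intro z hz
    have h1 := cayley_re hz
    have h2 := cayley_ne hz
    show ‖(2 * z 0 + z 1 ^ 2 - 1) / (2 * z 0 + z 1 ^ 2 + 1)‖ ^ 2 +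
      ‖2 * z 1 / (2 * z 0 + z 1 ^ 2 + 1)‖ ^ 2 < 1
    generalize 2 * z 0 + z 1 ^ 2 = w at h1 h2 ⊢
    have h3 : 0 < ‖w + 1‖ ^ 2 := by
      have : 0 < ‖w + 1‖ := norm_pos_iff.2 h2
      positivity
    rw [norm_div, norm_div, div_pow, div_pow, ← add_div, div_lt_one h3, norm_mul,
      Complex.norm_ofNat, mul_pow, cayley_nsq (w - 1), cayley_nsq (w + 1)]
    simp only [Complex.add_re, Complex.sub_re, Complex.add_im, Complex.sub_im, Complex.one_re,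
      Complex.one_im]
    nlinarith
  · intro z hz
    have h1 : ‖z 0‖ ^ 2 + ‖z 1‖ ^ 2 < 1 := hz
    have h2 := cayley_ne2 hz
    show (z 1 / (1 - z 0)).im ^ 2 < (((1 + z 0) / (1 - z 0) - (z 1 / (1 - z 0)) ^ 2) / 2).re
    have h3 : 0 < ‖1 - z 0‖ ^ 2 := by
      have : 0 < ‖1 - z 0‖ := norm_pos_iff.2 h2
      positivity
    have h4 : ‖z 1 / (1 - z 0)‖ ^ 2 < ((1 + z 0) / (1 - z 0)).re := by
      rw [norm_div, div_pow, Complex.div_re, Complex.normSq_eq_norm_sq, ← add_div,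
        div_lt_div_iff_of_pos_right h3]
      simp only [Complex.add_re, Complex.sub_re, Complex.add_im, Complex.sub_im, Complex.one_re,
        Complex.one_im]
      rw [cayley_nsq (z 0)] at h1
      nlinarith
    generalize z 1 / (1 - z 0) = v at h4 ⊢
    generalize (1 + z 0) / (1 - z 0) = w at h4 ⊢
    rw [cayley_nsq] at h4
    have h5 : ((w - v ^ 2) / 2).re = (w.re - (v.re ^ 2 - v.im ^ 2)) / 2 := by
      rw [show (2 : ℂ) = ((2 : ℝ) : ℂ) by norm_num, Complex.div_ofReal_re, Complex.sub_re]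
      congr 2
      rw [show v ^ (2 : ℕ) = v * v by ring, Complex.mul_re]
      ring
    rw [h5]
    linarith
  · intro z hz
    have h2 := cayley_ne hz
    have h3 : 1 - (2 * z 0 + z 1 ^ 2 - 1) / (2 * z 0 + z 1 ^ 2 + 1) =
        2 / (2 * z 0 + z 1 ^ 2 + 1) := by
      field_simp
      ring
    have h4 : 1 + (2 * z 0 + z 1 ^ 2 - 1) / (2 * z 0 + z 1 ^ 2 + 1) =
        2 * (2 * z 0 + z 1 ^ 2) / (2 * z 0 + z 1 ^ 2 + 1) := by
      field_simp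
      ring
    have h5 : 2 * z 1 / (2 * z 0 + z 1 ^ 2 + 1) / (2 / (2 * z 0 + z 1 ^ 2 + 1)) = z 1 := by
      field_simp
    have h6 : 2 * (2 * z 0 + z 1 ^ 2) / (2 * z 0 + z 1 ^ 2 + 1) / (2 / (2 * z 0 + z 1 ^ 2 + 1)) =
        2 * z 0 + z 1 ^ 2 := by
      field_simp
    funext i
    fin_cases i
    · show ((1 + (2 * z 0 + z 1 ^ 2 - 1) / (2 * z 0 + z 1 ^ 2 + 1)) /
        (1 - (2 * z 0 + z 1 ^ 2 - 1) / (2 * z 0 + z 1 ^ 2 + 1)) -
        (2 * z 1 / (2 * z 0 + z 1 ^ 2 + 1) /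
          (1 - (2 * z 0 + z 1 ^ 2 - 1) / (2 * z 0 + z 1 ^ 2 + 1))) ^ 2) / 2 = z 0
      rw [h3, h4, h5, h6]
      ring
    · show 2 * z 1 / (2 * z 0 + z 1 ^ 2 + 1) /
          (1 - (2 * z 0 + z 1 ^ 2 - 1) / (2 * z 0 + z 1 ^ 2 + 1)) = z 1
      rw [h3, h5]
  · intro z hz
    have h2 := cayley_ne2 hz
    have h3 : 2 * (((1 + z 0) / (1 - z 0) - (z 1 / (1 - z 0)) ^ 2) / 2) + (z 1 / (1 - z 0)) ^ 2 =
        (1 + z 0) / (1 - z 0) := by ring
    have h4 : (1 + z 0) / (1 - z 0) + 1 = 2 / (1 - z 0) := by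
      field_simp
      ring
    have h5 : (1 + z 0) / (1 - z 0) - 1 = 2 * z 0 / (1 - z 0) := by
      field_simp
      ring
    funext i
    fin_cases i
    · show (2 * (((1 + z 0) / (1 - z 0) - (z 1 / (1 - z 0)) ^ 2) / 2) + (z 1 / (1 - z 0)) ^ 2 - 1) /
        (2 * (((1 + z 0) / (1 - z 0) - (z 1 / (1 - z 0)) ^ 2) / 2) + (z 1 / (1 - z 0)) ^ 2 + 1) =
        z 0
      rw [h3, h4, h5]
      field_simp
    · show 2 * (z 1 / (1 - z 0)) /
        (2 * (((1 + z 0) / (1 - z 0) - (z 1 / (1 - z 0)) ^ 2) / 2) + (z 1 / (1 - z 0)) ^ 2 + 1) =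
        z 1
      rw [h3, h4]
      field_simp


end Pool.Agent.Helper321.DW
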