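import Pool.Agent.Helper321.DW.RealForm
set_option autoImplicit false
open Metric Set Filter Topology Complex

namespace Pool.Agent.Helper321.DW

theorem Cls_step_frac {N Q R2 : ℝ} (hN : 0 < N) (hQ : 0 < Q) (h0 : 0 ≤ R2) (hR : R2 ≤ Q) :
    N ^ 2 / (N ^ 2 + Q) ≤ (1 + N ^ 2) / (1 + R2) := by
  have h1 : 0 < N ^ 2 := by positivity
  rw [div_le_div_iff₀ (by positivity) (by positivity)]
  nlinarith [mul_nonneg h1.le (sub_nonneg.2 hR), mul_pos h1 h1]

theorem Cls_step_a {h V W M L Q R2 x C s : ℝ} (hh : 0 < h) (hM : 0 < M) (hL : 0 < L)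
    (hV : 0 ≤ V) (hW : 0 ≤ W) (hQ : 0 < Q) (h0 : 0 ≤ R2) (hR : R2 ≤ Q) (hx : x ^ 2 ≤ Q)
    (hs0 : 0 ≤ s) (hs : s ≤ 4) (hC : |C| ≤ (V + W) / h) :
    h * (3 * L ^ 2 * s / (L ^ 2 + Q) ^ 2) * (x - C) ^ 2 + 9 * (V ^ 2 / h) * s / (M ^ 2 + Q) ≤
      (24 * h * (1 + ((V + W) / h) ^ 2 / L ^ 2) * (1 + L ^ 2)
        + 36 * (V ^ 2 / h / M ^ 2) * (1 + M ^ 2)) / (1 + R2) := by
  set K := (V + W) / h with hK
  have hC2 : C ^ 2 ≤ K ^ 2 := by
    rw [← sq_abs C]
    exact pow_le_pow_left₀ (abs_nonneg _) hC 2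
  have hxC : (x - C) ^ 2 ≤ 2 * (Q + K ^ 2) := by nlinarith [sq_nonneg (x + C)]
  have hLQ : 0 < L ^ 2 + Q := by positivity
  have hMQ : 0 < M ^ 2 + Q := by positivity
  have h1 : h * (3 * L ^ 2 * s / (L ^ 2 + Q) ^ 2) * (x - C) ^ 2 ≤
      24 * h * (1 + K ^ 2 / L ^ 2) * (1 + L ^ 2) / (1 + R2) := by
    have e1 : h * (3 * L ^ 2 * s / (L ^ 2 + Q) ^ 2) * (x - C) ^ 2 ≤
        h * (3 * L ^ 2 * 4 / (L ^ 2 + Q) ^ 2) * (2 * (Q + K ^ 2)) := by
      have : 0 ≤ (x - C) ^ 2 := sq_nonneg _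
      gcongr
    have e2 : h * (3 * L ^ 2 * 4 / (L ^ 2 + Q) ^ 2) * (2 * (Q + K ^ 2)) =
        24 * h * ((Q + K ^ 2) / (L ^ 2 + Q)) * (L ^ 2 / (L ^ 2 + Q)) := by
      field_simp
      ring
    have e3 : (Q + K ^ 2) / (L ^ 2 + Q) ≤ 1 + K ^ 2 / L ^ 2 := by
      have e4 : Q / (L ^ 2 + Q) ≤ 1 := by
        rw [div_le_one hLQ]; nlinarith [sq_nonneg L]
      have e5 : K ^ 2 / (L ^ 2 + Q) ≤ K ^ 2 / L ^ 2 := by
        apply div_le_div_of_nonneg_left (sq_nonneg _) (by positivity)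
        linarith
      rw [add_div]
      linarith
    have e6 := Cls_step_frac hL hQ h0 hR
    have e7 : 0 ≤ (Q + K ^ 2) / (L ^ 2 + Q) := by positivity
    have e8 : 0 ≤ L ^ 2 / (L ^ 2 + Q) := by positivity
    calc _ ≤ _ := e1
      _ = _ := e2
      _ ≤ 24 * h * (1 + K ^ 2 / L ^ 2) * ((1 + L ^ 2) / (1 + R2)) := by
        gcongr
      _ = _ := by ring
  have h2 : 9 * (V ^ 2 / h) * s / (M ^ 2 + Q) ≤ 36 * (V ^ 2 / h / M ^ 2) * (1 + M ^ 2) / (1 + R2) := by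
    have e1 : 9 * (V ^ 2 / h) * s / (M ^ 2 + Q) ≤ 9 * (V ^ 2 / h) * 4 / (M ^ 2 + Q) := by
      gcongr
    have e2 : 9 * (V ^ 2 / h) * 4 / (M ^ 2 + Q) =
        36 * (V ^ 2 / h / M ^ 2) * (M ^ 2 / (M ^ 2 + Q)) := by
      field_simp
      ring
    have e6 := Cls_step_frac hM hQ h0 hR
    calc _ ≤ _ := e1
      _ = _ := e2
      _ ≤ 36 * (V ^ 2 / h / M ^ 2) * ((1 + M ^ 2) / (1 + R2)) := by
        gcongr
      _ = _ := by ring
  rw [add_div]
  linarith

theorem Cls_step {G : Sys} {A κ : ℝ} (hc : Cls G A κ) (hA : 0 ≤ A) (hκ : 0 ≤ κ) {i : Fin 2}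
    (hV : 0 ≤ G.V i) {h M L W : ℝ} (hh : 0 < h) (hM : 0 < M) (hML : M ≤ L) (hW : 0 < W) :
    ∃ A' : ℝ, 0 ≤ A' ∧ Cls (G.step i h M L W) A' (κ + h) := by
  have hL : 0 < L := hM.trans_le hML
  set T1 := G.V i * (1 + M ^ 2) with hT1
  set T2 := W * (1 + L ^ 2) with hT2
  set T3 := h * (1 + L ^ 2) with hT3
  set T4 := 24 * h * (1 + ((G.V i + W) / h) ^ 2 / L ^ 2) * (1 + L ^ 2)
        + 36 * (G.V i ^ 2 / h / M ^ 2) * (1 + M ^ 2) with hT4
  have p1 : 0 ≤ T1 := by positivity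
  have p2 : 0 ≤ T2 := by positivity
  have p3 : 0 ≤ T3 := by positivity
  have p4 : 0 ≤ T4 := by positivity
  have hpos : ∀ r : Fin 2 → Fin 2 → ℝ, (∀ j, 1 ≤ r j 0) → ∀ j, 0 < r j 0 :=
    fun r hr j => lt_of_lt_of_le one_pos (hr j)
  have hR0 : ∀ r : Fin 2 → Fin 2 → ℝ, 0 ≤ (r 0 1) ^ 2 + (r 1 1) ^ 2 := fun r => by positivity
  have hRQ : ∀ r : Fin 2 → Fin 2 → ℝ, (∀ j, 1 ≤ r j 0) → (r 0 1) ^ 2 + (r 1 1) ^ 2 ≤ Qr r := by
    intro r hr
    have h0 := hr 0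
    have h1 := hr 1
    unfold Qr
    linarith
  have hxQ : ∀ r : Fin 2 → Fin 2 → ℝ, (∀ j, 1 ≤ r j 0) → ∀ j, (r j 1) ^ 2 ≤ Qr r := by
    intro r hr j
    have h0 := hRQ r hr
    fin_cases j
    · simp only [Fin.zero_eta, Fin.isValue]
      nlinarith [sq_nonneg (r 1 1)]
    · simp only [Fin.mk_one, Fin.isValue]
      nlinarith [sq_nonneg (r 0 1)]
  have hmono : ∀ r : Fin 2 → Fin 2 → ℝ, ∀ B, B ≤ A + T1 + T2 + T3 + T4 →
      B / (1 + (r 0 1) ^ 2 + (r 1 1) ^ 2) ≤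
        (A + T1 + T2 + T3 + T4) / (1 + (r 0 1) ^ 2 + (r 1 1) ^ 2) := by
    intro r B hB
    apply div_le_div_of_nonneg_right hB
    positivity
  refine ⟨A + T1 + T2 + T3 + T4, by positivity, ⟨?_, ?_, ?_, ?_, ?_⟩⟩
  · intro r hr j
    simp only [Sys.step]
    by_cases hj : j = i
    · subst hj
      rw [if_pos rfl, bb_real (hpos r hr) hh hM hML]
      simp only [Complex.add_im, Complex.sub_im, Complex.ofReal_im, hc.imb r hr]
      simp
    · rw [if_neg hj, add_zero]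
      exact hc.imb r hr j
  · intro r hr j
    simp only [Sys.step]
    by_cases hj : j = i
    · subst hj
      obtain ⟨C, _, hCe⟩ := aa_real (hpos r hr) hh hM hML hV hW.le j
      rw [if_pos rfl, hCe]
      simp only [Complex.add_im, Complex.ofReal_im, hc.ima r hr]
      simp
    · rw [if_neg hj, add_zero]
      exact hc.ima r hr j
  · intro r hr j
    simp only [Sys.step]
    by_cases hj : j = i
    · subst hj
      obtain ⟨C, _, hCe⟩ := aa_real (hpos r hr) hh hM hML hV hW.le j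
      rw [if_pos rfl, hCe]
      simp only [Complex.add_re, Complex.ofReal_re]
      have h1 := hc.a_nonneg r hr j
      have h2 := Qr_pos (hpos r hr)
      have h3 : 0 < r 0 0 := hpos r hr 0
      have h4 : 0 < r 1 0 := hpos r hr 1
      positivity
    · rw [if_neg hj, add_zero]
      exact hc.a_nonneg r hr j
  · intro r hr hs j
    simp only [Sys.step]
    by_cases hj : j = i
    · subst hj
      obtain ⟨C, hC, hCe⟩ := aa_real (hpos r hr) hh hM hML hV hW.le j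
      rw [if_pos rfl, hCe]
      simp only [Complex.add_re, Complex.ofReal_re]
      have h1 := hc.a_le r hr hs j
      have h2 := Qr_pos (hpos r hr)
      have h3 : 0 < r 0 0 := hpos r hr 0
      have h4 : 0 < r 1 0 := hpos r hr 1
      have h5 := Cls_step_a hh hM hL hV hW.le h2 (hR0 r) (hRQ r hr) (hxQ r hr j)
        (by positivity) hs hC
      rw [← add_assoc 1] at h5
      have h6 := hmono r (A + T4) (by linarith)
      rw [add_div] at h6
      linarith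
    · rw [if_neg hj, add_zero]
      exact (hc.a_le r hr hs j).trans (hmono r A (by linarith))
  · intro r hr hs j
    obtain ⟨β, k, hb, hβ, hk0, hkκ, hkA⟩ := hc.b_eq r hr hs j
    simp only [Sys.step]
    by_cases hj : j = i
    · subst hj
      have h2 := Qr_pos (hpos r hr)
      rw [if_pos rfl, bb_real (hpos r hr) hh hM hML]
      simp only [Complex.add_re, Complex.sub_re, Complex.ofReal_re, Function.update_self]
      have hm := Cls_step_frac hM h2 (hR0 r) (hRQ r hr)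
      have hl := Cls_step_frac hL h2 (hR0 r) (hRQ r hr)
      rw [← add_assoc 1] at hm hl
      have hm0 : 0 ≤ M ^ 2 / (M ^ 2 + Qr r) := by positivity
      have hl0 : 0 ≤ L ^ 2 / (L ^ 2 + Qr r) := by positivity
      have hl1 : L ^ 2 / (L ^ 2 + Qr r) ≤ 1 := by
        rw [div_le_one (by positivity)]; linarith
      refine ⟨β + G.V j * (M ^ 2 / (M ^ 2 + Qr r)) - W * (L ^ 2 / (L ^ 2 + Qr r)),
        k + h * (L ^ 2 / (L ^ 2 + Qr r)), ?_, ?_, ?_, ?_, ?_⟩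
      · rw [hb]; ring
      · have h6 := hmono r (A + T1 + T2) (by linarith)
        rw [add_div, add_div] at h6
        have h7 : G.V j * (M ^ 2 / (M ^ 2 + Qr r)) ≤ T1 / (1 + r 0 1 ^ 2 + r 1 1 ^ 2) := by
          rw [hT1, mul_div_assoc]
          exact mul_le_mul_of_nonneg_left hm hV
        have h8 : W * (L ^ 2 / (L ^ 2 + Qr r)) ≤ T2 / (1 + r 0 1 ^ 2 + r 1 1 ^ 2) := by
          rw [hT2, mul_div_assoc]
          exact mul_le_mul_of_nonneg_left hl hW.le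
        have h9 : 0 ≤ G.V j * (M ^ 2 / (M ^ 2 + Qr r)) := mul_nonneg hV hm0
        have h10 : 0 ≤ W * (L ^ 2 / (L ^ 2 + Qr r)) := mul_nonneg hW.le hl0
        rw [abs_le] at hβ ⊢
        constructor <;> linarith
      · positivity
      · have : h * (L ^ 2 / (L ^ 2 + Qr r)) ≤ h * 1 := mul_le_mul_of_nonneg_left hl1 hh.le
        linarith
      · have h6 := hmono r (A + T3) (by linarith)
        rw [add_div] at h6
        have h7 : h * (L ^ 2 / (L ^ 2 + Qr r)) ≤ T3 / (1 + r 0 1 ^ 2 + r 1 1 ^ 2) := by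
          rw [hT3, mul_div_assoc]
          exact mul_le_mul_of_nonneg_left hl hh.le
        linarith
    · refine ⟨β, k, ?_, ?_, hk0, ?_, ?_⟩
      · rw [if_neg hj, add_zero, Function.update_of_ne hj]
        exact hb
      · exact hβ.trans (hmono r A (by linarith))
      · linarith
      · exact hkA.trans (hmono r A (by linarith))


end Pool.Agent.Helper321.DW
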