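import Pool.Agent.Helper321.DW.Defs
set_option autoImplicit false
open Metric Set Filter Topology Complex

namespace Pool.Agent.Helper321.DW

/-- core quadratic inequality -/
theorem core_quad {P : X} (hP : P ∈ Om) {L : ℝ} (hL : 0 < L) (z : ℂ) :
    2 * (th L (qq P) * z).im ^ 2 ≤
      ((3 * (L : ℂ) ^ 2 * ss P / ((L : ℂ) ^ 2 + qq P) ^ 2) * z ^ 2).re
        + 2 * z.im * (th L (qq P) * z).im := by
  have h0 := hP 0
  have h1 := hP 1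
  obtain ⟨x0, hx0⟩ : ∃ x0, x0 = (P 0 1).re := ⟨_, rfl⟩
  obtain ⟨y0, hy0⟩ : ∃ y0, y0 = (P 0 1).im := ⟨_, rfl⟩
  obtain ⟨x1, hx1⟩ : ∃ x1, x1 = (P 1 1).re := ⟨_, rfl⟩
  obtain ⟨y1, hy1⟩ : ∃ y1, y1 = (P 1 1).im := ⟨_, rfl⟩
  obtain ⟨sr, hsr⟩ : ∃ sr, sr = (ss P).re := ⟨_, rfl⟩
  obtain ⟨si, hsi⟩ : ∃ si, si = (ss P).im := ⟨_, rfl⟩
  obtain ⟨S, hS⟩ : ∃ S, S = (L : ℂ) ^ 2 + qq P := ⟨_, rfl⟩
  have hL2 : ((L : ℂ) ^ 2) = ((L ^ 2 : ℝ) : ℂ) := by push_cast; ring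
  have hy : y0 ^ 2 + y1 ^ 2 < sr := by
    rw [hsr, hy0, hy1]
    simp only [ss, Complex.add_re]
    linarith
  have hqq : qq P = (P 0 1) * (P 0 1) + (P 1 1) * (P 1 1) + ((3 : ℝ) : ℂ) * ss P := by
    simp only [qq, ss]
    push_cast
    ring
  have hSre : S.re = L ^ 2 + (x0 ^ 2 - y0 ^ 2) + (x1 ^ 2 - y1 ^ 2) + 3 * sr := by
    rw [hS, hL2, hqq]
    simp only [Complex.add_re, Complex.mul_re, Complex.ofReal_re, Complex.ofReal_im, ← hx0, ← hy0,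
      ← hx1, ← hy1, ← hsr]
    ring
  have hSim : S.im = 2 * x0 * y0 + 2 * x1 * y1 + 3 * si := by
    rw [hS, hL2, hqq]
    simp only [Complex.add_im, Complex.mul_im, Complex.ofReal_re, Complex.ofReal_im, ← hx0, ← hy0,
      ← hx1, ← hy1, ← hsi]
    ring
  have hSpos : 0 < S.re := by
    rw [hSre]
    nlinarith [sq_nonneg x0, sq_nonneg x1, sq_nonneg y0, sq_nonneg y1, sq_pos_of_pos hL]
  have hS0 : S ≠ 0 := by
    intro h
    rw [h] at hSpos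
    simp at hSpos
  obtain ⟨om, hom⟩ : ∃ om, z = S * om := ⟨z / S, by field_simp⟩
  obtain ⟨p, hp⟩ : ∃ p, p = om.re := ⟨_, rfl⟩
  obtain ⟨r, hr⟩ : ∃ r, r = om.im := ⟨_, rfl⟩
  have e1 : th L (qq P) * z = ((L ^ 2 : ℝ) : ℂ) * om := by
    unfold th
    rw [← hS, hom, hL2]
    field_simp
  have e2 : (3 * (L : ℂ) ^ 2 * ss P / ((L : ℂ) ^ 2 + qq P) ^ 2) * z ^ 2 =
      ((3 * L ^ 2 : ℝ) : ℂ) * (ss P * (om * om)) := by
    rw [← hS, hom]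
    push_cast
    field_simp
  have e3 : z.im = S.re * r + S.im * p := by
    rw [hom, Complex.mul_im, hp, hr]
  have e4 : (((L ^ 2 : ℝ) : ℂ) * om).im = L ^ 2 * r := by
    rw [Complex.mul_im, Complex.ofReal_re, Complex.ofReal_im, hr]
    ring
  have e5 : (((3 * L ^ 2 : ℝ) : ℂ) * (ss P * (om * om))).re =
      3 * L ^ 2 * (sr * (p ^ 2 - r ^ 2) - si * (2 * p * r)) := by
    simp only [Complex.mul_re, Complex.mul_im, Complex.ofReal_re, Complex.ofReal_im, ← hp, ← hr,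
      ← hsr, ← hsi]
    ring
  rw [e1, e2, e3, e4, e5, hSre, hSim]
  have key : 0 ≤ 3 * sr * (p ^ 2 + r ^ 2) + 2 * (x0 ^ 2 + x1 ^ 2) * r ^ 2
      - 2 * (y0 ^ 2 + y1 ^ 2) * r ^ 2 + 4 * (x0 * y0 + x1 * y1) * p * r := by
    have h2 : 0 ≤ (sr - (y0 ^ 2 + y1 ^ 2)) * (p ^ 2 + r ^ 2) :=
      mul_nonneg (by linarith) (by positivity)
    have h3 : 0 ≤ sr * (p ^ 2 + r ^ 2) :=
      mul_nonneg (by nlinarith [sq_nonneg y0, sq_nonneg y1]) (by positivity)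
    nlinarith [sq_nonneg (y0 * p + x0 * r), sq_nonneg (y1 * p + x1 * r)]
  have key2 := mul_nonneg (sq_nonneg L) key
  nlinarith [key2]


end Pool.Agent.Helper321.DW
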