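import Pool.Agent.Helper321.DW.Defs
set_option autoImplicit false
open Metric Set Filter Topology Complex

namespace Pool.Agent.Helper321.DW

theorem isOpen_Om : IsOpen Om := by
  have : Om = ⋂ j : Fin 2, {P : X | (P j 1).im ^ 2 < (P j 0).re} := by
    ext P
    simp [Om]
  rw [this]
  refine isOpen_iInter_of_finite fun j => isOpen_lt ?_ ?_
  · exact (Complex.continuous_im.comp ((continuous_apply 1).comp (continuous_apply j))).pow 2
  · exact Complex.continuous_re.comp ((continuous_apply 0).comp (continuous_apply j))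

theorem re_qq_pos_aux {P : X} (hP : P ∈ Om) : 0 < (qq P).re := by
  have h0 := hP 0
  have h1 := hP 1
  unfold qq
  simp only [Complex.add_re, pow_two, Complex.mul_re, Complex.re_ofNat, Complex.im_ofNat]
  simp only [zero_mul, sub_zero, Complex.add_re]
  nlinarith [sq_nonneg (P 0 1).re, sq_nonneg (P 1 1).re, sq_nonneg (P 0 1).im,
    sq_nonneg (P 1 1).im]

theorem den_ne_aux {P : X} (hP : P ∈ Om) (L : ℝ) : ((L : ℂ) ^ 2 + qq P) ≠ 0 := by
  intro h
  have h1 := congrArg Complex.re h
  have h2 := re_qq_pos_aux hP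
  rw [Complex.add_re, ← Complex.ofReal_pow, Complex.ofReal_re, Complex.zero_re] at h1
  nlinarith [sq_nonneg L]

theorem coord_aux (j k : Fin 2) : Differentiable ℂ (fun P : X => P j k) :=
  ((ContinuousLinearMap.proj (R := ℂ) (φ := fun _ : Fin 2 => ℂ) k).comp
    (ContinuousLinearMap.proj (R := ℂ) (φ := fun _ : Fin 2 => (Fin 2 → ℂ)) j)).differentiable

theorem qq_aux : Differentiable ℂ qq := by
  unfold qq
  exact (((coord_aux 0 1).pow 2).add ((coord_aux 1 1).pow 2)).add
    (((coord_aux 0 0).add (coord_aux 1 0)).const_mul 3)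

theorem ss_aux : Differentiable ℂ ss := by
  unfold ss
  exact (coord_aux 0 0).add (coord_aux 1 0)

theorem th_aux {P : X} (hP : P ∈ Om) (L : ℝ) : DifferentiableAt ℂ (fun P : X => th L (qq P)) P := by
  unfold th
  have hq := qq_aux P
  have hd := den_ne_aux hP L
  fun_prop (disch := assumption)

theorem Cc_aux {P : X} (hP : P ∈ Om) (h V W M L : ℝ) :
    DifferentiableAt ℂ (fun P : X => Cc h V W M L (qq P)) P := by
  unfold Cc
  have hq := th_aux hP M
  fun_prop

theorem diff_bb {h V W M L : ℝ} (hM : 0 < M) (hL : 0 < L) (i : Fin 2) :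
    DifferentiableOn ℂ (fun P : X => bb h V W M L (qq P) (P i 1)) Om := by
  intro P hP
  apply DifferentiableAt.differentiableWithinAt
  unfold bb
  have h1 := th_aux hP L
  have h2 := coord_aux i 1 P
  have h3 := Cc_aux hP h V W M L
  fun_prop

theorem diff_aa {h V W M L : ℝ} (hM : 0 < M) (hL : 0 < L) (i : Fin 2) :
    DifferentiableOn ℂ (fun P : X => aa h V W M L (qq P) (ss P) (P i 1)) Om := by
  intro P hP
  apply DifferentiableAt.differentiableWithinAt
  unfold aa
  have h1 := ss_aux P
  have h2 := coord_aux i 1 P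
  have h3 := Cc_aux hP h V W M L
  have h4 := qq_aux P
  have h5 := den_ne_aux hP M
  have h6 := pow_ne_zero 2 (den_ne_aux hP L)
  fun_prop (disch := assumption)


end Pool.Agent.Helper321.DW
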