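import Pool.Agent.Helper321.DW.Defs
set_option autoImplicit false
open Metric Set Filter Topology Complex

namespace Pool.Agent.Helper321.DW

theorem Ineq_step {G : Sys} {lam lam' e K h M L W : ℝ} {i : Fin 2} (hI : Ineq G lam e)
    (h0 : 0 < lam') (h1 : lam' < lam) (hK : lam * lam' ≤ K * (lam - lam'))
    (hblk : ∀ P ∈ Om, 2 * (P i 1).im * (bb h (G.V i) W M L (qq P) (P i 1)).im
      + K * (bb h (G.V i) W M L (qq P) (P i 1)).im ^ 2
        ≤ (aa h (G.V i) W M L (qq P) (ss P) (P i 1)).re) :
    Ineq (G.step i h M L W) lam' e := by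
  intro P hP j
  have hkey : ∀ A B : ℝ, lam' * (A + B) ^ 2 ≤ lam * A ^ 2 + K * B ^ 2 := by
    intro A B
    have hd : 0 < lam - lam' := by linarith
    have hm : 0 ≤ ((lam - lam') * A - lam' * B) ^ 2 := sq_nonneg _
    have h2 : 0 ≤ (K * (lam - lam') - lam * lam') * B ^ 2 := mul_nonneg (by linarith) (sq_nonneg _)
    have h3 : 0 ≤ (lam - lam') * (lam * A ^ 2 + K * B ^ 2 - lam' * (A + B) ^ 2) := by
      nlinarith
    have h4 := nonneg_of_mul_nonneg_right h3 hd
    linarith
  by_cases hj : j = i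
  · subst hj
    have e1 : ((G.step j h M L W).b j P).im = (G.b j P).im + (bb h (G.V j) W M L (qq P) (P j 1)).im := by
      simp [Sys.step]
    have e2 : ((G.step j h M L W).a j P).re = (G.a j P).re + (aa h (G.V j) W M L (qq P) (ss P) (P j 1)).re := by
      simp [Sys.step]
    rw [e1, e2]
    have a1 := hI P hP j
    have a2 := hblk P hP
    have a3 := hkey (G.b j P).im (bb h (G.V j) W M L (qq P) (P j 1)).im
    nlinarith
  · have e1 : (G.step i h M L W).b j P = G.b j P := by simp [Sys.step, hj]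
    have e2 : (G.step i h M L W).a j P = G.a j P := by simp [Sys.step, hj]
    rw [e1, e2]
    have a1 := hI P hP j
    have a2 : lam' * (G.b j P).im ^ 2 ≤ lam * (G.b j P).im ^ 2 :=
      mul_le_mul_of_nonneg_right h1.le (sq_nonneg _)
    linarith


end Pool.Agent.Helper321.DW
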