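import Pool.Agent.Helper321.DW.Defs
set_option autoImplicit false
open Metric Set Filter Topology Complex

namespace Pool.Agent.Helper321.DW

theorem qq_re_eq_10804 (P : X) : (qq P).re = (P 0 1).re ^ 2 + (P 1 1).re ^ 2 -
    ((P 0 1).im ^ 2 + (P 1 1).im ^ 2) + 3 * ((P 0 0).re + (P 1 0).re) := by
  unfold qq
  simp only [Complex.add_re, Complex.mul_re, pow_two, Complex.re_ofNat, Complex.im_ofNat,
    Complex.add_im]
  ring

theorem qq_im_eq_10804 (P : X) : (qq P).im = 2 * ((P 0 1).re * (P 0 1).im +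
    (P 1 1).re * (P 1 1).im) + 3 * ((P 0 0).im + (P 1 0).im) := by
  unfold qq
  simp only [Complex.add_im, Complex.mul_im, pow_two, Complex.re_ofNat, Complex.im_ofNat,
    Complex.add_re]
  ring

theorem qq_re_nonneg {P : X} (hP : P ∈ Om) : 0 < (qq P).re := by
  have h0 := hP 0
  have h1 := hP 1
  rw [qq_re_eq_10804]
  nlinarith [sq_nonneg (P 0 1).re, sq_nonneg (P 1 1).re, sq_nonneg (P 0 1).im,
    sq_nonneg (P 1 1).im]

theorem real_core_10804 (x0 x1 y0 y1 s0 s1 si M al be : ℝ) (h0 : y0 ^ 2 < s0) (h1 : y1 ^ 2 < s1)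
    (hM : 0 < M) (hal : al = M ^ 2 + (x0 ^ 2 + x1 ^ 2 - (y0 ^ 2 + y1 ^ 2) + 3 * (s0 + s1)))
    (hbe : be = 2 * (x0 * y0 + x1 * y1) + 3 * si) :
    M ^ 2 ≤ al ∧ be ^ 2 < 6 * ((s0 + s1) * al + si * be) := by
  have hsr : y0 ^ 2 + y1 ^ 2 < s0 + s1 := by linarith
  have hy : 0 ≤ y0 ^ 2 + y1 ^ 2 := by positivity
  have hsr0 : 0 < s0 + s1 := by linarith
  have hx : 0 ≤ x0 ^ 2 + x1 ^ 2 := by positivity
  constructor
  · rw [hal]
    linarith
  · have hcs : (x0 * y0 + x1 * y1) ^ 2 ≤ (x0 ^ 2 + x1 ^ 2) * (y0 ^ 2 + y1 ^ 2) := by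
      nlinarith [sq_nonneg (x0 * y1 - x1 * y0)]
    have h2 : (x0 ^ 2 + x1 ^ 2) * (y0 ^ 2 + y1 ^ 2) ≤ (x0 ^ 2 + x1 ^ 2) * (s0 + s1) :=
      mul_le_mul_of_nonneg_left hsr.le hx
    have h3 : x0 ^ 2 + x1 ^ 2 + 2 * (s0 + s1) < al := by
      rw [hal]
      have : 0 < M ^ 2 := by positivity
      linarith
    have h4 : (s0 + s1) * (x0 ^ 2 + x1 ^ 2 + 2 * (s0 + s1)) < (s0 + s1) * al :=
      mul_lt_mul_of_pos_left h3 hsr0
    have h5 : 6 * ((s0 + s1) * al + si * be) - be ^ 2 =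
        6 * ((s0 + s1) * al) + 9 * si ^ 2 - 4 * (x0 * y0 + x1 * y1) ^ 2 := by
      rw [hbe]
      ring
    have h6 : 0 < (s0 + s1) * (s0 + s1) := mul_pos hsr0 hsr0
    have h7 : 0 ≤ (x0 ^ 2 + x1 ^ 2) * (s0 + s1) := mul_nonneg hx hsr0.le
    nlinarith [sq_nonneg si]

theorem th_im_sq {P : X} (hP : P ∈ Om) {M : ℝ} (hM : 0 < M) :
    (th M (qq P)).im ^ 2 ≤ 2 * (3 * ss P / ((M : ℂ) ^ 2 + qq P)).re ∧
      0 < (3 * ss P / ((M : ℂ) ^ 2 + qq P)).re := by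
  have hMre : ((M : ℂ) ^ 2).re = M ^ 2 := by norm_cast
  have hMim : ((M : ℂ) ^ 2).im = 0 := by norm_cast
  obtain ⟨al, hal⟩ : ∃ al, al = ((M : ℂ) ^ 2 + qq P).re := ⟨_, rfl⟩
  obtain ⟨be, hbe⟩ : ∃ be, be = ((M : ℂ) ^ 2 + qq P).im := ⟨_, rfl⟩
  have hal' : al = M ^ 2 + ((P 0 1).re ^ 2 + (P 1 1).re ^ 2 -
      ((P 0 1).im ^ 2 + (P 1 1).im ^ 2) + 3 * ((P 0 0).re + (P 1 0).re)) := by
    rw [hal, Complex.add_re, hMre, qq_re_eq_10804]
  have hbe' : be = 2 * ((P 0 1).re * (P 0 1).im +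
      (P 1 1).re * (P 1 1).im) + 3 * ((P 0 0).im + (P 1 0).im) := by
    rw [hbe, Complex.add_im, hMim, qq_im_eq_10804, zero_add]
  obtain ⟨hMal, hcore⟩ := real_core_10804 _ _ _ _ _ _ _ M al be (hP 0) (hP 1) hM hal' hbe'
  have hM2 : 0 < M ^ 2 := by positivity
  have hal0 : 0 < al := lt_of_lt_of_le hM2 hMal
  have hN : Complex.normSq ((M : ℂ) ^ 2 + qq P) = al ^ 2 + be ^ 2 := by
    rw [Complex.normSq_apply, ← hal, ← hbe]
    ring
  have hN0 : 0 < al ^ 2 + be ^ 2 := by positivity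
  have hth : (th M (qq P)).im = -(M ^ 2 * be) / (al ^ 2 + be ^ 2) := by
    unfold th
    rw [Complex.div_im, hN, hMre, hMim, ← hal, ← hbe]
    ring
  have hsre : (3 * ss P).re = 3 * ((P 0 0).re + (P 1 0).re) := by
    unfold ss
    simp only [Complex.add_re, Complex.mul_re, Complex.re_ofNat, Complex.im_ofNat,
      Complex.add_im]
    ring
  have hsim : (3 * ss P).im = 3 * ((P 0 0).im + (P 1 0).im) := by
    unfold ss
    simp only [Complex.add_re, Complex.mul_im, Complex.re_ofNat, Complex.im_ofNat,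
      Complex.add_im]
    ring
  have hdre : (3 * ss P / ((M : ℂ) ^ 2 + qq P)).re =
      3 * (((P 0 0).re + (P 1 0).re) * al + ((P 0 0).im + (P 1 0).im) * be) /
        (al ^ 2 + be ^ 2) := by
    rw [Complex.div_re, hN, hsre, hsim, ← hal, ← hbe]
    ring
  rw [hth, hdre]
  set T := ((P 0 0).re + (P 1 0).re) * al + ((P 0 0).im + (P 1 0).im) * be with hT
  have hT0 : 0 < T := by nlinarith [sq_nonneg be]
  constructor
  · rw [div_pow, mul_div_assoc', div_le_div_iff₀ (by positivity) hN0]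
    have h1 : (M ^ 2) ^ 2 ≤ al ^ 2 + be ^ 2 := by nlinarith [sq_nonneg be]
    have h2 : (-(M ^ 2 * be)) ^ 2 ≤ (2 * (3 * T)) * (al ^ 2 + be ^ 2) := by
      have h3 : (-(M ^ 2 * be)) ^ 2 = be ^ 2 * (M ^ 2) ^ 2 := by ring
      rw [h3]
      apply mul_le_mul _ h1 (by positivity) (by positivity)
      linarith
    calc (-(M ^ 2 * be)) ^ 2 * (al ^ 2 + be ^ 2)
        ≤ ((2 * (3 * T)) * (al ^ 2 + be ^ 2)) * (al ^ 2 + be ^ 2) :=
          mul_le_mul_of_nonneg_right h2 hN0.le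
      _ = 2 * (3 * T) * (al ^ 2 + be ^ 2) ^ 2 := by ring
  · positivity


end Pool.Agent.Helper321.DW
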