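import Pool.Agent.Helper321.DW.DynStep
import Pool.Agent.Helper321.DW.CoreQuad
import Pool.Agent.Helper321.DW.ThIm
import Pool.Agent.Helper321.DW.BlockIneq
import Pool.Agent.Helper321.DW.IneqStep
import Pool.Agent.Helper321.DW.DiffBB
set_option autoImplicit false
open Metric Set Filter Topology

namespace Pool.Agent.Helper321.DW

/-- invariants of the inductive construction -/
structure Good (e : ℝ) (r0 : Fin 2 → Fin 2 → ℝ) (lam : ℝ) (G : Sys) : Prop where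
  ineq : Ineq G lam e
  db : ∀ j, DifferentiableOn ℂ (G.b j) Om
  da : ∀ j, DifferentiableOn ℂ (G.a j) Om
  V : ∀ j, 0 < G.V j
  cls : ∃ A κ : ℝ, 0 ≤ A ∧ 0 ≤ κ ∧ κ < 1 / 2 ∧ Cls G A κ
  bd : ∃ S : ℝ, S < 2 ∧ ∀ (t : ℕ) (j : Fin 2), 1 ≤ (G.rmap^[t] r0) j 0 ∧ (G.rmap^[t] r0) j 0 ≤ S
  tend : ∀ j, Tendsto (fun t : ℕ => (G.rmap^[t] r0) j 1) atTop atTop

theorem blk {P : X} (hP : P ∈ Om) {h V W M L K : ℝ} (hh : 0 < h) (hM : 0 < M) (hML : M ≤ L)
    (hK : 0 ≤ K) (hKh : K * h ≤ 1) (i : Fin 2) :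
    2 * (P i 1).im * (bb h V W M L (qq P) (P i 1)).im
      + K * (bb h V W M L (qq P) (P i 1)).im ^ 2 ≤ (aa h V W M L (qq P) (ss P) (P i 1)).re := by
  have hL : 0 < L := lt_of_lt_of_le hM hML
  obtain ⟨h1, h2⟩ := th_im_sq hP hM
  exact block_ineq hP hh hM hML hK hKh i (fun z => core_quad hP hL z) h1 h2

theorem good_step {e : ℝ} {r0 : Fin 2 → Fin 2 → ℝ} {lam lam' : ℝ} {G : Sys}
    (hG : Good e r0 lam G) (hl : 0 < lam') (hl2 : lam' < lam) {i k : Fin 2} (hik : k ≠ i) (T : ℕ)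
    (ρ : ℝ) {η δ : ℝ} (hη : 0 < η) (hδ : 0 < δ) :
    ∃ G' : Sys, Good e r0 lam' G' ∧ (∀ P ∈ Om, ‖P‖ ≤ ρ → ‖G'.map P - G.map P‖ ≤ δ) ∧
      (∀ t ≤ T, ‖G'.rmap^[t] r0 - G.rmap^[t] r0‖ ≤ η) ∧
      ∃ t' ≥ T, |(G'.rmap^[t'] r0) i 1| < 1 := by
  obtain ⟨A, κ, hA, hκ, hκ2, hc⟩ := hG.cls
  obtain ⟨S, hS2, hS⟩ := hG.bd
  set K : ℝ := lam * lam' / (lam - lam') with hK
  have hd : 0 < lam - lam' := by linarith
  have hK0 : 0 < K := by rw [hK]; have : 0 < lam := by linarith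
                         positivity
  have h1 := dyn_step hc hA hκ hκ2 hG.V hG.db hG.da hS hS2 hG.tend hik T hη
  have h2 := block_small (G.V i) ρ δ (hG.V i).le hδ i
  have h3 := NE.basic (c := min (1 / 2 - κ) (1 / K)) (lt_min (by linarith) (by positivity))
  obtain ⟨h, M, L, W, ⟨⟨hh, hhc, hM, hML, hW⟩, hbs⟩, hdyn⟩ := ((h3.and h2).and h1).ex
  have hM0 : 0 < M := by linarith
  have hL0 : 0 < L := by linarith
  have hhκ : κ + h < 1 / 2 := by
    have := lt_of_lt_of_le hhc (min_le_left _ _)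
    linarith
  have hhK : K * h ≤ 1 := by
    have := lt_of_lt_of_le hhc (min_le_right _ _)
    rw [lt_div_iff₀ hK0] at this
    linarith
  obtain ⟨hd1, hd2, hd3, hd4⟩ := hdyn
  refine ⟨G.step i h M L W, ?_, ?_, hd3, hd4⟩
  · constructor
    · apply Ineq_step hG.ineq hl hl2 (K := K)
      · rw [hK, div_mul_cancel₀ _ hd.ne']
      · intro P hP
        exact blk hP hh hM0 hML hK0.le hhK i
    · intro j
      apply DifferentiableOn.add (hG.db j)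
      by_cases hj : j = i
      · simp only [hj, if_true]
        exact ((diff_bb hM0 hL0 i).sub_const _).add_const _
      · simp only [hj, if_false]
        exact differentiableOn_const _
    · intro j
      apply DifferentiableOn.add (hG.da j)
      by_cases hj : j = i
      · simp only [hj, if_true]
        exact diff_aa hM0 hL0 i
      · simp only [hj, if_false]
        exact differentiableOn_const _
    · intro j
      by_cases hj : j = i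
      · rw [hj]
        simp only [Sys.step, Function.update_self]
        exact hW
      · simp only [Sys.step]
        rw [Function.update_of_ne hj]
        exact hG.V j
    · obtain ⟨A', hA', hc'⟩ := Cls_step hc hA hκ (hG.V i).le hh hM0 hML hW
      exact ⟨A', κ + h, hA', by linarith, hhκ, hc'⟩
    · exact ⟨(S + 2) / 2, by linarith, hd1⟩
    · exact hd2
  · intro P hP hρ
    obtain ⟨e1, e2⟩ := hbs P hP hρ
    exact step_close hδ.le e1 e2

/-- factor which returns at stage `n` -/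
def ix (n : ℕ) : Fin 2 := if n % 2 = 0 then 0 else 1

def ix' (n : ℕ) : Fin 2 := if n % 2 = 0 then 1 else 0

theorem ix_ne (n : ℕ) : ix' n ≠ ix n := by
  unfold ix ix'
  split_ifs <;> decide

theorem ix_surj (i : Fin 2) (N : ℕ) : ∃ n ≥ N, ix n = i := by
  fin_cases i
  · refine ⟨2 * N, by omega, ?_⟩
    unfold ix
    rw [if_pos (by omega)]
    rfl
  · refine ⟨2 * N + 1, by omega, ?_⟩
    unfold ix
    rw [if_neg (by omega)]
    rfl

theorem exists_chain {α : Type} (P : ℕ → α → Prop) (R : ℕ → α → α → Prop)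
    (h0 : ∃ a, P 0 a) (hs : ∀ n a, P n a → ∃ a', P (n + 1) a' ∧ R n a a') :
    ∃ f : ℕ → α, (∀ n, P n (f n)) ∧ ∀ n, R n (f n) (f (n + 1)) := by
  classical
  obtain ⟨a0, ha0⟩ := h0
  choose g hg1 hg2 using hs
  let F : ∀ n : ℕ, {a : α // P n a} := fun n =>
    Nat.rec ⟨a0, ha0⟩ (fun n a => ⟨g n a.1 a.2, hg1 n a.1 a.2⟩) n
  refine ⟨fun n => (F n).1, fun n => (F n).2, fun n => ?_⟩
  exact hg2 n (F n).1 (F n).2

theorem exists_systems {e : ℝ} {r0 : Fin 2 → Fin 2 → ℝ} {G0' : Sys} (h0 : Good e r0 2 G0') :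
    ∃ (G : ℕ → Sys) (T : ℕ → ℕ), (∀ n, Good e r0 (1 + (1 / 2 : ℝ) ^ n) (G n)) ∧
      (∀ n : ℕ, ∀ P ∈ Om, ‖P‖ ≤ n + 1 → ‖(G (n + 1)).map P - (G n).map P‖ ≤ (1 / 2 : ℝ) ^ n) ∧
      (∀ n, ∀ t ≤ T n, ‖(G (n + 1)).rmap^[t] r0 - (G n).rmap^[t] r0‖ ≤ (1 / 2 : ℝ) ^ (n + 2)) ∧
      ∀ n, ∃ t' ≥ T n, T (n + 1) = t' + 1 ∧ |((G (n + 1)).rmap^[t'] r0) (ix n) 1| < 1 := by
  obtain ⟨f, hf1, hf2⟩ := exists_chain (α := Sys × ℕ)
    (fun n x => Good e r0 (1 + (1 / 2 : ℝ) ^ n) x.1)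
    (fun n x y => (∀ P ∈ Om, ‖P‖ ≤ n + 1 → ‖y.1.map P - x.1.map P‖ ≤ (1 / 2 : ℝ) ^ n) ∧
      (∀ t ≤ x.2, ‖y.1.rmap^[t] r0 - x.1.rmap^[t] r0‖ ≤ (1 / 2 : ℝ) ^ (n + 2)) ∧
      ∃ t' ≥ x.2, y.2 = t' + 1 ∧ |(y.1.rmap^[t'] r0) (ix n) 1| < 1)
    ⟨(G0', 0), by
      have : (1 : ℝ) + (1 / 2 : ℝ) ^ 0 = 2 := by norm_num
      rw [this]; exact h0⟩
    (by
      rintro n ⟨G, T⟩ hG
      obtain ⟨G', h1, h2, h3, t', h4, h5⟩ := good_step hG (lam' := 1 + (1 / 2 : ℝ) ^ (n + 1))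
        (by positivity) (by
          have : (1 / 2 : ℝ) ^ (n + 1) < (1 / 2 : ℝ) ^ n := by
            rw [pow_succ]
            have : (0 : ℝ) < (1 / 2) ^ n := by positivity
            linarith
          linarith) (ix_ne n) T (n + 1) (η := (1 / 2 : ℝ) ^ (n + 2)) (δ := (1 / 2 : ℝ) ^ n)
        (by positivity) (by positivity)
      exact ⟨(G', t' + 1), h1, h2, h3, t', h4, rfl, h5⟩)
  exact ⟨fun n => (f n).1, fun n => (f n).2, hf1, fun n => (hf2 n).1, fun n => (hf2 n).2.1,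
    fun n => (hf2 n).2.2⟩

end Pool.Agent.Helper321.DW
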