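import Mathlib
set_option autoImplicit false
open Metric Set Filter Topology Complex

namespace Pool.Agent.Helper321.DW

/-- points `P j 0 = s_j`, `P j 1 = v_j` -/
abbrev X := Fin 2 → Fin 2 → ℂ

/-- product of two copies of the tube model `{Re s > (Im v)^2}` of the unit ball -/
def Om : Set X := {P | ∀ j, (P j 1).im ^ 2 < (P j 0).re}

noncomputable def qq (P : X) : ℂ := (P 0 1) ^ 2 + (P 1 1) ^ 2 + 3 * (P 0 0 + P 1 0)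

noncomputable def ss (P : X) : ℂ := P 0 0 + P 1 0

noncomputable def th (L : ℝ) (q : ℂ) : ℂ := (L : ℂ) ^ 2 / ((L : ℂ) ^ 2 + q)

noncomputable def Cc (h V W M L : ℝ) (q : ℂ) : ℂ :=
  ((V : ℂ) * ((M / L : ℝ) ^ 2 + (1 - ((M / L : ℝ) : ℂ) ^ 2) * th M q) - (W : ℂ)) / (h : ℂ)

noncomputable def bb (h V W M L : ℝ) (q v : ℂ) : ℂ := -(h : ℂ) * th L q * (v - Cc h V W M L q)

noncomputable def aa (h V W M L : ℝ) (q s v : ℂ) : ℂ :=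
  (h : ℂ) * (3 * (L : ℂ) ^ 2 * s / ((L : ℂ) ^ 2 + q) ^ 2) * (v - Cc h V W M L q) ^ 2
    + 9 * ((V ^ 2 / h : ℝ) : ℂ) * s / ((M : ℂ) ^ 2 + q)

/-- a system: increments `b` of `v`, increments `a` of `s`, current drifts `V` -/
structure Sys where
  b : Fin 2 → X → ℂ
  a : Fin 2 → X → ℂ
  V : Fin 2 → ℝ

def Sys.map (G : Sys) (P : X) : X := fun j => ![P j 0 + G.a j P, P j 1 + G.b j P]

noncomputable def Sys.step (G : Sys) (i : Fin 2) (h M L W : ℝ) : Sys where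
  b := fun j P => G.b j P +
    (if j = i then bb h (G.V i) W M L (qq P) (P i 1) - (G.V i : ℂ) + (W : ℂ) else 0)
  a := fun j P => G.a j P + (if j = i then aa h (G.V i) W M L (qq P) (ss P) (P i 1) else 0)
  V := Function.update G.V i W

/-- initial system -/
noncomputable def G0 (e : ℝ) : Sys where
  b := fun _ _ => 1
  a := fun _ P => (e : ℂ) * (3 * ss P / (1 + qq P))
  V := fun _ => 1

/-- real points -/
def rc (r : Fin 2 → Fin 2 → ℝ) : X := fun j k => ((r j k : ℝ) : ℂ)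


/-- nested quantifier (sufficiently small or large) for the parameters `h, M, L, W` chosen in this order -/
def NE (Q : ℝ → ℝ → ℝ → ℝ → Prop) : Prop :=
  ∃ h0 > 0, ∀ h : ℝ, 0 < h → h ≤ h0 → ∃ M0 : ℝ, ∀ M : ℝ, M0 ≤ M → ∃ L0 : ℝ, ∀ L : ℝ, L0 ≤ L →
    ∃ W0 > 0, ∀ W : ℝ, 0 < W → W ≤ W0 → Q h M L W

/-- the pointwise inequality which makes the map of the system a self-map of `Om` -/
def Ineq (G : Sys) (lam e : ℝ) : Prop :=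
  ∀ P ∈ Om, ∀ j, 2 * (P j 1).im * (G.b j P).im + lam * (G.b j P).im ^ 2
    + e * (3 * ss P / (1 + qq P)).re ≤ (G.a j P).re

/-- `Q = x_0^2 + x_1^2 + 3 (s_0 + s_1)` at a real point -/
def Qr (r : Fin 2 → Fin 2 → ℝ) : ℝ := (r 0 1) ^ 2 + (r 1 1) ^ 2 + 3 * (r 0 0 + r 1 0)

/-- real dynamics of a system -/
noncomputable def Sys.rmap (G : Sys) (r : Fin 2 → Fin 2 → ℝ) : Fin 2 → Fin 2 → ℝ :=
  fun j => ![r j 0 + (G.a j (rc r)).re, r j 1 + (G.b j (rc r)).re]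

/-- quantitative class of systems on the real points with `s_j ≥ 1` -/
structure Cls (G : Sys) (A κ : ℝ) : Prop where
  imb : ∀ r : Fin 2 → Fin 2 → ℝ, (∀ j, 1 ≤ r j 0) → ∀ j, (G.b j (rc r)).im = 0
  ima : ∀ r : Fin 2 → Fin 2 → ℝ, (∀ j, 1 ≤ r j 0) → ∀ j, (G.a j (rc r)).im = 0
  a_nonneg : ∀ r : Fin 2 → Fin 2 → ℝ, (∀ j, 1 ≤ r j 0) → ∀ j, 0 ≤ (G.a j (rc r)).re
  a_le : ∀ r : Fin 2 → Fin 2 → ℝ, (∀ j, 1 ≤ r j 0) → r 0 0 + r 1 0 ≤ 4 → ∀ j,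
    (G.a j (rc r)).re ≤ A / (1 + (r 0 1) ^ 2 + (r 1 1) ^ 2)
  b_eq : ∀ r : Fin 2 → Fin 2 → ℝ, (∀ j, 1 ≤ r j 0) → r 0 0 + r 1 0 ≤ 4 → ∀ j,
    ∃ β k : ℝ, (G.b j (rc r)).re = G.V j + β - k * r j 1 ∧
      |β| ≤ A / (1 + (r 0 1) ^ 2 + (r 1 1) ^ 2) ∧ 0 ≤ k ∧ k ≤ κ ∧
      k ≤ A / (1 + (r 0 1) ^ 2 + (r 1 1) ^ 2)

/-- one step of the dynamics seen from the returning factor `i` (`xi`, `si`) and the driver (`xk`, `sk`) -/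
def StepRel (A κ Vk V h M L W si sk xi xk si' sk' xi' xk' : ℝ) : Prop :=
  ∃ β k β2 k2 ai ak C : ℝ,
    xk' = xk + Vk + β - k * xk ∧ |β| ≤ A / (1 + xi ^ 2 + xk ^ 2) ∧ 0 ≤ k ∧ k ≤ κ ∧
    k ≤ A / (1 + xi ^ 2 + xk ^ 2) ∧
    xi' = xi + β2 - k2 * xi + V * (M ^ 2 / (M ^ 2 + (xi ^ 2 + xk ^ 2 + 3 * (si + sk))))
      + W * (1 - L ^ 2 / (L ^ 2 + (xi ^ 2 + xk ^ 2 + 3 * (si + sk))))
      - h * (L ^ 2 / (L ^ 2 + (xi ^ 2 + xk ^ 2 + 3 * (si + sk)))) * xi ∧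
    |β2| ≤ A / (1 + xi ^ 2 + xk ^ 2) ∧ 0 ≤ k2 ∧ k2 ≤ κ ∧
    sk' = sk + ak ∧ 0 ≤ ak ∧ ak ≤ A / (1 + xi ^ 2 + xk ^ 2) ∧
    si' = si + ai + h * (3 * L ^ 2 * (si + sk) / (L ^ 2 + (xi ^ 2 + xk ^ 2 + 3 * (si + sk))) ^ 2)
        * (xi - C) ^ 2
      + 9 * (V ^ 2 / h) * (si + sk) / (M ^ 2 + (xi ^ 2 + xk ^ 2 + 3 * (si + sk))) ∧
    0 ≤ ai ∧ ai ≤ A / (1 + xi ^ 2 + xk ^ 2) ∧ |C| ≤ (V + W) / h

end Pool.Agent.Helper321.DW
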