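import Mathlib
set_option autoImplicit false
open Metric Set Filter Topology

namespace Pool.Agent.Helper321.DW

/-- linear drift beats a decaying contraction -/
theorem drift_tendsto {W : ℝ} (hW : 0 < W) {x k β : ℕ → ℝ} (hk0 : ∀ n, 0 ≤ k n) (hk1 : ∀ n, k n ≤ 1/2)
    (hk : Tendsto k atTop (𝓝 0)) (hβ : Tendsto β atTop (𝓝 0))
    (hx : ∀ n, x (n+1) = x n + W + β n - k n * x n) : Tendsto x atTop atTop := by
  rw [Filter.tendsto_atTop]
  intro Y₀
  obtain ⟨Y, hYY, hY⟩ : ∃ Y : ℝ, Y₀ ≤ Y ∧ 0 < Y := ⟨max Y₀ 1, le_max_left _ _, lt_of_lt_of_le one_pos (le_max_right _ _)⟩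
  have e1 : ∀ᶠ n in atTop, |β n| ≤ W / 4 := by
    have h1 : Tendsto (fun n => |β n|) atTop (𝓝 0) := by
      have := hβ.abs
      rwa [abs_zero] at this
    exact h1.eventually_le_const (by positivity)
  have e2 : ∀ᶠ n in atTop, k n * Y ≤ W / 8 := by
    have h1 : Tendsto (fun n => k n * Y) atTop (𝓝 0) := by
      have := hk.mul_const Y
      rwa [zero_mul] at this
    exact h1.eventually_le_const (by positivity)
  obtain ⟨n0, hn0⟩ := eventually_atTop.mp (e1.and e2)
  have hA : ∀ n, n0 ≤ n → x n ≤ Y → x n + W / 2 ≤ x (n + 1) := by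
    intro n hn hxn
    obtain ⟨h1, h2⟩ := hn0 n hn
    have h3 := (abs_le.mp h1).1
    rw [hx n]
    have h4 : k n * x n ≤ k n * Y := mul_le_mul_of_nonneg_left hxn (hk0 n)
    linarith
  have hB : ∃ n1, n0 ≤ n1 ∧ Y ≤ x n1 := by
    by_contra hcon
    push Not at hcon
    have h1 : ∀ j : ℕ, x n0 + j * (W / 2) ≤ x (n0 + j) := by
      intro j
      induction j with
      | zero => simp
      | succ j ih =>
        have h2 := hA (n0 + j) (by omega) (hcon (n0 + j) (by omega)).le
        rw [← add_assoc]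
        push_cast
        linarith
    obtain ⟨j, hj⟩ := exists_nat_gt ((Y - x n0) / (W / 2))
    rw [div_lt_iff₀ (by positivity)] at hj
    have h3 := h1 j
    have h4 := hcon (n0 + j) (by omega)
    linarith
  obtain ⟨n1, hn1, hx1⟩ := hB
  have hC : ∀ n, n1 ≤ n → Y ≤ x n := by
    intro n hn
    induction n, hn using Nat.le_induction with
    | base => exact hx1
    | succ n hn ih =>
      obtain ⟨h1, h2⟩ := hn0 n (hn1.trans hn)
      have h3 := (abs_le.mp h1).1
      rw [hx n]
      by_cases h4 : k n * x n ≤ W / 4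
      · linarith
      · push Not at h4
        have h5 : 0 ≤ x n := hY.le.trans ih
        have h6 : k n * x n ≤ x n / 2 := by
          have := mul_le_mul_of_nonneg_right (hk1 n) h5
          linarith
        have h7 : 2 * Y ≤ x n := by
          by_contra h8
          push Not at h8
          have h9 : k n * x n ≤ k n * (2 * Y) := mul_le_mul_of_nonneg_left h8.le (hk0 n)
          linarith
        linarith
  rw [eventually_atTop]
  exact ⟨n1, fun n hn => hYY.trans (hC n hn)⟩


end Pool.Agent.Helper321.DW
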