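import Pool.Agent.Helper321.DW.Defs
set_option autoImplicit false
open Metric Set Filter Topology

namespace Pool.Agent.Helper321.DW

theorem dyn_div_le {a b c ε : ℝ} (hb : 0 < b) (hc : 0 < c) (hε : 0 < ε)
    (h : 4 * a / (b * ε) ≤ c) : a / (b * c) ≤ ε / 4 := by
  rw [div_le_iff₀ (by positivity)] at h ⊢
  linarith

theorem dyn_core
    (long_time : ∀ {A κ Vk V h M L W v X0 Xi S0 ε : ℝ} (_ : 0 ≤ A) (_ : 0 ≤ κ) (_ : κ + h ≤ 1)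
      (_ : 0 < Vk) (_ : 0 ≤ V) (_ : 0 < h) (_ : 0 < M) (_ : M ≤ L) (_ : 0 < W)
      (_ : v = Vk / 2) (_ : 1 ≤ X0) (_ : 2 * v ≤ X0) (_ : 4 * A ≤ Vk * X0) (_ : 0 ≤ Xi)
      (_ : S0 + ε ≤ 2)
      (_ : A / (v * (X0 - v)) + 72 * (V ^ 2 / h) / (v * M)
        + 108 * h * ((Xi + A / (v * (X0 - v)) + 2 * V * M / v) ^ 2 + ((V + W) / h) ^ 2) / (v * L)
        + 108 * h * W ^ 2 * L / v ^ 3 ≤ ε)
      {si sk xi xk : ℕ → ℝ}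
      (_ : 1 ≤ si 0) (_ : si 0 ≤ S0) (_ : 1 ≤ sk 0) (_ : sk 0 ≤ S0)
      (_ : X0 ≤ xk 0) (_ : |xi 0| ≤ Xi)
      (_ : ∀ m, 1 ≤ si m → 1 ≤ sk m → si m + sk m ≤ 4 →
        StepRel A κ Vk V h M L W (si m) (sk m) (xi m) (xk m)
          (si (m+1)) (sk (m+1)) (xi (m+1)) (xk (m+1))),
      ∀ m : ℕ, 1 ≤ si m ∧ 1 ≤ sk m ∧ si m ≤ S0 + ε ∧ sk m ≤ S0 + ε ∧ X0 + m * v ≤ xk m ∧
        |xi m| ≤ (Xi + A / (v * (X0 - v)) + 2 * V * M / v) + W * m)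
    (returns : ∀ {A κ Vk V h M v X0 Xi Xk : ℝ} (_ : 0 ≤ A) (_ : 0 ≤ κ) (_ : κ + h ≤ 1)
      (_ : 0 < Vk) (_ : 0 ≤ V) (_ : 0 < h) (_ : 0 < M)
      (_ : v = Vk / 2) (_ : 1 ≤ X0) (_ : 0 ≤ Xi) (N : ℕ),
      ∃ m0 : ℕ, N ≤ m0 ∧ ∃ L0 : ℝ, ∀ L : ℝ, L0 ≤ L → ∀ W : ℝ, 0 < W → W ≤ h / 16 →
      ∀ si sk xi xk : ℕ → ℝ,
        (∀ m, 1 ≤ si m ∧ 1 ≤ sk m ∧ si m ≤ 2 ∧ sk m ≤ 2 ∧ X0 + m * v ≤ xk m) →
        xk 0 ≤ Xk → |xi 0| ≤ Xi →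
        (∀ m, StepRel A κ Vk V h M L W (si m) (sk m) (xi m) (xk m)
          (si (m+1)) (sk (m+1)) (xi (m+1)) (xk (m+1))) →
        |xi m0| < 1)
    {A κ Vk V S0 ε Xk Xi X0 : ℝ} (hA : 0 ≤ A) (hκ : 0 ≤ κ) (hκ2 : κ < 1 / 2) (hVk : 0 < Vk)
    (hV : 0 < V) (hε : 0 < ε) (hS0 : S0 + ε ≤ 2) (hX1 : 1 ≤ X0) (hXv : Vk ≤ X0)
    (hXA : 4 * A ≤ Vk * X0) (hXA2 : A / (Vk / 2 * (X0 - Vk / 2)) ≤ ε / 4) (hXi : 0 ≤ Xi) (N : ℕ) :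
    NE (fun h M L W => ∀ si sk xi xk : ℕ → ℝ, 1 ≤ si 0 → si 0 ≤ S0 → 1 ≤ sk 0 → sk 0 ≤ S0 →
      X0 ≤ xk 0 → xk 0 ≤ Xk → |xi 0| ≤ Xi →
      (∀ m, 1 ≤ si m → 1 ≤ sk m → si m + sk m ≤ 4 →
        StepRel A κ Vk V h M L W (si m) (sk m) (xi m) (xk m)
          (si (m+1)) (sk (m+1)) (xi (m+1)) (xk (m+1))) →
      (∀ m, 1 ≤ si m ∧ si m ≤ S0 + ε ∧ 1 ≤ sk m ∧ sk m ≤ S0 + ε) ∧ Tendsto xk atTop atTop ∧
      ∃ m ≥ N, |xi m| < 1) := by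
  have hv : 0 < Vk / 2 := by positivity
  refine ⟨1 / 2 - κ, by linarith, fun h hh hh0 => ?_⟩
  refine ⟨max 1 (4 * (72 * (V ^ 2 / h)) / (Vk / 2 * ε)), fun M hM => ?_⟩
  have hM1 : 1 ≤ M := (le_max_left _ _).trans hM
  have hM0 : 0 < M := by linarith
  have hT2 : 72 * (V ^ 2 / h) / (Vk / 2 * M) ≤ ε / 4 :=
    dyn_div_le hv hM0 hε ((le_max_right _ _).trans hM)
  obtain ⟨m0, hm0, L1, hL1⟩ := returns (Xk := Xk) hA hκ (by linarith : κ + h ≤ 1) hVk hV.le hh hM0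
    (rfl : Vk / 2 = Vk / 2) hX1 hXi N
  set D : ℝ := (Xi + A / (Vk / 2 * (X0 - Vk / 2)) + 2 * V * M / (Vk / 2)) ^ 2 +
    ((V + 1) / h) ^ 2 with hD
  refine ⟨max (max M L1) (4 * (108 * h * D) / (Vk / 2 * ε)), fun L hL => ?_⟩
  have hML : M ≤ L := ((le_max_left _ _).trans (le_max_left _ _)).trans hL
  have hL1L : L1 ≤ L := ((le_max_right _ _).trans (le_max_left _ _)).trans hL
  have hL0 : 0 < L := by linarith
  have hT3 : 108 * h * D / (Vk / 2 * L) ≤ ε / 4 :=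
    dyn_div_le hv hL0 hε ((le_max_right _ _).trans hL)
  refine ⟨min (min 1 (h / 16)) (ε * (Vk / 2) ^ 3 / (432 * h * L)), ?_, fun W hW hWW => ?_⟩
  · exact lt_min (lt_min one_pos (by positivity)) (by positivity)
  have hW1 : W ≤ 1 := hWW.trans ((min_le_left _ _).trans (min_le_left _ _))
  have hWh : W ≤ h / 16 := hWW.trans ((min_le_left _ _).trans (min_le_right _ _))
  have hW3 : W ≤ ε * (Vk / 2) ^ 3 / (432 * h * L) := hWW.trans (min_le_right _ _)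
  have hT4 : 108 * h * W ^ 2 * L / (Vk / 2) ^ 3 ≤ ε / 4 := by
    rw [le_div_iff₀ (by positivity)] at hW3
    rw [div_le_iff₀ (by positivity)]
    have hW2 : W ^ 2 ≤ W := by nlinarith
    have h1 : 108 * h * W ^ 2 * L ≤ 108 * h * W * L := by
      have h2 : 0 ≤ 108 * h * L := by positivity
      nlinarith
    linarith
  have hT3' : 108 * h * ((Xi + A / (Vk / 2 * (X0 - Vk / 2)) + 2 * V * M / (Vk / 2)) ^ 2 +
      ((V + W) / h) ^ 2) / (Vk / 2 * L) ≤ ε / 4 := by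
    refine le_trans ?_ hT3
    apply div_le_div_of_nonneg_right _ (by positivity)
    apply mul_le_mul_of_nonneg_left _ (by positivity)
    rw [hD]
    apply add_le_add le_rfl
    apply pow_le_pow_left₀ (by positivity)
    apply div_le_div_of_nonneg_right _ hh.le
    linarith
  intro si sk xi xk hsi0 hsi1 hsk0 hsk1 hxk0 hxk1 hxi0 hstep
  have key := long_time hA hκ (by linarith : κ + h ≤ 1) hVk hV.le hh hM0 hML hW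
    (rfl : Vk / 2 = Vk / 2) hX1 (by linarith) hXA hXi hS0 (by linarith)
    hsi0 hsi1 hsk0 hsk1 hxk0 hxi0 hstep
  refine ⟨fun m => ⟨(key m).1, (key m).2.2.1, (key m).2.1, (key m).2.2.2.1⟩, ?_, m0, hm0, ?_⟩
  · refine tendsto_atTop_mono (fun m => (key m).2.2.2.2.1) ?_
    exact tendsto_atTop_add_const_left _ _ (tendsto_natCast_atTop_atTop.atTop_mul_const hv)
  · refine hL1 L hL1L W hW hWh si sk xi xk (fun m => ⟨(key m).1, (key m).2.1, ?_, ?_,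
      (key m).2.2.2.2.1⟩) hxk1 hxi0 (fun m => hstep m (key m).1 (key m).2.1 ?_)
    · linarith [(key m).2.2.1]
    · linarith [(key m).2.2.2.1]
    · linarith [(key m).2.2.1, (key m).2.2.2.1]


end Pool.Agent.Helper321.DW
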