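import Pool.Agent.Helper321.DW.Defs
set_option autoImplicit false
open Metric Set Filter Topology Complex

namespace Pool.Agent.Helper321.DW

theorem norm_rc (r : Fin 2 → Fin 2 → ℝ) : ‖rc r‖ = ‖r‖ := by
  simp only [Pi.norm_def, Pi.nnnorm_def, rc, Complex.nnnorm_real]

theorem rc_mem_Om {r : Fin 2 → Fin 2 → ℝ} (hr : ∀ j, 1 ≤ r j 0) : rc r ∈ Om := by
  intro j
  simp only [rc, Complex.ofReal_im, Complex.ofReal_re]
  have := hr j
  norm_num
  linarith

theorem map_diff {G : Sys} (hb : ∀ j, DifferentiableOn ℂ (G.b j) Om)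
    (ha : ∀ j, DifferentiableOn ℂ (G.a j) Om) : DifferentiableOn ℂ G.map Om := by
  refine differentiableOn_pi.mpr fun j => differentiableOn_pi.mpr fun k => ?_
  fin_cases k
  · simp only [Sys.map, Fin.zero_eta, Matrix.cons_val_zero]
    exact DifferentiableOn.add (by fun_prop) (ha j)
  · simp only [Sys.map, Fin.mk_one, Matrix.cons_val_one]
    exact DifferentiableOn.add (by fun_prop) (hb j)

theorem cont_rmap {G : Sys} (hb : ∀ j, DifferentiableOn ℂ (G.b j) Om)
    (ha : ∀ j, DifferentiableOn ℂ (G.a j) Om) : ContinuousOn G.rmap {r | ∀ j, 1 ≤ r j 0} := by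
  have hrc : Continuous rc := by
    unfold rc
    fun_prop
  have hm : MapsTo rc {r | ∀ j, 1 ≤ r j 0} Om := fun r hr => rc_mem_Om hr
  refine continuousOn_pi.mpr fun j => continuousOn_pi.mpr fun k => ?_
  fin_cases k
  · simp only [Sys.rmap, Fin.zero_eta, Matrix.cons_val_zero]
    exact ContinuousOn.add (by fun_prop)
      (Complex.continuous_re.comp_continuousOn ((ha j).continuousOn.comp hrc.continuousOn hm))
  · simp only [Sys.rmap, Fin.mk_one, Matrix.cons_val_one]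
    exact ContinuousOn.add (by fun_prop)
      (Complex.continuous_re.comp_continuousOn ((hb j).continuousOn.comp hrc.continuousOn hm))

theorem map_rc {G : Sys} {A κ : ℝ} (hc : Cls G A κ) {r : Fin 2 → Fin 2 → ℝ}
    (hr : ∀ j, 1 ≤ r j 0) : G.map (rc r) = rc (G.rmap r) := by
  funext j k
  fin_cases k
  · have h1 := hc.ima r hr j
    simp only [Sys.map, Sys.rmap, rc, Fin.zero_eta, Matrix.cons_val_zero] at h1 ⊢
    apply Complex.ext <;> simp [h1]
  · have h1 := hc.imb r hr j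
    simp only [Sys.map, Sys.rmap, rc, Fin.mk_one, Matrix.cons_val_one] at h1 ⊢
    apply Complex.ext <;> simp [h1]

theorem rmap_mapsTo {G : Sys} {A κ : ℝ} (hc : Cls G A κ) :
    MapsTo G.rmap {r | ∀ j, 1 ≤ r j 0} {r | ∀ j, 1 ≤ r j 0} := by
  intro r hr j
  have h1 := hc.a_nonneg r hr j
  have h2 := hr j
  simp only [Sys.rmap, Matrix.cons_val_zero]
  linarith

theorem map_iter_rc {G : Sys} {A κ : ℝ} (hc : Cls G A κ) {r : Fin 2 → Fin 2 → ℝ}
    (hr : ∀ j, 1 ≤ r j 0) (t : ℕ) : G.map^[t] (rc r) = rc (G.rmap^[t] r) := by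
  induction t generalizing r with
  | zero => rfl
  | succ t ih =>
    rw [Function.iterate_succ_apply, Function.iterate_succ_apply, map_rc hc hr,
      ih (rmap_mapsTo hc hr)]

theorem step_close {G : Sys} {i : Fin 2} {h M L W δ : ℝ} (hδ : 0 ≤ δ) {P : X}
    (hb : ‖bb h (G.V i) W M L (qq P) (P i 1) - (G.V i : ℂ) + (W : ℂ)‖ ≤ δ)
    (ha : ‖aa h (G.V i) W M L (qq P) (ss P) (P i 1)‖ ≤ δ) :
    ‖(G.step i h M L W).map P - G.map P‖ ≤ δ := by
  rw [pi_norm_le_iff_of_nonneg hδ]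
  intro j
  rw [pi_norm_le_iff_of_nonneg hδ]
  intro k
  by_cases hj : j = i
  · subst hj
    fin_cases k
    · simpa [Sys.map, Sys.step] using ha
    · simpa [Sys.map, Sys.step] using hb
  · fin_cases k <;> simpa [Sys.map, Sys.step, hj] using hδ

theorem step_close_real {G : Sys} {i : Fin 2} {h M L W δ : ℝ} (hδ : 0 ≤ δ)
    {r : Fin 2 → Fin 2 → ℝ}
    (hb : ‖bb h (G.V i) W M L (qq (rc r)) (rc r i 1) - (G.V i : ℂ) + (W : ℂ)‖ ≤ δ)
    (ha : ‖aa h (G.V i) W M L (qq (rc r)) (ss (rc r)) (rc r i 1)‖ ≤ δ) :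
    ‖(G.step i h M L W).rmap r - G.rmap r‖ ≤ δ := by
  have hb' := (Complex.abs_re_le_norm _).trans hb
  have ha' := (Complex.abs_re_le_norm _).trans ha
  rw [pi_norm_le_iff_of_nonneg hδ]
  intro j
  rw [pi_norm_le_iff_of_nonneg hδ]
  intro k
  by_cases hj : j = i
  · subst hj
    fin_cases k
    · simpa [Sys.rmap, Sys.step] using ha'
    · simpa [Sys.rmap, Sys.step] using hb'
  · fin_cases k <;> simpa [Sys.rmap, Sys.step, hj] using hδ


end Pool.Agent.Helper321.DW
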