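import Mathlib
set_option autoImplicit false
open Metric Set Filter Topology

namespace Pool.Agent.Helper321.DW

/-- finite time stability -/
theorem finite_stab {E : Type} [NormedAddCommGroup E] {D : Set E} {f : E → E}
    (hf : ContinuousOn f D) (hD : MapsTo f D D) {r0 : E} (hr0 : r0 ∈ D) (T : ℕ) {η : ℝ} (hη : 0 < η) :
    ∃ δ > 0, ∃ ρ : ℝ, ∀ f' : E → E, MapsTo f' D D → (∀ r ∈ D, ‖r‖ ≤ ρ → ‖f' r - f r‖ ≤ δ) →
      ∀ t ≤ T, ‖f'^[t] r0 - f^[t] r0‖ ≤ η := by
  induction T generalizing η with
  | zero =>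
    refine ⟨1, one_pos, 0, fun f' _ _ t ht => ?_⟩
    have : t = 0 := by omega
    subst this
    simpa using hη.le
  | succ T ih =>
    have hp : f^[T] r0 ∈ D := hD.iterate T hr0
    have hc := hf (f^[T] r0) hp
    rw [Metric.continuousWithinAt_iff] at hc
    obtain ⟨η2, hη2, hc⟩ := hc (η / 2) (by positivity)
    have hη1 : 0 < min (η2 / 2) η := lt_min (by positivity) hη
    obtain ⟨δ1, hδ1, ρ1, h1⟩ := ih hη1
    refine ⟨min δ1 (η / 2), lt_min hδ1 (by positivity), max ρ1 (‖f^[T] r0‖ + min (η2 / 2) η), ?_⟩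
    intro f' hf' hcl t ht
    have hA : ∀ t ≤ T, ‖f'^[t] r0 - f^[t] r0‖ ≤ min (η2 / 2) η :=
      h1 f' hf' (fun r hr hrn => (hcl r hr (hrn.trans (le_max_left _ _))).trans (min_le_left _ _))
    rcases Nat.lt_or_ge t (T + 1) with h | h
    · exact (hA t (by omega)).trans (min_le_right _ _)
    · have : t = T + 1 := by omega
      subst this
      have hq : f'^[T] r0 ∈ D := hf'.iterate T hr0
      have hA' := hA T le_rfl
      have hn : ‖f'^[T] r0‖ ≤ ‖f^[T] r0‖ + min (η2 / 2) η := by
        have := norm_add_le (f'^[T] r0 - f^[T] r0) (f^[T] r0)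
        rw [sub_add_cancel] at this
        linarith
      have e1 := (hcl _ hq (hn.trans (le_max_right _ _))).trans (min_le_right _ _)
      have hd : dist (f'^[T] r0) (f^[T] r0) < η2 := by
        rw [dist_eq_norm]
        have := hA'.trans (min_le_left _ _)
        linarith
      have e2 := hc hq hd
      rw [dist_eq_norm] at e2
      rw [Function.iterate_succ_apply', Function.iterate_succ_apply']
      have := norm_add_le (f' (f'^[T] r0) - f (f'^[T] r0)) (f (f'^[T] r0) - f (f^[T] r0))
      rw [sub_add_sub_cancel] at this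
      linarith


end Pool.Agent.Helper321.DW
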