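import Pool.Agent.Helper321.DW.Defs
set_option autoImplicit false
open Metric Set Filter Topology

namespace Pool.Agent.Helper321.DW

theorem lt_tel {v X0 N : ℝ} (hv : 0 < v) (hX : 2 * v ≤ X0) (hN : 0 ≤ N) (m : ℕ) :
    ∑ l ∈ Finset.range m, 1 / (N ^ 2 + (X0 + l * v) ^ 2) ≤
      (2 / v) * (1 / (N + X0 - v) - 1 / (N + X0 + m * v - v)) := by
  induction m with
  | zero => simp
  | succ m ih =>
    rw [Finset.sum_range_succ]
    have hm : (0 : ℝ) ≤ m * v := by positivity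
    set z : ℝ := N + X0 + m * v - v with hz
    have hz0 : 0 < z := by linarith
    have hzz : N + X0 + ((m + 1 : ℕ) : ℝ) * v - v = z + v := by push_cast; rw [hz]; ring
    rw [hzz]
    have key : 1 / (N ^ 2 + (X0 + m * v) ^ 2) ≤ (2 / v) * (1 / z - 1 / (z + v)) := by
      have e : (2 / v) * (1 / z - 1 / (z + v)) = 2 / (z * (z + v)) := by
        field_simp
        ring
      have hpos : 0 < X0 + m * v := by linarith
      have hpos2 : 0 < N ^ 2 + (X0 + m * v) ^ 2 := by positivity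
      rw [e, div_le_div_iff₀ hpos2 (by positivity)]
      have hy : X0 + m * v = z + v - N := by rw [hz]; ring
      rw [hy]
      nlinarith [sq_nonneg (z + v - 2 * N)]
    linarith

theorem lt_tel1 {v X0 : ℝ} (hv : 0 < v) (hX : 2 * v ≤ X0) (m : ℕ) :
    ∑ l ∈ Finset.range m, 1 / (1 + (X0 + l * v) ^ 2) ≤
      (1 / v) * (1 / (X0 - v) - 1 / (X0 + m * v - v)) := by
  induction m with
  | zero => simp
  | succ m ih =>
    rw [Finset.sum_range_succ]
    have hm : (0 : ℝ) ≤ m * v := by positivity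
    set z : ℝ := X0 + m * v - v with hz
    have hz0 : 0 < z := by linarith
    have hzz : X0 + ((m + 1 : ℕ) : ℝ) * v - v = z + v := by push_cast; rw [hz]; ring
    rw [hzz]
    have key : 1 / (1 + (X0 + m * v) ^ 2) ≤ (1 / v) * (1 / z - 1 / (z + v)) := by
      have e : (1 / v) * (1 / z - 1 / (z + v)) = 1 / (z * (z + v)) := by
        field_simp
        ring
      rw [e, div_le_div_iff₀ (by positivity) (by positivity)]
      have hy : X0 + m * v = z + v := by rw [hz]; ring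
      rw [hy]
      nlinarith [mul_pos hz0 hv, sq_nonneg v]
    linarith

theorem lt_sum {v X0 N K : ℝ} (hv : 0 < v) (hX : 2 * v ≤ X0) (hN : 0 < N) (hK : 0 ≤ K) (m : ℕ) :
    ∑ l ∈ Finset.range m, K / (N ^ 2 + (X0 + l * v) ^ 2) ≤ 2 * K / (v * N) := by
  have h1 := lt_tel hv hX hN.le m
  have hm : (0 : ℝ) ≤ m * v := by positivity
  have h2 : 0 ≤ 1 / (N + X0 + m * v - v) := by
    apply one_div_nonneg.mpr; linarith
  have h3 : 1 / (N + X0 - v) ≤ 1 / N := one_div_le_one_div_of_le hN (by linarith)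
  have h4 : ∑ l ∈ Finset.range m, 1 / (N ^ 2 + (X0 + l * v) ^ 2) ≤ (2 / v) * (1 / N) :=
    h1.trans (mul_le_mul_of_nonneg_left (by linarith) (by positivity))
  calc ∑ l ∈ Finset.range m, K / (N ^ 2 + (X0 + l * v) ^ 2)
      = K * ∑ l ∈ Finset.range m, 1 / (N ^ 2 + (X0 + l * v) ^ 2) := by
        rw [Finset.mul_sum]
        exact Finset.sum_congr rfl fun l _ => by rw [mul_one_div]
    _ ≤ K * ((2 / v) * (1 / N)) := mul_le_mul_of_nonneg_left h4 hK
    _ = 2 * K / (v * N) := by field_simp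

theorem lt_sum1 {v X0 K : ℝ} (hv : 0 < v) (hX : 2 * v ≤ X0) (hK : 0 ≤ K) (m : ℕ) :
    ∑ l ∈ Finset.range m, K / (1 + (X0 + l * v) ^ 2) ≤ K / (v * (X0 - v)) := by
  have h1 := lt_tel1 hv hX m
  have hm : (0 : ℝ) ≤ m * v := by positivity
  have h2 : 0 ≤ 1 / (X0 + m * v - v) := by
    apply one_div_nonneg.mpr; linarith
  have h4 : ∑ l ∈ Finset.range m, 1 / (1 + (X0 + l * v) ^ 2) ≤ (1 / v) * (1 / (X0 - v)) :=
    h1.trans (mul_le_mul_of_nonneg_left (by linarith) (by positivity))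
  have hXv : 0 < X0 - v := by linarith
  calc ∑ l ∈ Finset.range m, K / (1 + (X0 + l * v) ^ 2)
      = K * ∑ l ∈ Finset.range m, 1 / (1 + (X0 + l * v) ^ 2) := by
        rw [Finset.mul_sum]
        exact Finset.sum_congr rfl fun l _ => by rw [mul_one_div]
    _ ≤ K * ((1 / v) * (1 / (X0 - v))) := mul_le_mul_of_nonneg_left h4 hK
    _ = K / (v * (X0 - v)) := by field_simp

/-- the one step cost -/
theorem lt_cost {h L v y t x C Xb W B s Q : ℝ} (hh : 0 < h) (hL : 0 < L) (hv : 0 < v) (ht : 0 ≤ t)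
    (hty : t * v ≤ y) (hW : 0 ≤ W) (hXb : 0 ≤ Xb) (hx : |x| ≤ Xb + W * t) (hC : |C| ≤ B)
    (hs0 : 0 ≤ s) (hs : s ≤ 4) (hQ : y ^ 2 ≤ Q) :
    h * (3 * L ^ 2 * s / (L ^ 2 + Q) ^ 2) * (x - C) ^ 2 ≤
      36 * h * (Xb ^ 2 + B ^ 2) / (L ^ 2 + y ^ 2) + 36 * h * W ^ 2 * (L ^ 2 / v ^ 2) / (L ^ 2 + y ^ 2) := by
  have hB : 0 ≤ B := (abs_nonneg C).trans hC
  have hLy : 0 < L ^ 2 + y ^ 2 := by positivity
  have hLQ : 0 < L ^ 2 + Q := by nlinarith [sq_nonneg y, sq_pos_of_pos hL]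
  have h1 : 3 * L ^ 2 * s / (L ^ 2 + Q) ^ 2 ≤ 12 * L ^ 2 / (L ^ 2 + y ^ 2) ^ 2 := by
    rw [div_le_div_iff₀ (by positivity) (by positivity)]
    have h2 : (L ^ 2 + y ^ 2) ^ 2 ≤ (L ^ 2 + Q) ^ 2 := by
      apply pow_le_pow_left₀ hLy.le; linarith
    have h3 : 3 * L ^ 2 * s ≤ 12 * L ^ 2 := by nlinarith [sq_nonneg L]
    exact mul_le_mul h3 h2 (by positivity) (by positivity)
  have h4 : (x - C) ^ 2 ≤ 3 * (Xb ^ 2 + W ^ 2 * t ^ 2 + B ^ 2) := by
    have h5 : |x - C| ≤ Xb + W * t + B := by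
      calc |x - C| ≤ |x| + |C| := abs_sub x C
        _ ≤ _ := by linarith
    have h6 : (x - C) ^ 2 ≤ (Xb + W * t + B) ^ 2 := by
      rw [← sq_abs]; exact pow_le_pow_left₀ (abs_nonneg _) h5 2
    nlinarith [sq_nonneg (Xb - W * t), sq_nonneg (Xb - B), sq_nonneg (W * t - B)]
  have h7 : h * (3 * L ^ 2 * s / (L ^ 2 + Q) ^ 2) * (x - C) ^ 2 ≤
      h * (12 * L ^ 2 / (L ^ 2 + y ^ 2) ^ 2) * (3 * (Xb ^ 2 + W ^ 2 * t ^ 2 + B ^ 2)) := by
    apply mul_le_mul (mul_le_mul_of_nonneg_left h1 hh.le) h4 (sq_nonneg _) (by positivity)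
  refine h7.trans ?_
  have h8 : L ^ 2 / (L ^ 2 + y ^ 2) ^ 2 ≤ 1 / (L ^ 2 + y ^ 2) := by
    rw [div_le_div_iff₀ (by positivity) hLy]
    nlinarith [sq_nonneg y, mul_nonneg hLy.le (sq_nonneg y)]
  have h9 : L ^ 2 * t ^ 2 / (L ^ 2 + y ^ 2) ^ 2 ≤ (L ^ 2 / v ^ 2) / (L ^ 2 + y ^ 2) := by
    have h10 : t ^ 2 ≤ (L ^ 2 + y ^ 2) / v ^ 2 := by
      rw [le_div_iff₀ (by positivity)]
      have h11 : (t * v) ^ 2 ≤ y ^ 2 := pow_le_pow_left₀ (by positivity) hty 2
      nlinarith [sq_nonneg L]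
    calc L ^ 2 * t ^ 2 / (L ^ 2 + y ^ 2) ^ 2
        ≤ L ^ 2 * ((L ^ 2 + y ^ 2) / v ^ 2) / (L ^ 2 + y ^ 2) ^ 2 := by gcongr
      _ = (L ^ 2 / v ^ 2) / (L ^ 2 + y ^ 2) := by field_simp
  calc h * (12 * L ^ 2 / (L ^ 2 + y ^ 2) ^ 2) * (3 * (Xb ^ 2 + W ^ 2 * t ^ 2 + B ^ 2))
      = 36 * h * (Xb ^ 2 + B ^ 2) * (L ^ 2 / (L ^ 2 + y ^ 2) ^ 2) +
        36 * h * W ^ 2 * (L ^ 2 * t ^ 2 / (L ^ 2 + y ^ 2) ^ 2) := by ring
    _ ≤ 36 * h * (Xb ^ 2 + B ^ 2) * (1 / (L ^ 2 + y ^ 2)) +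
        36 * h * W ^ 2 * ((L ^ 2 / v ^ 2) / (L ^ 2 + y ^ 2)) := by gcongr
    _ = _ := by ring

theorem long_time {A κ Vk V h M L W v X0 Xi S0 ε : ℝ} (hA : 0 ≤ A) (hκ : 0 ≤ κ) (hκh : κ + h ≤ 1)
    (hVk : 0 < Vk) (hV : 0 ≤ V) (hh : 0 < h) (hM : 0 < M) (hML : M ≤ L) (hW : 0 < W)
    (hv : v = Vk / 2) (hX1 : 1 ≤ X0) (hXv : 2 * v ≤ X0) (hXA : 4 * A ≤ Vk * X0) (hXi : 0 ≤ Xi)
    (hS0 : S0 + ε ≤ 2)
    (htot : A / (v * (X0 - v)) + 72 * (V ^ 2 / h) / (v * M)
      + 108 * h * ((Xi + A / (v * (X0 - v)) + 2 * V * M / v) ^ 2 + ((V + W) / h) ^ 2) / (v * L)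
      + 108 * h * W ^ 2 * L / v ^ 3 ≤ ε)
    {si sk xi xk : ℕ → ℝ}
    (h1i : 1 ≤ si 0) (h2i : si 0 ≤ S0) (h1k : 1 ≤ sk 0) (h2k : sk 0 ≤ S0)
    (hxk : X0 ≤ xk 0) (hxi : |xi 0| ≤ Xi)
    (hstep : ∀ m, 1 ≤ si m → 1 ≤ sk m → si m + sk m ≤ 4 →
      StepRel A κ Vk V h M L W (si m) (sk m) (xi m) (xk m) (si (m+1)) (sk (m+1)) (xi (m+1)) (xk (m+1))) :
    ∀ m : ℕ, 1 ≤ si m ∧ 1 ≤ sk m ∧ si m ≤ S0 + ε ∧ sk m ≤ S0 + ε ∧ X0 + m * v ≤ xk m ∧
      |xi m| ≤ (Xi + A / (v * (X0 - v)) + 2 * V * M / v) + W * m := by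
  have hv0 : 0 < v := by rw [hv]; linarith
  have hX0 : 0 < X0 := by linarith
  have hL : 0 < L := by linarith
  have hXvpos : 0 < X0 - v := by linarith
  set Xb : ℝ := Xi + A / (v * (X0 - v)) + 2 * V * M / v with hXb
  have hXb0 : 0 ≤ Xb := by positivity
  set y : ℕ → ℝ := fun l => X0 + l * v with hy
  have hyX : ∀ l, X0 ≤ y l := fun l => by
    have : (0 : ℝ) ≤ l * v := by positivity
    simp only [hy]; linarith
  set c : ℕ → ℝ := fun l => A / (1 + y l ^ 2) + 36 * (V ^ 2 / h) / (M ^ 2 + y l ^ 2)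
    + 36 * h * (Xb ^ 2 + ((V + W) / h) ^ 2) / (L ^ 2 + y l ^ 2)
    + 36 * h * W ^ 2 * (L ^ 2 / v ^ 2) / (L ^ 2 + y l ^ 2) with hc
  set e : ℕ → ℝ := fun l => A / (1 + y l ^ 2) + V * M ^ 2 / (M ^ 2 + y l ^ 2) with he
  have hc0 : ∀ l, 0 ≤ c l := fun l => by
    simp only [hc]; positivity
  have hcs : ∀ m, ∑ l ∈ Finset.range m, c l ≤ ε := by
    intro m
    have s1 := lt_sum1 hv0 hXv hA m
    have s2 := lt_sum (K := 36 * (V ^ 2 / h)) hv0 hXv hM (by positivity) m
    have s3 := lt_sum (K := 36 * h * (Xb ^ 2 + ((V + W) / h) ^ 2)) hv0 hXv hL (by positivity) m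
    have s4 := lt_sum (K := 36 * h * W ^ 2 * (L ^ 2 / v ^ 2)) hv0 hXv hL (by positivity) m
    have e2 : 2 * (36 * (V ^ 2 / h)) / (v * M) = 72 * (V ^ 2 / h) / (v * M) := by ring
    have e3 : 2 * (36 * h * (Xb ^ 2 + ((V + W) / h) ^ 2)) / (v * L) ≤
        108 * h * (Xb ^ 2 + ((V + W) / h) ^ 2) / (v * L) := by
      apply div_le_div_of_nonneg_right _ (by positivity)
      nlinarith [mul_nonneg hh.le (add_nonneg (sq_nonneg Xb) (sq_nonneg ((V + W) / h)))]
    have e4 : 2 * (36 * h * W ^ 2 * (L ^ 2 / v ^ 2)) / (v * L) ≤ 108 * h * W ^ 2 * L / v ^ 3 := by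
      have : 2 * (36 * h * W ^ 2 * (L ^ 2 / v ^ 2)) / (v * L) = 72 * h * W ^ 2 * L / v ^ 3 := by
        field_simp
        ring
      rw [this]
      apply div_le_div_of_nonneg_right _ (by positivity)
      have : 0 ≤ h * W ^ 2 * L := by positivity
      nlinarith
    simp only [hc, Finset.sum_add_distrib]
    linarith
  have hes : ∀ m, ∑ l ∈ Finset.range m, e l ≤ A / (v * (X0 - v)) + 2 * V * M / v := by
    intro m
    have s1 := lt_sum1 hv0 hXv hA m
    have s2 := lt_sum (K := V * M ^ 2) hv0 hXv hM (by positivity) m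
    have e2 : 2 * (V * M ^ 2) / (v * M) = 2 * V * M / v := by field_simp
    simp only [he, Finset.sum_add_distrib]
    linarith
  have main : ∀ m : ℕ, 1 ≤ si m ∧ 1 ≤ sk m ∧ si m ≤ S0 + ∑ l ∈ Finset.range m, c l ∧
      sk m ≤ S0 + ∑ l ∈ Finset.range m, c l ∧ y m ≤ xk m ∧
      |xi m| ≤ Xi + (∑ l ∈ Finset.range m, e l) + W * m := by
    intro m
    induction m with
    | zero =>
      simp only [Finset.range_zero, Finset.sum_empty, add_zero, Nat.cast_zero, mul_zero, hy,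
        zero_mul]
      exact ⟨h1i, h1k, h2i, h2k, hxk, hxi⟩
    | succ m ih =>
      obtain ⟨a1, a2, a3, a4, a5, a6⟩ := ih
      have hcm := hcs m
      have hem := hes m
      have hsum4 : si m + sk m ≤ 4 := by linarith
      obtain ⟨β, k, β2, k2, ai, ak, C, r1, r2, r3, r4, r5, r6, r7, r8, r9, r10, r11, r12, r13, r14,
        r15, r16⟩ := hstep m a1 a2 hsum4
      have hym := hyX m
      have hy1 : 1 ≤ y m := by linarith
      have hxk1 : 1 ≤ xk m := by linarith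
      have hxkX : X0 ≤ xk m := by linarith
      have hyq : y m ^ 2 ≤ xk m ^ 2 := pow_le_pow_left₀ (by linarith) a5 2
      have hd : 0 < 1 + xi m ^ 2 + xk m ^ 2 := by positivity
      have hAd : A / (1 + xi m ^ 2 + xk m ^ 2) ≤ A / (1 + y m ^ 2) := by
        apply div_le_div_of_nonneg_left hA (by positivity)
        linarith [sq_nonneg (xi m)]
      set Q : ℝ := xi m ^ 2 + xk m ^ 2 + 3 * (si m + sk m) with hQ
      have hQy : y m ^ 2 ≤ Q := by
        rw [hQ]; linarith [sq_nonneg (xi m)]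
      have hQ0 : 0 < Q := by rw [hQ]; linarith [sq_nonneg (xi m), sq_nonneg (xk m)]
      have hxk2 : xk m ≤ xk m ^ 2 := le_self_pow₀ hxk1 two_ne_zero
      rw [Finset.sum_range_succ, Finset.sum_range_succ]
      have hA4 : A / X0 ≤ Vk / 4 := by
        rw [div_le_iff₀ hX0]; linarith
      refine ⟨?_, ?_, ?_, ?_, ?_, ?_⟩
      · rw [r13]
        have t1 : 0 ≤ h * (3 * L ^ 2 * (si m + sk m) / (L ^ 2 + Q) ^ 2) * (xi m - C) ^ 2 := by
          have : 0 ≤ si m + sk m := by linarith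
          positivity
        have t2 : 0 ≤ 9 * (V ^ 2 / h) * (si m + sk m) / (M ^ 2 + Q) := by
          have : 0 ≤ si m + sk m := by linarith
          positivity
        linarith
      · rw [r10]; linarith
      · rw [r13]
        have t1 := lt_cost (h := h) (L := L) (v := v) (y := y m) (t := m) (x := xi m) (C := C)
          (Xb := Xb) (W := W) (B := (V + W) / h) (s := si m + sk m) (Q := Q) hh hL hv0
          (Nat.cast_nonneg m) (by simp only [hy]; linarith) hW.le hXb0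
          (by rw [hXb]; linarith) r16 (by linarith) hsum4 hQy
        have t2 : 9 * (V ^ 2 / h) * (si m + sk m) / (M ^ 2 + Q) ≤
            36 * (V ^ 2 / h) / (M ^ 2 + y m ^ 2) := by
          apply div_le_div₀ (by positivity) _ (by positivity) (by linarith)
          have h9 : 0 ≤ 9 * (V ^ 2 / h) := by positivity
          have := mul_le_mul_of_nonneg_left hsum4 h9
          linarith
        simp only [hc]
        linarith
      · rw [r10]
        have t3 : A / (1 + y m ^ 2) ≤ c m := by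
          simp only [hc]
          have : 0 ≤ 36 * (V ^ 2 / h) / (M ^ 2 + y m ^ 2) := by positivity
          have : 0 ≤ 36 * h * (Xb ^ 2 + ((V + W) / h) ^ 2) / (L ^ 2 + y m ^ 2) := by positivity
          have : 0 ≤ 36 * h * W ^ 2 * (L ^ 2 / v ^ 2) / (L ^ 2 + y m ^ 2) := by positivity
          linarith
        linarith
      · rw [r1]
        have t1 : A / (1 + xi m ^ 2 + xk m ^ 2) ≤ A / X0 := by
          apply div_le_div_of_nonneg_left hA hX0
          linarith [sq_nonneg (xi m)]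
        have t2 : k * xk m ≤ A / X0 := by
          calc k * xk m ≤ A / (1 + xi m ^ 2 + xk m ^ 2) * xk m :=
                mul_le_mul_of_nonneg_right r5 (by linarith)
            _ = A * (xk m / (1 + xi m ^ 2 + xk m ^ 2)) := by ring
            _ ≤ A * (1 / X0) := by
                apply mul_le_mul_of_nonneg_left _ hA
                rw [div_le_div_iff₀ hd hX0]
                have := mul_le_mul_of_nonneg_left hxkX (show 0 ≤ xk m by linarith)
                have e5 : xk m * xk m = xk m ^ 2 := by ring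
                linarith [sq_nonneg (xi m)]
            _ = A / X0 := by ring
        have t3 := (abs_le.mp r2).1
        have t4 : y (m + 1) = y m + v := by
          simp only [hy]; push_cast; ring
        rw [t4]
        have : v = Vk / 2 := hv
        linarith
      · rw [r6]
        have hθL0 : 0 ≤ L ^ 2 / (L ^ 2 + Q) := by positivity
        have hθL1 : L ^ 2 / (L ^ 2 + Q) ≤ 1 := by
          rw [div_le_one (by positivity)]; linarith
        have hθM : V * (M ^ 2 / (M ^ 2 + Q)) ≤ V * M ^ 2 / (M ^ 2 + y m ^ 2) := by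
          rw [mul_div_assoc]
          apply mul_le_mul_of_nonneg_left _ hV
          apply div_le_div_of_nonneg_left (by positivity) (by positivity) (by linarith)
        have hθM0 : 0 ≤ V * (M ^ 2 / (M ^ 2 + Q)) := by positivity
        set θ := L ^ 2 / (L ^ 2 + Q) with hθ
        set ψ := V * (M ^ 2 / (M ^ 2 + Q)) with hψ
        have hk0 : 0 ≤ k2 + h * θ := by positivity
        have hk1 : k2 + h * θ ≤ 1 := by
          have : h * θ ≤ h := mul_le_of_le_one_right hh.le hθL1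
          linarith
        have e1 : xi m + β2 - k2 * xi m + ψ + W * (1 - θ) - h * θ * xi m =
            (1 - (k2 + h * θ)) * xi m + β2 + ψ + W * (1 - θ) := by ring
        rw [e1]
        have u1 : |(1 - (k2 + h * θ)) * xi m| ≤ |xi m| := by
          rw [abs_mul, abs_of_nonneg (by linarith : 0 ≤ 1 - (k2 + h * θ))]
          exact mul_le_of_le_one_left (abs_nonneg _) (by linarith)
        have u2 : |W * (1 - θ)| ≤ W := by
          rw [abs_of_nonneg (mul_nonneg hW.le (sub_nonneg.mpr hθL1))]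
          exact mul_le_of_le_one_right hW.le (by linarith)
        have u3 : |ψ| ≤ V * M ^ 2 / (M ^ 2 + y m ^ 2) := by
          rw [abs_of_nonneg hθM0]; exact hθM
        have u4 : |β2| ≤ A / (1 + y m ^ 2) := r7.trans hAd
        calc |(1 - (k2 + h * θ)) * xi m + β2 + ψ + W * (1 - θ)|
            ≤ |(1 - (k2 + h * θ)) * xi m| + |β2| + |ψ| + |W * (1 - θ)| := by
              refine (abs_add_le _ _).trans ?_
              gcongr
              refine (abs_add_le _ _).trans ?_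
              gcongr
              exact abs_add_le _ _
          _ ≤ |xi m| + A / (1 + y m ^ 2) + V * M ^ 2 / (M ^ 2 + y m ^ 2) + W := by linarith
          _ ≤ Xi + (∑ l ∈ Finset.range m, e l + e m) + W * ((m + 1 : ℕ) : ℝ) := by
              simp only [he] at a6 ⊢
              push_cast
              linarith
  intro m
  obtain ⟨a1, a2, a3, a4, a5, a6⟩ := main m
  have hcm := hcs m
  have hem := hes m
  refine ⟨a1, a2, by linarith, by linarith, a5, ?_⟩
  rw [hXb]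
  linarith


end Pool.Agent.Helper321.DW
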