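import Pool.Agent.Helper321.DW.Defs
set_option autoImplicit false
open Metric Set Filter Topology

namespace Pool.Agent.Helper321.DW

theorem NE.mono {Q Q' : ℝ → ℝ → ℝ → ℝ → Prop} (hQ : NE Q)
    (h : ∀ a b c d, Q a b c d → Q' a b c d) : NE Q' := by
  obtain ⟨h0, hp, H⟩ := hQ
  refine ⟨h0, hp, fun h1 hh hh0 => ?_⟩
  obtain ⟨M0, HM⟩ := H h1 hh hh0
  refine ⟨M0, fun M hM => ?_⟩
  obtain ⟨L0, HL⟩ := HM M hM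
  refine ⟨L0, fun L hL => ?_⟩
  obtain ⟨W0, hW0, HW⟩ := HL L hL
  exact ⟨W0, hW0, fun W h1 h2 => h _ _ _ _ (HW W h1 h2)⟩

theorem NE.and {Q Q' : ℝ → ℝ → ℝ → ℝ → Prop} (hQ : NE Q) (hQ' : NE Q') :
    NE (fun h M L W => Q h M L W ∧ Q' h M L W) := by
  obtain ⟨h0, hp, H⟩ := hQ
  obtain ⟨h0', hp', H'⟩ := hQ'
  refine ⟨min h0 h0', lt_min hp hp', fun h hh hh0 => ?_⟩
  obtain ⟨M0, HM⟩ := H h hh (hh0.trans (min_le_left _ _))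
  obtain ⟨M0', HM'⟩ := H' h hh (hh0.trans (min_le_right _ _))
  refine ⟨max M0 M0', fun M hM => ?_⟩
  obtain ⟨L0, HL⟩ := HM M ((le_max_left _ _).trans hM)
  obtain ⟨L0', HL'⟩ := HM' M ((le_max_right _ _).trans hM)
  refine ⟨max L0 L0', fun L hL => ?_⟩
  obtain ⟨W0, hW0, HW⟩ := HL L ((le_max_left _ _).trans hL)
  obtain ⟨W0', hW0', HW'⟩ := HL' L ((le_max_right _ _).trans hL)
  exact ⟨min W0 W0', lt_min hW0 hW0', fun W h1 h2 =>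
    ⟨HW W h1 (h2.trans (min_le_left _ _)), HW' W h1 (h2.trans (min_le_right _ _))⟩⟩

theorem NE.basic {c : ℝ} (hc : 0 < c) :
    NE (fun h M L W => 0 < h ∧ h < c ∧ 1 ≤ M ∧ M ≤ L ∧ 0 < W) :=
  ⟨c / 2, by positivity, fun h hh hh0 => ⟨1, fun M hM => ⟨M, fun L hL => ⟨1, one_pos,
    fun W hW _ => ⟨hh, by linarith, hM, hL, hW⟩⟩⟩⟩⟩

theorem NE.ex {Q : ℝ → ℝ → ℝ → ℝ → Prop} (hQ : NE Q) : ∃ h M L W, Q h M L W := by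
  obtain ⟨h0, hp, H⟩ := hQ
  obtain ⟨M0, HM⟩ := H h0 hp le_rfl
  obtain ⟨L0, HL⟩ := HM M0 le_rfl
  obtain ⟨W0, hW0, HW⟩ := HL L0 le_rfl
  exact ⟨h0, M0, L0, W0, HW W0 hW0 le_rfl⟩

end Pool.Agent.Helper321.DW
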