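import Pool.Agent.Helper321.DW.Defs
set_option autoImplicit false
open Metric Set Filter Topology

namespace Pool.Agent.Helper321.DW

theorem step_facts {A κ Vk V h M L W si sk xi xk si' sk' xi' xk' y : ℝ} (hA : 0 ≤ A)
    (hκh : κ + h ≤ 1) (hV : 0 ≤ V) (hh : 0 < h) (hM : 0 < M) (hL : 0 < L) (hW : 0 < W)
    (hsi : 1 ≤ si) (hsk : 1 ≤ sk) (hy : 0 < y) (hyx : y ≤ xk)
    (H : StepRel A κ Vk V h M L W si sk xi xk si' sk' xi' xk') :
    xk' ≤ xk + (Vk + A) ∧ |xi'| ≤ |xi| + (A + V + W) ∧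
    (xi ^ 2 + xk ^ 2 + 3 * (si + sk) ≤ L ^ 2 →
      |xi'| ≤ (1 - h / 2) * |xi| + (A / (1 + y ^ 2) + V * (M ^ 2 / (M ^ 2 + y ^ 2))) + W) := by
  obtain ⟨β, k, β2, k2, ai, ak, C, h1, h2, h3, h4, h5, h6, h7, h8, h9, -⟩ := H
  have hxk : 0 < xk := by linarith
  have hy2 : y ^ 2 ≤ xk ^ 2 := pow_le_pow_left₀ hy.le hyx 2
  set Q : ℝ := xi ^ 2 + xk ^ 2 + 3 * (si + sk) with hQ
  have hQ0 : 0 < Q := by
    rw [hQ]
    have := sq_nonneg xi
    have := sq_nonneg xk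
    linarith
  have hQy : y ^ 2 ≤ Q := by
    rw [hQ]
    have := sq_nonneg xi
    linarith
  set θ : ℝ := L ^ 2 / (L ^ 2 + Q) with hθ
  have hL2 : 0 < L ^ 2 := pow_pos hL 2
  have hM2 : 0 < M ^ 2 := pow_pos hM 2
  have hθ0 : 0 ≤ θ := by rw [hθ]; positivity
  have hθ1 : θ ≤ 1 := by rw [hθ, div_le_one (by positivity)]; linarith
  set φ : ℝ := M ^ 2 / (M ^ 2 + Q) with hφ
  have hφ0 : 0 ≤ φ := by rw [hφ]; positivity
  have hφ1 : φ ≤ 1 := by rw [hφ, div_le_one (by positivity)]; linarith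
  have hφy : φ ≤ M ^ 2 / (M ^ 2 + y ^ 2) := by
    rw [hφ]
    gcongr
  have hAD : A / (1 + xi ^ 2 + xk ^ 2) ≤ A / (1 + y ^ 2) := by
    have := sq_nonneg xi
    gcongr
    linarith
  have hA1 : A / (1 + xi ^ 2 + xk ^ 2) ≤ A := by
    apply div_le_self hA
    have := sq_nonneg xi
    have := sq_nonneg xk
    linarith
  have hxi' : xi' = (1 - k2 - h * θ) * xi + (β2 + V * φ + W * (1 - θ)) := by rw [h6]; ring
  have hhθ : h * θ ≤ h := by nlinarith
  have hhθ0 : 0 ≤ h * θ := mul_nonneg hh.le hθ0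
  have hc0 : 0 ≤ 1 - k2 - h * θ := by linarith
  have hVφ : 0 ≤ V * φ := mul_nonneg hV hφ0
  have hWθ : 0 ≤ W * (1 - θ) := mul_nonneg hW.le (by linarith)
  have hWθ1 : W * (1 - θ) ≤ W := by nlinarith
  have habs : |xi'| ≤ (1 - k2 - h * θ) * |xi| + (|β2| + V * φ + W * (1 - θ)) := by
    rw [hxi']
    calc |(1 - k2 - h * θ) * xi + (β2 + V * φ + W * (1 - θ))| ≤
        |(1 - k2 - h * θ) * xi| + |β2 + V * φ + W * (1 - θ)| := abs_add_le _ _
      _ ≤ (1 - k2 - h * θ) * |xi| + (|β2| + V * φ + W * (1 - θ)) := by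
          rw [abs_mul, abs_of_nonneg hc0]
          have e1 : |β2 + V * φ + W * (1 - θ)| ≤ |β2 + V * φ| + |W * (1 - θ)| := abs_add_le _ _
          have e2 : |β2 + V * φ| ≤ |β2| + |V * φ| := abs_add_le _ _
          rw [abs_of_nonneg hVφ] at e2
          rw [abs_of_nonneg hWθ] at e1
          linarith
  have hxi0 : 0 ≤ |xi| := abs_nonneg _
  refine ⟨?_, ?_, ?_⟩
  · rw [h1]
    have hb := (abs_le.1 h2).2
    have : 0 ≤ k * xk := mul_nonneg h3 hxk.le
    linarith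
  · have : (1 - k2 - h * θ) * |xi| ≤ 1 * |xi| := mul_le_mul_of_nonneg_right (by linarith) hxi0
    have h10 : V * φ ≤ V := by nlinarith
    linarith
  · intro hQL
    have hθ2 : 1 / 2 ≤ θ := by
      rw [hθ, le_div_iff₀ (by positivity)]
      linarith
    have : (1 - k2 - h * θ) * |xi| ≤ (1 - h / 2) * |xi| := mul_le_mul_of_nonneg_right (by nlinarith) hxi0
    have h10 : V * φ ≤ V * (M ^ 2 / (M ^ 2 + y ^ 2)) := mul_le_mul_of_nonneg_left hφy hV
    linarith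

/-- the comparison sequence -/
noncomputable def zz (h Xi : ℝ) (f : ℕ → ℝ) : ℕ → ℝ
  | 0 => Xi
  | m + 1 => (1 - h / 2) * zz h Xi f m + f m

theorem zz_small {h Xi : ℝ} {f : ℕ → ℝ} (hh : 0 < h) (hh1 : h ≤ 1)
    (hlim : Tendsto f atTop (𝓝 0)) (N : ℕ) : ∃ m0, N ≤ m0 ∧ zz h Xi f m0 < 1 / 2 := by
  have hev : ∀ᶠ m in atTop, f m < h / 8 := hlim.eventually_lt_const (by positivity)
  obtain ⟨N1, hN1⟩ := eventually_atTop.1 hev
  have hr0 : 0 ≤ 1 - h / 2 := by linarith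
  have hr1 : 1 - h / 2 < 1 := by linarith
  have hind : ∀ j, zz h Xi f (N1 + j) - 1 / 4 ≤ (1 - h / 2) ^ j * (zz h Xi f N1 - 1 / 4) := by
    intro j
    induction j with
    | zero => simp
    | succ j ih =>
      have e : zz h Xi f (N1 + (j + 1)) = (1 - h / 2) * zz h Xi f (N1 + j) + f (N1 + j) := rfl
      rw [e, pow_succ]
      have h1 := hN1 (N1 + j) (by omega)
      have h2 := mul_le_mul_of_nonneg_left ih hr0
      nlinarith
  have hpow : Tendsto (fun j : ℕ => (1 - h / 2) ^ j * (zz h Xi f N1 - 1 / 4)) atTop (𝓝 0) := by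
    have := (tendsto_pow_atTop_nhds_zero_of_lt_one hr0 hr1).mul_const (zz h Xi f N1 - 1 / 4)
    rwa [zero_mul] at this
  have hev2 : ∀ᶠ j in atTop, (1 - h / 2) ^ j * (zz h Xi f N1 - 1 / 4) < 1 / 4 :=
    hpow.eventually_lt_const (by norm_num)
  obtain ⟨j, hj1, hj2⟩ := (hev2.and (eventually_ge_atTop N)).exists
  refine ⟨N1 + j, by omega, ?_⟩
  have := hind j
  linarith

theorem returns {A κ Vk V h M v X0 Xi Xk : ℝ} (hA : 0 ≤ A) (hκ : 0 ≤ κ) (hκh : κ + h ≤ 1)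
    (hVk : 0 < Vk) (hV : 0 ≤ V) (hh : 0 < h) (hM : 0 < M)
    (hv : v = Vk / 2) (hX1 : 1 ≤ X0) (hXi : 0 ≤ Xi) (N : ℕ) :
    ∃ m0 : ℕ, N ≤ m0 ∧ ∃ L0 : ℝ, ∀ L : ℝ, L0 ≤ L → ∀ W : ℝ, 0 < W → W ≤ h / 16 →
    ∀ si sk xi xk : ℕ → ℝ,
      (∀ m, 1 ≤ si m ∧ 1 ≤ sk m ∧ si m ≤ 2 ∧ sk m ≤ 2 ∧ X0 + m * v ≤ xk m) →
      xk 0 ≤ Xk → |xi 0| ≤ Xi →
      (∀ m, StepRel A κ Vk V h M L W (si m) (sk m) (xi m) (xk m)
        (si (m+1)) (sk (m+1)) (xi (m+1)) (xk (m+1))) →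
      |xi m0| < 1 := by
  have hh1 : h ≤ 1 := by linarith
  have hv0 : 0 < v := by rw [hv]; linarith
  set f : ℕ → ℝ := fun m => A / (1 + (X0 + m * v) ^ 2) + V * (M ^ 2 / (M ^ 2 + (X0 + m * v) ^ 2)) with hf
  have hyt : Tendsto (fun m : ℕ => X0 + (m : ℝ) * v) atTop atTop :=
    tendsto_atTop_add_const_left _ _ (tendsto_natCast_atTop_atTop.atTop_mul_const hv0)
  have hy2 : Tendsto (fun m : ℕ => (X0 + (m : ℝ) * v) ^ 2) atTop atTop :=
    (tendsto_pow_atTop (two_ne_zero)).comp hyt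
  have hlim : Tendsto f atTop (𝓝 0) := by
    have t1 : Tendsto (fun m : ℕ => A / (1 + (X0 + (m : ℝ) * v) ^ 2)) atTop (𝓝 0) :=
      tendsto_const_nhds.div_atTop (tendsto_atTop_add_const_left _ _ hy2)
    have t2 : Tendsto (fun m : ℕ => M ^ 2 / (M ^ 2 + (X0 + (m : ℝ) * v) ^ 2)) atTop (𝓝 0) :=
      tendsto_const_nhds.div_atTop (tendsto_atTop_add_const_left _ _ hy2)
    have := t1.add (t2.const_mul V)
    rwa [mul_zero, add_zero] at this
  obtain ⟨m0, hNm, hz⟩ := zz_small (Xi := Xi) hh hh1 hlim N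
  refine ⟨m0, hNm, ?_⟩
  set B1 : ℝ := Xi + m0 * (A + V + 1) with hB1
  set B2 : ℝ := |Xk| + m0 * (Vk + A) with hB2
  refine ⟨B1 ^ 2 + B2 ^ 2 + 12 + 1, ?_⟩
  intro L hL W hW hWh si sk xi xk hs hxk0 hxi0 hstep
  have hB1' := sq_nonneg B1
  have hB2' := sq_nonneg B2
  have hL0 : 0 < L := by linarith
  have hL1 : 1 ≤ L := by linarith
  have hW1 : W ≤ 1 := by linarith
  have hy : ∀ m : ℕ, 0 < X0 + (m : ℝ) * v := by
    intro m
    have : 0 ≤ (m : ℝ) * v := by positivity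
    linarith
  have hfact := fun m => step_facts hA hκh hV hh hM hL0 hW (hs m).1 (hs m).2.1 (hy m) (hs m).2.2.2.2 (hstep m)
  have hxk : ∀ m : ℕ, xk m ≤ |Xk| + m * (Vk + A) := by
    intro m
    induction m with
    | zero =>
      have := le_abs_self Xk
      push_cast
      linarith
    | succ m ih =>
      have := (hfact m).1
      push_cast
      linarith
  have hxi : ∀ m : ℕ, |xi m| ≤ Xi + m * (A + V + 1) := by
    intro m
    induction m with
    | zero => push_cast; linarith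
    | succ m ih =>
      have := (hfact m).2.1
      push_cast
      linarith
  have hQ : ∀ m ≤ m0, xi m ^ 2 + xk m ^ 2 + 3 * (si m + sk m) ≤ L ^ 2 := by
    intro m hm
    have hmm : (m : ℝ) ≤ m0 := by exact_mod_cast hm
    have h1 : |xi m| ≤ B1 := by
      refine (hxi m).trans ?_
      rw [hB1]
      have : (m : ℝ) * (A + V + 1) ≤ m0 * (A + V + 1) := mul_le_mul_of_nonneg_right hmm (by linarith)
      linarith
    have h2 : xk m ≤ B2 := by
      refine (hxk m).trans ?_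
      rw [hB2]
      have : (m : ℝ) * (Vk + A) ≤ m0 * (Vk + A) := mul_le_mul_of_nonneg_right hmm (by linarith)
      linarith
    have h3 : 0 ≤ xk m := (hy m).le.trans (hs m).2.2.2.2
    have h4 : xi m ^ 2 ≤ B1 ^ 2 := by
      rw [← sq_abs]
      exact pow_le_pow_left₀ (abs_nonneg _) h1 2
    have h5 : xk m ^ 2 ≤ B2 ^ 2 := pow_le_pow_left₀ h3 h2 2
    have h6 := (hs m).2.2.1
    have h7 := (hs m).2.2.2.1
    nlinarith
  have hmain : ∀ m ≤ m0, |xi m| ≤ zz h Xi f m + 2 * W / h := by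
    intro m
    induction m with
    | zero =>
      intro _
      have : 0 ≤ 2 * W / h := by positivity
      show |xi 0| ≤ Xi + 2 * W / h
      linarith
    | succ m ih =>
      intro hm
      have h1 := ih (by omega)
      have h2 := (hfact m).2.2 (hQ m (by omega))
      have e : zz h Xi f (m + 1) = (1 - h / 2) * zz h Xi f m + f m := rfl
      rw [e]
      have h3 : (1 - h / 2) * |xi m| ≤ (1 - h / 2) * (zz h Xi f m + 2 * W / h) :=
        mul_le_mul_of_nonneg_left h1 (by linarith)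
      have h4 : (1 - h / 2) * (2 * W / h) = 2 * W / h - W := by field_simp
      have h5 : f m = A / (1 + (X0 + m * v) ^ 2) + V * (M ^ 2 / (M ^ 2 + (X0 + m * v) ^ 2)) := rfl
      rw [h5]
      linarith
  have hfin := hmain m0 le_rfl
  have h8 : 2 * W / h ≤ 1 / 8 := by
    rw [div_le_iff₀ hh]
    linarith
  linarith


end Pool.Agent.Helper321.DW
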