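import Pool.Agent.Helper321.DW.RealForm
set_option autoImplicit false
open Metric Set Filter Topology Complex

namespace Pool.Agent.Helper321.DW

theorem stepRel {G : Sys} {A κ : ℝ} (hc : Cls G A κ) {i k : Fin 2} (hik : k ≠ i)
    (hV : 0 ≤ G.V i) {h M L W : ℝ} (hh : 0 < h) (hM : 0 < M) (hML : M ≤ L) (hW : 0 < W)
    {r : Fin 2 → Fin 2 → ℝ} (hr : ∀ j, 1 ≤ r j 0) (hs : r 0 0 + r 1 0 ≤ 4) :
    StepRel A κ (G.V k) (G.V i) h M L W (r i 0) (r k 0) (r i 1) (r k 1)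
      ((G.step i h M L W).rmap r i 0) ((G.step i h M L W).rmap r k 0)
      ((G.step i h M L W).rmap r i 1) ((G.step i h M L W).rmap r k 1) := by
  have hQ : (r i 1) ^ 2 + (r k 1) ^ 2 + 3 * (r i 0 + r k 0) = Qr r := by
    unfold Qr
    fin_cases i <;> fin_cases k <;> simp at hik ⊢
    all_goals ring
  have hden : 1 + (r i 1) ^ 2 + (r k 1) ^ 2 = 1 + (r 0 1) ^ 2 + (r 1 1) ^ 2 := by
    fin_cases i <;> fin_cases k <;> simp at hik ⊢
    all_goals ring
  have hsum : r i 0 + r k 0 = r 0 0 + r 1 0 := by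
    fin_cases i <;> fin_cases k <;> simp at hik ⊢
    all_goals ring
  have hr' : ∀ j, 0 < r j 0 := fun j => by linarith [hr j]
  obtain ⟨β, kk, hb, hβ, hk0, hkκ, hkA⟩ := hc.b_eq r hr hs k
  obtain ⟨β2, k2, hb2, hβ2, hk20, hk2κ, _⟩ := hc.b_eq r hr hs i
  obtain ⟨C, hC, ha⟩ := aa_real hr' hh hM hML hV hW.le i
  have hbr := bb_real hr' (V := G.V i) (W := W) hh hM hML i
  have e1 : (G.step i h M L W).rmap r k 1 = r k 1 + (G.b k (rc r)).re := by
    simp [Sys.rmap, Sys.step, hik]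
  have e2 : (G.step i h M L W).rmap r k 0 = r k 0 + (G.a k (rc r)).re := by
    simp [Sys.rmap, Sys.step, hik]
  have e3 : (G.step i h M L W).rmap r i 1 = r i 1 + ((G.b i (rc r)).re +
      ((bb h (G.V i) W M L (qq (rc r)) (rc r i 1)).re - G.V i + W)) := by
    simp [Sys.rmap, Sys.step]
  have e4 : (G.step i h M L W).rmap r i 0 = r i 0 + ((G.a i (rc r)).re +
      (aa h (G.V i) W M L (qq (rc r)) (ss (rc r)) (rc r i 1)).re) := by
    simp [Sys.rmap, Sys.step]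
  rw [hbr, Complex.ofReal_re] at e3
  rw [ha, Complex.ofReal_re] at e4
  rw [hb] at e1
  rw [hb2] at e3
  refine ⟨β, kk, β2, k2, (G.a i (rc r)).re, (G.a k (rc r)).re, C, ?_, ?_, hk0, hkκ, ?_, ?_, ?_,
    hk20, hk2κ, e2, hc.a_nonneg r hr k, ?_, ?_, hc.a_nonneg r hr i, ?_, hC⟩
  · rw [e1]
    ring
  · rw [hden]
    exact hβ
  · rw [hden]
    exact hkA
  · rw [hQ, e3]
    ring
  · rw [hden]
    exact hβ2
  · rw [hden]
    exact hc.a_le r hr hs k
  · rw [hQ, hsum, e4]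
    ring
  · rw [hden]
    exact hc.a_le r hr hs i


end Pool.Agent.Helper321.DW
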