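import Pool.Agent.Helper321.DW.Defs
set_option autoImplicit false
open Metric Set Filter Topology Complex

namespace Pool.Agent.Helper321.DW

/-- the other coordinate also drifts to infinity -/
theorem tend_of_cls {G : Sys} {A κ : ℝ} (hc : Cls G A κ) (hκ : κ ≤ 1 / 2)
    (hdrift : ∀ (W : ℝ), 0 < W → ∀ x k β : ℕ → ℝ, (∀ n, 0 ≤ k n) → (∀ n, k n ≤ 1/2) →
      Tendsto k atTop (𝓝 0) → Tendsto β atTop (𝓝 0) →
      (∀ n, x (n+1) = x n + W + β n - k n * x n) → Tendsto x atTop atTop)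
    {r0 : Fin 2 → Fin 2 → ℝ}
    (hS : ∀ (t : ℕ) (j : Fin 2), 1 ≤ (G.rmap^[t] r0) j 0 ∧ (G.rmap^[t] r0) j 0 ≤ 2) {k i : Fin 2}
    (hV : 0 < G.V i) (hk : Tendsto (fun t : ℕ => (G.rmap^[t] r0) k 1) atTop atTop) :
    Tendsto (fun t : ℕ => (G.rmap^[t] r0) i 1) atTop atTop := by
  have h1 : ∀ t j, 1 ≤ (G.rmap^[t] r0) j 0 := fun t j => (hS t j).1
  have h2 : ∀ t, (G.rmap^[t] r0) 0 0 + (G.rmap^[t] r0) 1 0 ≤ 4 := fun t => by
    have a := (hS t 0).2
    have b := (hS t 1).2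
    linarith
  choose β kk e1 e2 e3 e4 e5 using fun t => hc.b_eq (G.rmap^[t] r0) (h1 t) (h2 t) i
  have hbd : ∀ t, A / (1 + ((G.rmap^[t] r0) 0 1) ^ 2 + ((G.rmap^[t] r0) 1 1) ^ 2) ≤
      |A| / (1 + ((G.rmap^[t] r0) k 1) ^ 2) := by
    intro t
    have p0 := sq_nonneg ((G.rmap^[t] r0) 0 1)
    have p1 := sq_nonneg ((G.rmap^[t] r0) 1 1)
    have pk := sq_nonneg ((G.rmap^[t] r0) k 1)
    have q1 : A / (1 + ((G.rmap^[t] r0) 0 1) ^ 2 + ((G.rmap^[t] r0) 1 1) ^ 2) ≤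
        |A| / (1 + ((G.rmap^[t] r0) 0 1) ^ 2 + ((G.rmap^[t] r0) 1 1) ^ 2) := by
      gcongr
      exact le_abs_self A
    refine q1.trans ?_
    apply div_le_div_of_nonneg_left (abs_nonneg A) (by positivity)
    have : k = 0 ∨ k = 1 := by
      fin_cases k
      · left; rfl
      · right; rfl
    rcases this with h | h
    · rw [h]; linarith
    · rw [h]; linarith
  have hlim : Tendsto (fun t : ℕ => |A| / (1 + ((G.rmap^[t] r0) k 1) ^ 2)) atTop (𝓝 0) := by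
    apply Tendsto.div_atTop tendsto_const_nhds
    apply tendsto_atTop_add_const_left
    exact (tendsto_pow_atTop (two_ne_zero)).comp hk
  have hβ : Tendsto β atTop (𝓝 0) := by
    apply squeeze_zero_norm (fun t => ?_) hlim
    rw [Real.norm_eq_abs]
    exact (e2 t).trans (hbd t)
  have hkk : Tendsto kk atTop (𝓝 0) :=
    squeeze_zero e3 (fun t => (e5 t).trans (hbd t)) hlim
  refine hdrift (G.V i) hV (fun t => (G.rmap^[t] r0) i 1) kk β e3 (fun t => (e4 t).trans hκ) hkk hβ ?_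
  intro n
  have h3 : (G.rmap^[n+1] r0) i 1 = (G.rmap^[n] r0) i 1 + (G.b i (rc (G.rmap^[n] r0))).re := by
    rw [Function.iterate_succ_apply']
    rfl
  rw [h3, e1 n]
  ring


end Pool.Agent.Helper321.DW
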