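import Pool.Agent.Helper321.DW.ClsStep
import Pool.Agent.Helper321.DW.StepRelLem
import Pool.Agent.Helper321.DW.Elem
import Pool.Agent.Helper321.DW.TendCls
import Pool.Agent.Helper321.DW.DynCore
import Pool.Agent.Helper321.DW.NELem
import Pool.Agent.Helper321.DW.BlockSmall
import Pool.Agent.Helper321.DW.LongTime
import Pool.Agent.Helper321.DW.Returns
import Pool.Agent.Helper321.DW.Drift
import Pool.Agent.Helper321.DW.FinStab
set_option autoImplicit false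
open Metric Set Filter Topology

namespace Pool.Agent.Helper321.DW

theorem fin2_cases {i k : Fin 2} (hik : k ≠ i) (j : Fin 2) : j = i ∨ j = k := by
  omega

theorem coord_le {r r' : Fin 2 → Fin 2 → ℝ} {η : ℝ} (h : ‖r - r'‖ ≤ η) (j k : Fin 2) :
    |r j k - r' j k| ≤ η := by
  have h1 : ‖(r - r') j k‖ ≤ ‖(r - r') j‖ := norm_le_pi_norm _ k
  have h2 : ‖(r - r') j‖ ≤ ‖r - r'‖ := norm_le_pi_norm _ j
  have h3 : ‖(r - r') j k‖ = |r j k - r' j k| := rfl
  rw [← h3]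
  exact h1.trans (h2.trans h)

theorem dyn_step {G : Sys} {A κ S : ℝ} {r0 : Fin 2 → Fin 2 → ℝ} (hc : Cls G A κ) (hA : 0 ≤ A)
    (hκ : 0 ≤ κ) (hκ2 : κ < 1 / 2) (hV : ∀ j, 0 < G.V j)
    (hb : ∀ j, DifferentiableOn ℂ (G.b j) Om) (ha : ∀ j, DifferentiableOn ℂ (G.a j) Om)
    (hS : ∀ (t : ℕ) (j : Fin 2), 1 ≤ (G.rmap^[t] r0) j 0 ∧ (G.rmap^[t] r0) j 0 ≤ S) (hS2 : S < 2)
    (hx : ∀ j, Tendsto (fun t : ℕ => (G.rmap^[t] r0) j 1) atTop atTop) {i k : Fin 2} (hik : k ≠ i)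
    (T : ℕ) {η : ℝ} (hη : 0 < η) :
    NE (fun h M L W =>
      (∀ (t : ℕ) (j : Fin 2), 1 ≤ ((G.step i h M L W).rmap^[t] r0) j 0 ∧
        ((G.step i h M L W).rmap^[t] r0) j 0 ≤ (S + 2) / 2) ∧
      (∀ j, Tendsto (fun t : ℕ => ((G.step i h M L W).rmap^[t] r0) j 1) atTop atTop) ∧
      (∀ t ≤ T, ‖(G.step i h M L W).rmap^[t] r0 - G.rmap^[t] r0‖ ≤ η) ∧
      ∃ t' ≥ T, |((G.step i h M L W).rmap^[t'] r0) i 1| < 1) := by
  classical
  set ε : ℝ := (2 - S) / 4 with hε_def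
  have hε : 0 < ε := by rw [hε_def]; linarith
  have hVk := hV k
  have hVi := hV i
  set X0 : ℝ := 1 + G.V k + 4 * A / G.V k + 4 * A / (ε * (G.V k / 2)) with hX0
  have p1 : 0 ≤ 4 * A / G.V k := by positivity
  have p2 : 0 ≤ 4 * A / (ε * (G.V k / 2)) := by positivity
  have hX1 : 1 ≤ X0 := by rw [hX0]; linarith
  have hXv : G.V k ≤ X0 := by rw [hX0]; linarith
  have hXA : 4 * A ≤ G.V k * X0 := by
    have : G.V k * (4 * A / G.V k) = 4 * A := by field_simp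
    rw [hX0]
    nlinarith
  have hXA2 : A / (G.V k / 2 * (X0 - G.V k / 2)) ≤ ε / 4 := by
    have h1 : 0 < X0 - G.V k / 2 := by linarith
    rw [div_le_iff₀ (by positivity)]
    have h2 : ε * (G.V k / 2) * (4 * A / (ε * (G.V k / 2))) = 4 * A := by field_simp
    have h3 : 4 * A / (ε * (G.V k / 2)) ≤ X0 - G.V k / 2 := by rw [hX0]; linarith
    have h4 : ε * (G.V k / 2) * (4 * A / (ε * (G.V k / 2))) ≤ ε * (G.V k / 2) * (X0 - G.V k / 2) :=
      mul_le_mul_of_nonneg_left h3 (by positivity)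
    nlinarith
  obtain ⟨T0, hT0T, hT0x⟩ : ∃ T0 ≥ T, X0 + 1 ≤ (G.rmap^[T0] r0) k 1 := by
    have h1 := (tendsto_atTop.1 (hx k) (X0 + 1)).and (eventually_ge_atTop T)
    obtain ⟨n, hn1, hn2⟩ := h1.exists
    exact ⟨n, hn2, hn1⟩
  set η' : ℝ := min η (min 1 ε) with hη'
  have hη'0 : 0 < η' := by rw [hη']; positivity
  have hη'1 : η' ≤ η := min_le_left _ _
  have hη'2 : η' ≤ 1 := (min_le_right _ _).trans (min_le_left _ _)
  have hη'3 : η' ≤ ε := (min_le_right _ _).trans (min_le_right _ _)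
  have hr0 : r0 ∈ {r : Fin 2 → Fin 2 → ℝ | ∀ j, 1 ≤ r j 0} := fun j => (hS 0 j).1
  obtain ⟨δ, hδ, ρ, hstab⟩ := finite_stab (cont_rmap hb ha) (rmap_mapsTo hc) hr0 T0 hη'0
  have hbs := block_small (G.V i) ρ δ hVi.le hδ i
  have hXi : 0 ≤ |(G.rmap^[T0] r0) i 1| + 1 := by positivity
  have hdc := dyn_core long_time returns (A := A) (κ := κ) (Vk := G.V k) (V := G.V i) (S0 := S + ε)
    (ε := ε) (Xk := (G.rmap^[T0] r0) k 1 + 1) (Xi := |(G.rmap^[T0] r0) i 1| + 1) (X0 := X0)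
    hA hκ hκ2 hVk hVi hε (by rw [hε_def]; linarith) hX1 hXv hXA hXA2 hXi 0
  have hbasic := NE.basic (c := 1 / 2 - κ) (by linarith)
  refine ((hbasic.and hbs).and hdc).mono ?_
  rintro h M L W ⟨⟨⟨hh, hhc, hM, hML, hW⟩, hbs⟩, hdc⟩
  have hM0 : 0 < M := by linarith
  set G' := G.step i h M L W with hG'
  obtain ⟨A', hA', hc'⟩ := Cls_step hc hA hκ hVi.le hh hM0 hML hW
  rw [← hG'] at hc'
  have hmaps := rmap_mapsTo hc'
  have hcl : ∀ t ≤ T0, ‖G'.rmap^[t] r0 - G.rmap^[t] r0‖ ≤ η' := by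
    apply hstab G'.rmap hmaps
    intro r hr hρ
    obtain ⟨h1, h2⟩ := hbs (rc r) (rc_mem_Om hr) (by rw [norm_rc]; exact hρ)
    exact step_close_real hδ.le h1 h2
  have hD : ∀ t : ℕ, ∀ j, 1 ≤ (G'.rmap^[t] r0) j 0 := fun t => (hmaps.iterate t) hr0
  have hcT := hcl T0 le_rfl
  have hsT : ∀ t ≤ T0, ∀ j, (G'.rmap^[t] r0) j 0 ≤ S + ε := by
    intro t ht j
    have h1 := coord_le (hcl t ht) j 0
    have h2 := (hS t j).2
    have h3 := (abs_le.1 h1).2
    linarith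
  have hrel : ∀ m : ℕ, (G'.rmap^[m + T0] r0) i 0 + (G'.rmap^[m + T0] r0) k 0 ≤ 4 →
      StepRel A κ (G.V k) (G.V i) h M L W
        ((G'.rmap^[m + T0] r0) i 0) ((G'.rmap^[m + T0] r0) k 0)
        ((G'.rmap^[m + T0] r0) i 1) ((G'.rmap^[m + T0] r0) k 1)
        ((G'.rmap^[m + 1 + T0] r0) i 0) ((G'.rmap^[m + 1 + T0] r0) k 0)
        ((G'.rmap^[m + 1 + T0] r0) i 1) ((G'.rmap^[m + 1 + T0] r0) k 1) := by
    intro m hm
    have e1 : m + 1 + T0 = (m + T0) + 1 := by ring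
    rw [e1, Function.iterate_succ_apply']
    refine stepRel hc hik hVi.le hh hM0 hML hW (hD _) ?_
    rcases fin2_cases hik 0 with h0 | h0 <;> rcases fin2_cases hik 1 with h1 | h1
    · exact absurd (h0.trans h1.symm) (by decide)
    · rw [← h0, ← h1] at hm; exact hm
    · rw [← h0, ← h1] at hm; linarith
    · exact absurd (h0.trans h1.symm) (by decide)
  have hci := coord_le hcT i 1
  have hck := coord_le hcT k 1
  obtain ⟨hb1, hb2, m, _, hm⟩ := hdc (fun m => (G'.rmap^[m + T0] r0) i 0)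
    (fun m => (G'.rmap^[m + T0] r0) k 0) (fun m => (G'.rmap^[m + T0] r0) i 1)
    (fun m => (G'.rmap^[m + T0] r0) k 1) (hD _ i) (by simpa using hsT T0 le_rfl i) (hD _ k)
    (by simpa using hsT T0 le_rfl k)
    (by
      have := (abs_le.1 hck).1
      simp only [zero_add]
      linarith)
    (by
      have := (abs_le.1 hck).2
      simp only [zero_add]
      linarith)
    (by
      simp only [zero_add]
      have h1 : |(G'.rmap^[T0] r0) i 1| ≤ |(G.rmap^[T0] r0) i 1| +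
          |(G'.rmap^[T0] r0) i 1 - (G.rmap^[T0] r0) i 1| := by
        have := abs_add_le ((G.rmap^[T0] r0) i 1) ((G'.rmap^[T0] r0) i 1 - (G.rmap^[T0] r0) i 1)
        rw [add_sub_cancel] at this
        exact this
      linarith)
    (fun m _ _ h4 => hrel m h4)
  have hbd : ∀ (t : ℕ) (j : Fin 2), (G'.rmap^[t] r0) j 0 ≤ (S + 2) / 2 := by
    intro t j
    have e2 : S + ε ≤ (S + 2) / 2 := by rw [hε_def]; linarith
    have e3 : S + ε + ε = (S + 2) / 2 := by rw [hε_def]; ring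
    rcases le_total t T0 with ht | ht
    · exact (hsT t ht j).trans e2
    · obtain ⟨m, rfl⟩ := Nat.exists_eq_add_of_le ht
      have h5 := hb1 m
      rw [add_comm T0 m]
      rcases fin2_cases hik j with hj | hj
      · rw [hj, ← e3]; exact h5.2.1
      · rw [hj, ← e3]; exact h5.2.2.2
  have htk : Tendsto (fun t : ℕ => (G'.rmap^[t] r0) k 1) atTop atTop :=
    (tendsto_add_atTop_iff_nat T0).1 hb2
  have hV' : 0 < G'.V i := by
    have : G'.V i = W := by rw [hG']; simp [Sys.step]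
    rw [this]; exact hW
  have hti : Tendsto (fun t : ℕ => (G'.rmap^[t] r0) i 1) atTop atTop := by
    refine tend_of_cls hc' (by linarith) (fun W hW x k β => drift_tendsto hW) ?_ hV' htk
    intro t j
    refine ⟨hD t j, (hbd t j).trans ?_⟩
    linarith
  refine ⟨fun t j => ⟨hD t j, hbd t j⟩, ?_, fun t ht => (hcl t (ht.trans hT0T)).trans hη'1,
    m + T0, by omega, hm⟩
  intro j
  rcases fin2_cases hik j with hj | hj
  · rw [hj]; exact hti
  · rw [hj]; exact htk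

end Pool.Agent.Helper321.DW
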