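import Pool.Agent.Helper321.DW.Defs
set_option autoImplicit false
open Metric Set Filter Topology Complex

namespace Pool.Agent.Helper321.DW

theorem limit_good {e : ℝ} (he : 0 < e) {G : ℕ → Sys} {lam : ℕ → ℝ}
    (hlam : Tendsto lam atTop (𝓝 1)) (hI : ∀ n, Ineq (G n) (lam n) e) {H : X → X}
    (hH : ∀ P ∈ Om, Tendsto (fun n => (G n).map P) atTop (𝓝 (H P)))
    (hpos : ∀ P ∈ Om, 0 < (3 * ss P / (1 + qq P)).re) :
    MapsTo H Om Om ∧ ∀ P ∈ Om, H P ≠ P := by
  have hlim : ∀ P ∈ Om, ∀ j, 2 * (P j 1).im * (H P j 1 - P j 1).im + (H P j 1 - P j 1).im ^ 2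
      + e * (3 * ss P / (1 + qq P)).re ≤ (H P j 0 - P j 0).re := by
    intro P hP j
    have hb : Tendsto (fun n => (G n).b j P) atTop (𝓝 (H P j 1 - P j 1)) := by
      have h1 : Tendsto (fun n => (G n).map P j 1) atTop (𝓝 (H P j 1)) :=
        tendsto_pi_nhds.1 (tendsto_pi_nhds.1 (hH P hP) j) 1
      have h2 := h1.sub_const (P j 1)
      refine h2.congr fun n => ?_
      simp [Sys.map]
    have ha : Tendsto (fun n => (G n).a j P) atTop (𝓝 (H P j 0 - P j 0)) := by
      have h1 : Tendsto (fun n => (G n).map P j 0) atTop (𝓝 (H P j 0)) :=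
        tendsto_pi_nhds.1 (tendsto_pi_nhds.1 (hH P hP) j) 0
      have h2 := h1.sub_const (P j 0)
      refine h2.congr fun n => ?_
      simp [Sys.map]
    have hbi : Tendsto (fun n => ((G n).b j P).im) atTop (𝓝 (H P j 1 - P j 1).im) :=
      Complex.continuous_im.continuousAt.tendsto.comp hb
    have har : Tendsto (fun n => ((G n).a j P).re) atTop (𝓝 (H P j 0 - P j 0).re) :=
      Complex.continuous_re.continuousAt.tendsto.comp ha
    have hl : Tendsto (fun n => 2 * (P j 1).im * ((G n).b j P).im + lam n * ((G n).b j P).im ^ 2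
        + e * (3 * ss P / (1 + qq P)).re) atTop (𝓝 (2 * (P j 1).im * (H P j 1 - P j 1).im +
          1 * (H P j 1 - P j 1).im ^ 2 + e * (3 * ss P / (1 + qq P)).re)) :=
      ((hbi.const_mul _).add (hlam.mul (hbi.pow 2))).add_const _
    rw [one_mul] at hl
    exact le_of_tendsto_of_tendsto' hl har (fun n => hI n P hP j)
  constructor
  · intro P hP j
    have h1 := hlim P hP j
    have h2 := hpos P hP
    have h3 := hP j
    have h4 : 0 < e * (3 * ss P / (1 + qq P)).re := mul_pos he h2
    rw [Complex.sub_im, Complex.sub_re] at h1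
    nlinarith
  · intro P hP heq
    have h1 := hlim P hP 0
    have h2 := hpos P hP
    have h4 : 0 < e * (3 * ss P / (1 + qq P)).re := mul_pos he h2
    rw [heq] at h1
    simp only [sub_self, Complex.zero_im, Complex.zero_re] at h1
    nlinarith

end Pool.Agent.Helper321.DW
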