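import Mathlib
set_option autoImplicit false
open Metric Set Filter Topology

namespace Pool.Agent.Helper321.DW

theorem limit_maps_geo {X G : Type*} [NormedAddCommGroup G] [CompleteSpace G] (T : Set X)
    (f : ℕ → X → G) (C : ℝ) (N : ℕ)
    (h : ∀ n, N ≤ n → ∀ y ∈ T, ‖f (n + 1) y - f n y‖ ≤ C * (1 / 2 : ℝ) ^ n) :
    ∃ g : X → G, ∀ n, N ≤ n → ∀ y ∈ T, ‖f n y - g y‖ ≤ 2 * C * (1 / 2 : ℝ) ^ n := by
  have key : ∀ y, ∃ a : G, y ∈ T → ∀ n, N ≤ n → ‖f n y - a‖ ≤ 2 * C * (1 / 2 : ℝ) ^ n := by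
    intro y
    by_cases hy : y ∈ T
    · have hd : ∀ k : ℕ, dist (f (N + k) y) (f (N + (k + 1)) y)
          ≤ (C * (1 / 2 : ℝ) ^ N) * (1 / 2 : ℝ) ^ k := by
        intro k
        rw [dist_comm, dist_eq_norm]
        have := h (N + k) (Nat.le_add_right _ _) y hy
        rw [pow_add] at this
        rw [mul_assoc]
        exact this
      have hc : CauchySeq (fun k => f (N + k) y) :=
        cauchySeq_of_le_geometric (1 / 2 : ℝ) (C * (1 / 2 : ℝ) ^ N) (by norm_num) hd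
      obtain ⟨a, ha⟩ := cauchySeq_tendsto_of_complete hc
      refine ⟨a, fun _ n hn => ?_⟩
      have h2 := dist_le_of_le_geometric_of_tendsto (1 / 2 : ℝ) (C * (1 / 2 : ℝ) ^ N)
        (by norm_num) hd ha (n - N)
      have e : N + (n - N) = n := by omega
      simp only [e] at h2
      rw [dist_eq_norm] at h2
      refine h2.trans (le_of_eq ?_)
      rw [mul_assoc C, ← pow_add, e]
      ring
    · exact ⟨0, fun h => absurd h hy⟩
  choose g hg using key
  exact ⟨g, fun n hn y hy => hg y hy n hn⟩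

/-- geometrically convergent sequences of holomorphic maps on an open subset of a complex normed space -/
theorem limit_maps {E F : Type} [NormedAddCommGroup E] [NormedSpace ℂ E] [NormedAddCommGroup F]
    [NormedSpace ℂ F] [CompleteSpace F] {U : Set E} (hU : IsOpen U) (H : ℕ → E → F)
    (hH : ∀ n, DifferentiableOn ℂ (H n) U)
    (hc : ∀ n : ℕ, ∀ P ∈ U, ‖P‖ ≤ n + 1 → ‖H (n + 1) P - H n P‖ ≤ (1 / 2 : ℝ) ^ n) :
    ∃ Hi : E → F, DifferentiableOn ℂ Hi U ∧ TendstoLocallyUniformlyOn H Hi atTop U := by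
  have hgeo : ∀ N : ℕ, ∃ g : E → F, ∀ n, N ≤ n → ∀ y ∈ U ∩ {P | ‖P‖ ≤ N + 1},
      ‖H n y - g y‖ ≤ 2 * 1 * (1 / 2 : ℝ) ^ n := by
    intro N
    refine limit_maps_geo _ H 1 N fun n hn y hy => ?_
    rw [one_mul]
    refine hc n y hy.1 ?_
    have h1 : ‖y‖ ≤ (N : ℝ) + 1 := hy.2
    have h2 : (N : ℝ) ≤ n := by exact_mod_cast hn
    linarith
  choose g hg using hgeo
  set Hi : E → F := fun P => g ⌈‖P‖⌉₊ P with hHi
  have hb : ∀ P ∈ U, ∀ n : ℕ, ⌈‖P‖⌉₊ ≤ n → ‖H n P - Hi P‖ ≤ 2 * (1 / 2 : ℝ) ^ n := by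
    intro P hP n hn
    have := hg ⌈‖P‖⌉₊ n hn P ⟨hP, by
      have := Nat.le_ceil ‖P‖
      simp only [Set.mem_ofPred_eq]
      linarith⟩
    simpa using this
  have hpow : Tendsto (fun n : ℕ => 2 * (1 / 2 : ℝ) ^ n) atTop (𝓝 0) := by
    simpa using (tendsto_pow_atTop_nhds_zero_of_lt_one (r := (1 / 2 : ℝ)) (by norm_num)
      (by norm_num)).const_mul 2
  have hunif : TendstoLocallyUniformlyOn H Hi atTop U := by
    rw [Metric.tendstoLocallyUniformlyOn_iff]
    intro ε hε x hx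
    refine ⟨ball x 1 ∩ U, inter_mem (mem_nhdsWithin_of_mem_nhds (ball_mem_nhds x one_pos))
      self_mem_nhdsWithin, ?_⟩
    filter_upwards [hpow.eventually_lt_const hε, eventually_ge_atTop ⌈‖x‖ + 1⌉₊] with n hn1 hn2 y hy
    rw [dist_comm, dist_eq_norm]
    refine (hb y hy.2 n ?_).trans_lt hn1
    refine (Nat.ceil_mono ?_).trans hn2
    have h1 : ‖y - x‖ < 1 := by simpa [dist_eq_norm] using hy.1
    have h2 : ‖y‖ ≤ ‖y - x‖ + ‖x‖ := by simpa using norm_add_le (y - x) x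
    linarith
  refine ⟨Hi, ?_, hunif⟩
  intro x hx
  obtain ⟨δ, hδ, hball⟩ := Metric.isOpen_iff.1 hU x hx
  set r : ℝ := δ / 2 with hr
  have hr0 : 0 < r := by positivity
  have hsub : ∀ y ∈ ball x r, ball y r ⊆ U ∩ ball x δ := by
    intro y hy z hz
    have : dist z x < δ := by
      have h1 : dist z y < r := hz
      have h2 : dist y x < r := hy
      have h3 := dist_triangle z y x
      linarith
    exact ⟨hball this, this⟩
  have hD : ∀ n : ℕ, ⌈‖x‖ + δ⌉₊ ≤ n → ∀ y ∈ ball x r,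
      ‖fderiv ℂ (H (n + 1)) y - fderiv ℂ (H n) y‖ ≤ (2 / r) * (1 / 2 : ℝ) ^ n := by
    intro n hn y hy
    have hyU : y ∈ U := (hsub y hy (mem_ball_self hr0)).1
    have hu : DifferentiableOn ℂ (fun z => H (n + 1) z - H n z) (ball y r) :=
      ((hH (n + 1)).sub (hH n)).mono fun z hz => (hsub y hy hz).1
    have hbd : ∀ z ∈ ball y r, ‖H (n + 1) z - H n z‖ ≤ (1 / 2 : ℝ) ^ n := by
      intro z hz
      obtain ⟨h1, h2⟩ := hsub y hy hz
      refine hc n z h1 ?_
      have h3 : ‖z - x‖ < δ := by simpa [dist_eq_norm] using h2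
      have h4 : ‖z‖ ≤ ‖z - x‖ + ‖x‖ := by simpa using norm_add_le (z - x) x
      have h5 : ‖x‖ + δ ≤ n := (Nat.le_ceil _).trans (by exact_mod_cast hn)
      linarith
    have hmaps : MapsTo (fun z => H (n + 1) z - H n z) (ball y r)
        (closedBall ((fun z => H (n + 1) z - H n z) y) (2 * (1 / 2 : ℝ) ^ n)) := by
      intro z hz
      rw [mem_closedBall, dist_eq_norm]
      refine (norm_sub_le _ _).trans ?_
      have h1 := hbd z hz
      have h2 := hbd y (mem_ball_self hr0)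
      linarith
    have h3 := Complex.norm_fderiv_le_div_of_mapsTo_ball hu hmaps hr0
    have h4 : fderiv ℂ (fun z => H (n + 1) z - H n z) y
        = fderiv ℂ (H (n + 1)) y - fderiv ℂ (H n) y :=
      fderiv_fun_sub ((hH (n + 1)).differentiableAt (hU.mem_nhds hyU))
        ((hH n).differentiableAt (hU.mem_nhds hyU))
    rw [h4] at h3
    refine h3.trans (le_of_eq ?_)
    ring
  obtain ⟨g', hg'⟩ := limit_maps_geo (ball x r) (fun n y => fderiv ℂ (H n) y) (2 / r)
    ⌈‖x‖ + δ⌉₊ hD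
  have hunif' : TendstoUniformlyOn (fun n y => fderiv ℂ (H n) y) g' atTop (ball x r) := by
    rw [Metric.tendstoUniformlyOn_iff]
    intro ε hε
    have hpow' : Tendsto (fun n : ℕ => 2 * (2 / r) * (1 / 2 : ℝ) ^ n) atTop (𝓝 0) := by
      simpa using (tendsto_pow_atTop_nhds_zero_of_lt_one (r := (1 / 2 : ℝ)) (by norm_num)
        (by norm_num)).const_mul (2 * (2 / r))
    filter_upwards [hpow'.eventually_lt_const hε, eventually_ge_atTop ⌈‖x‖ + δ⌉₊] with n hn1 hn2 y hy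
    rw [dist_comm, dist_eq_norm]
    exact (hg' n hn2 y hy).trans_lt hn1
  have hfin : HasFDerivAt Hi (g' x) x := by
    refine hasFDerivAt_of_tendstoUniformlyOn (f := H) isOpen_ball hunif' ?_ ?_ (mem_ball_self hr0)
    · intro n y hy
      have hyU : y ∈ U := (hsub y hy (mem_ball_self hr0)).1
      exact ((hH n).differentiableAt (hU.mem_nhds hyU)).hasFDerivAt
    · intro y hy
      have hyU : y ∈ U := (hsub y hy (mem_ball_self hr0)).1
      exact hunif.tendsto_at hyU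
  exact hfin.differentiableAt.differentiableWithinAt


end Pool.Agent.Helper321.DW
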