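import Mathlib
set_option autoImplicit false
open Metric Set Filter Topology

namespace Pool.Agent.Helper321.DW

theorem orbit_limit {E : Type} [NormedAddCommGroup E] {U : Set E} (hU : IsOpen U) {H : ℕ → E → E}
    {Hi : E → E} (hl : TendstoLocallyUniformlyOn H Hi atTop U) (hc : ContinuousOn Hi U)
    (hm : MapsTo Hi U U) {P0 : E} (hP0 : P0 ∈ U) (t : ℕ) :
    Tendsto (fun n => (H n)^[t] P0) atTop (𝓝 (Hi^[t] P0)) := by
  induction t with
  | zero => simp
  | succ t ih =>
    have hx : Hi^[t] P0 ∈ U := hm.iterate t hP0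
    simp only [Function.iterate_succ_apply']
    refine hl.tendsto_comp (hc _ hx) hx ?_
    refine tendsto_nhdsWithin_iff.2 ⟨ih, ?_⟩
    exact ih.eventually (hU.mem_nhds hx)


end Pool.Agent.Helper321.DW
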