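import Pool.Agent.Helper321.DW.BBDef
set_option autoImplicit false
open Metric Set Filter Topology

namespace Pool.Agent.Helper321.DW

theorem transfer
    (hcay : ∃ Φ Ψ : (Fin 2 → ℂ) → (Fin 2 → ℂ), DifferentiableOn ℂ Φ TT ∧
      DifferentiableOn ℂ Ψ BB ∧ MapsTo Φ TT BB ∧ MapsTo Ψ BB TT ∧
      (∀ z ∈ TT, Ψ (Φ z) = z) ∧ (∀ z ∈ BB, Φ (Ψ z) = z)) (hBB : IsOpen BB)
    {H : (Fin 2 → Fin 2 → ℂ) → (Fin 2 → Fin 2 → ℂ)}
    (hH : DifferentiableOn ℂ H {P | ∀ j, (P j 1).im ^ 2 < (P j 0).re})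
    (hm : MapsTo H {P | ∀ j, (P j 1).im ^ 2 < (P j 0).re} {P | ∀ j, (P j 1).im ^ 2 < (P j 0).re})
    (hnf : ∀ P ∈ {P : Fin 2 → Fin 2 → ℂ | ∀ j, (P j 1).im ^ 2 < (P j 0).re}, H P ≠ P)
    {P0 : Fin 2 → Fin 2 → ℂ} (hP0 : P0 ∈ {P : Fin 2 → Fin 2 → ℂ | ∀ j, (P j 1).im ^ 2 < (P j 0).re})
    (hret : ∀ i : Fin 2, ∃ K : Set (Fin 2 → ℂ), IsCompact K ∧ K ⊆ TT ∧
      ∀ N : ℕ, ∃ t ≥ N, (H^[t] P0) i ∈ K) :
    ∃ F : (Fin 2 → Fin 2 → ℂ) → (Fin 2 → Fin 2 → ℂ),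
      DifferentiableOn ℂ F (Set.univ.pi fun _ => BB) ∧
      MapsTo F (Set.univ.pi fun _ => BB) (Set.univ.pi fun _ => BB) ∧
      (∀ P ∈ Set.univ.pi (fun _ : Fin 2 => BB), F P ≠ P) ∧
      ∀ i : Fin 2, ∀ p ∈ frontier BB, ∃ P ∈ Set.univ.pi (fun _ : Fin 2 => BB),
        ¬ Tendsto (fun m : ℕ => (F^[m] P) i) atTop (𝓝 p) := by
  obtain ⟨Φ, Ψ, hΦd, hΨd, hΦm, hΨm, hΨΦ, hΦΨ⟩ := hcay
  have hTmem : ∀ P : Fin 2 → Fin 2 → ℂ,
      P ∈ {P : Fin 2 → Fin 2 → ℂ | ∀ j, (P j 1).im ^ 2 < (P j 0).re} ↔ ∀ j, P j ∈ TT :=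
    fun P => Iff.rfl
  have hG : MapsTo (fun (P : Fin 2 → Fin 2 → ℂ) (k : Fin 2) => Ψ (P k))
      (Set.univ.pi fun _ => BB) {P | ∀ j, (P j 1).im ^ 2 < (P j 0).re} := by
    intro P hP
    rw [hTmem]
    intro j
    exact hΨm (hP j (Set.mem_univ _))
  have hGd : DifferentiableOn ℂ (fun (P : Fin 2 → Fin 2 → ℂ) (k : Fin 2) => Ψ (P k))
      (Set.univ.pi fun _ => BB) := by
    rw [differentiableOn_pi]
    intro k
    refine hΨd.comp (t := BB) (f := fun P : Fin 2 → Fin 2 → ℂ => P k)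
      (differentiable_apply k).differentiableOn ?_
    intro P hP
    exact hP k (Set.mem_univ _)
  have hHG := hH.comp hGd hG
  have hHGm : MapsTo (fun P : Fin 2 → Fin 2 → ℂ => H (fun k => Ψ (P k)))
      (Set.univ.pi fun _ => BB) {P | ∀ j, (P j 1).im ^ 2 < (P j 0).re} :=
    fun P hP => hm (hG hP)
  refine ⟨fun P j => Φ (H (fun k => Ψ (P k)) j), ?_, ?_, ?_, ?_⟩
  · rw [differentiableOn_pi]
    intro j
    refine hΦd.comp (t := TT)
      (f := fun P : Fin 2 → Fin 2 → ℂ => H (fun k => Ψ (P k)) j) ?_ ?_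
    · exact (differentiableOn_pi.mp hHG) j
    · intro P hP
      exact (hTmem _).mp (hHGm hP) j
  · intro P hP j _
    exact hΦm ((hTmem _).mp (hHGm hP) j)
  · intro P hP hfix
    refine hnf _ (hG hP) ?_
    funext j
    have h1 : Φ (H (fun k => Ψ (P k)) j) = P j := congrFun hfix j
    have h2 := hΨΦ _ ((hTmem _).mp (hHGm hP) j)
    simp only at h2
    rw [h1] at h2
    exact h2.symm
  · intro i p hp
    refine ⟨fun j => Φ (P0 j), fun j _ => hΦm ((hTmem _).mp hP0 j), ?_⟩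
    have horb : ∀ m : ℕ, H^[m] P0 ∈
        {P : Fin 2 → Fin 2 → ℂ | ∀ j, (P j 1).im ^ 2 < (P j 0).re} := by
      intro m
      induction m with
      | zero => exact hP0
      | succ m ih =>
        rw [Function.iterate_succ_apply']
        exact hm ih
    have hit : ∀ m : ℕ, ((fun (P : Fin 2 → Fin 2 → ℂ) (j : Fin 2) =>
        Φ (H (fun k => Ψ (P k)) j))^[m] (fun j => Φ (P0 j))) = fun j => Φ (H^[m] P0 j) := by
      intro m
      induction m with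
      | zero => rfl
      | succ m ih =>
        rw [Function.iterate_succ_apply', ih, Function.iterate_succ_apply']
        funext j
        have h1 : (fun k => Ψ (Φ (H^[m] P0 k))) = H^[m] P0 := by
          funext k
          exact hΨΦ _ ((hTmem _).mp (horb m) k)
        simp only [h1]
    simp only [hit]
    intro hT
    obtain ⟨K, hKc, hKT, hKr⟩ := hret i
    have hc : IsCompact (Φ '' K) := hKc.image_of_continuousOn (hΦd.continuousOn.mono hKT)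
    have hcl := hc.isClosed
    have hfr : ∃ᶠ m in atTop, Φ (H^[m] P0 i) ∈ Φ '' K := by
      rw [Filter.frequently_atTop]
      intro N
      obtain ⟨t, ht, htK⟩ := hKr N
      exact ⟨t, ht, Set.mem_image_of_mem _ htK⟩
    have hpin : p ∈ Φ '' K := hcl.mem_of_frequently_of_tendsto hfr hT
    have hpB : p ∈ BB := by
      obtain ⟨z, hz, rfl⟩ := hpin
      exact hΦm (hKT hz)
    rw [hBB.frontier_eq] at hp
    exact hp.2 hpB


end Pool.Agent.Helper321.DW
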