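import Pool.Agent.Helper321.DW.Constr
import Pool.Agent.Helper321.DW.LimitMaps
import Pool.Agent.Helper321.DW.LimitGood
import Pool.Agent.Helper321.DW.OrbitLimit
import Pool.Agent.Helper321.DW.Cayley
import Pool.Agent.Helper321.DW.Transfer
import Pool.Agent.Helper321.DW.Base
import Pool.Agent.Helper321.DW.BaseLem
import Pool.Agent.Helper321.DW.Ball
set_option autoImplicit false
open Metric Set Filter Topology

namespace Pool.Agent.Helper321.DW

/-- compact set of returns -/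
def KK : Set (Fin 2 → ℂ) := {z | ∃ a ∈ Icc (1 : ℝ) 2, ∃ b ∈ Icc (-(3 / 2 : ℝ)) (3 / 2), z = ![(a : ℂ), (b : ℂ)]}

theorem KK_eq : KK = (fun p : ℝ × ℝ => (![(p.1 : ℂ), (p.2 : ℂ)] : Fin 2 → ℂ)) ''
    (Icc (1 : ℝ) 2 ×ˢ Icc (-(3 / 2 : ℝ)) (3 / 2)) := by
  ext z
  constructor
  · rintro ⟨a, ha, b, hb, rfl⟩
    exact ⟨(a, b), ⟨ha, hb⟩, rfl⟩
  · rintro ⟨⟨a, b⟩, ⟨ha, hb⟩, rfl⟩
    exact ⟨a, ha, b, hb, rfl⟩

theorem KK_compact : IsCompact KK := by
  rw [KK_eq]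
  apply (isCompact_Icc.prod isCompact_Icc).image
  apply continuous_pi
  intro j
  fin_cases j
  · exact Complex.continuous_ofReal.comp continuous_fst
  · exact Complex.continuous_ofReal.comp continuous_snd

theorem KK_sub : KK ⊆ TT := by
  rintro z ⟨a, ha, b, hb, rfl⟩
  have h1 := ha.1
  show ((![(a : ℂ), (b : ℂ)] : Fin 2 → ℂ) 1).im ^ 2 < ((![(a : ℂ), (b : ℂ)] : Fin 2 → ℂ) 0).re
  simp
  linarith

theorem geo_sum (E : Type) [NormedAddCommGroup E] (u : ℕ → E) (n : ℕ)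
    (h : ∀ m ≥ n, ‖u (m + 1) - u m‖ ≤ (1 / 2 : ℝ) ^ (m + 2)) :
    ∀ m ≥ n, ‖u m - u n‖ ≤ 1 / 2 - (1 / 2 : ℝ) ^ (m + 1) := by
  intro m hm
  induction m, hm using Nat.le_induction with
  | base =>
    rw [sub_self, norm_zero]
    have : (1 / 2 : ℝ) ^ (n + 1) ≤ (1 / 2 : ℝ) ^ 1 :=
      pow_le_pow_of_le_one (by norm_num) (by norm_num) (by omega)
    linarith
  | succ m hm ih =>
    have h1 := h m hm
    have h2 : u (m + 1) - u n = (u (m + 1) - u m) + (u m - u n) := by abel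
    have h3 := norm_add_le (u (m + 1) - u m) (u m - u n)
    rw [← h2] at h3
    have h4 : (1 / 2 : ℝ) ^ (m + 1) = 2 * (1 / 2 : ℝ) ^ (m + 2) := by
      rw [pow_succ (1 / 2 : ℝ) (m + 1)]; ring
    have h5 : (1 / 2 : ℝ) ^ (m + 1 + 1) = (1 / 2 : ℝ) ^ (m + 2) := rfl
    linarith

theorem exists_map : ∃ H : X → X, DifferentiableOn ℂ H Om ∧ MapsTo H Om Om ∧ (∀ P ∈ Om, H P ≠ P) ∧
    ∃ P0 ∈ Om, ∀ i : Fin 2, ∀ N : ℕ, ∃ t ≥ N, (H^[t] P0) i ∈ KK := by
  obtain ⟨e, he, r0, hcls, hbd, htend⟩ := G0_base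
  have hr0 : ∀ j, 1 ≤ r0 j 0 := fun j => (hbd 0 j).1
  have hgood : Good e r0 2 (G0 e) :=
    ⟨G0_ineq e 2, fun j => (G0_diff e j).1, fun j => (G0_diff e j).2, fun j => one_pos,
      ⟨1, 0, zero_le_one, le_rfl, by norm_num, hcls⟩, ⟨3 / 2, by norm_num, hbd⟩, htend⟩
  obtain ⟨G, T, hG, hcl, hor, hret⟩ := exists_systems hgood
  have hdiff : ∀ n, DifferentiableOn ℂ (G n).map Om := fun n => map_diff (hG n).db (hG n).da
  obtain ⟨H, hHd, hHl⟩ := limit_maps isOpen_Om (fun n => (G n).map) hdiff hcl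
  have hpt : ∀ P ∈ Om, Tendsto (fun n => (G n).map P) atTop (𝓝 (H P)) := fun P hP =>
    hHl.tendsto_at hP
  have hlam : Tendsto (fun n : ℕ => 1 + (1 / 2 : ℝ) ^ n) atTop (𝓝 1) := by
    have := (tendsto_pow_atTop_nhds_zero_of_lt_one (r := (1 / 2 : ℝ)) (by norm_num)
      (by norm_num)).const_add 1
    simpa using this
  obtain ⟨hmaps, hnf⟩ := limit_good he hlam (fun n => (hG n).ineq) hpt re_pos
  refine ⟨H, hHd, hmaps, hnf, rc r0, rc_mem_Om hr0, ?_⟩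
  have hTmono : ∀ n, T n < T (n + 1) := by
    intro n
    obtain ⟨t', h1, h2, _⟩ := hret n
    omega
  have hTn : ∀ n, n ≤ T n := by
    intro n
    induction n with
    | zero => exact Nat.zero_le _
    | succ n ih => have := hTmono n; omega
  have hTm : StrictMono T := strictMono_nat_of_lt_succ hTmono
  intro i N
  obtain ⟨n, hn, hi⟩ := ix_surj i N
  obtain ⟨t, ht1, ht2, ht3⟩ := hret n
  rw [hi] at ht3
  refine ⟨t, (hn.trans (hTn n)).trans ht1, ?_⟩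
  have hlimt : Tendsto (fun m => ((G m).map)^[t] (rc r0)) atTop (𝓝 (H^[t] (rc r0))) :=
    orbit_limit isOpen_Om hHl hHd.continuousOn hmaps (rc_mem_Om hr0) t
  have hlimi : Tendsto (fun m => (((G m).map)^[t] (rc r0)) i) atTop (𝓝 ((H^[t] (rc r0)) i)) :=
    tendsto_pi_nhds.1 hlimt i
  have hclose : ∀ m ≥ n + 1, ‖(G m).rmap^[t] r0 - (G (n + 1)).rmap^[t] r0‖ ≤ 1 / 2 := by
    intro m hm
    have h1 := geo_sum _ (fun m => (G m).rmap^[t] r0) (n + 1) (fun m hm => by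
      apply hor m t
      have : T (n + 1) ≤ T m := hTm.monotone hm
      omega) m hm
    have h2 : (0 : ℝ) < (1 / 2) ^ (m + 1) := by positivity
    exact h1.trans (by linarith)
  have hev : ∀ m ≥ n + 1, (((G m).map)^[t] (rc r0)) i ∈ KK := by
    intro m hm
    obtain ⟨A, κ, _, _, _, hc⟩ := (hG m).cls
    obtain ⟨S, hS2, hS⟩ := (hG m).bd
    rw [map_iter_rc hc hr0]
    refine ⟨((G m).rmap^[t] r0) i 0, ⟨(hS t i).1, (hS t i).2.trans hS2.le⟩,
      ((G m).rmap^[t] r0) i 1, ?_, ?_⟩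
    · have h1 := coord_le (hclose m hm) i 1
      rw [abs_le] at h1
      rw [abs_lt] at ht3
      constructor <;> linarith
    · ext k
      fin_cases k <;> rfl
  exact KK_compact.isClosed.mem_of_tendsto hlimi (eventually_atTop.2 ⟨n + 1, hev⟩)

/-- the counterexample on the product of two balls -/
theorem exists_counterexample : ∃ F : (Fin 2 → Fin 2 → ℂ) → (Fin 2 → Fin 2 → ℂ),
      DifferentiableOn ℂ F (Set.univ.pi fun _ => BB) ∧
      MapsTo F (Set.univ.pi fun _ => BB) (Set.univ.pi fun _ => BB) ∧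
      (∀ P ∈ Set.univ.pi (fun _ : Fin 2 => BB), F P ≠ P) ∧
      ∀ i : Fin 2, ∀ p ∈ frontier BB, ∃ P ∈ Set.univ.pi (fun _ : Fin 2 => BB),
        ¬ Tendsto (fun m : ℕ => (F^[m] P) i) atTop (𝓝 p) := by
  obtain ⟨H, h1, h2, h3, P0, h4, h5⟩ := exists_map
  exact transfer cayley BB_props.1 h1 h2 h3 h4 (fun i => ⟨KK, KK_compact, KK_sub, h5 i⟩)

end Pool.Agent.Helper321.DW
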