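import Pool.Agent.Helper321.DW.Defs
set_option autoImplicit false
open Metric Set Filter Topology Complex

namespace Pool.Agent.Helper321.DW

theorem qq_rc (r : Fin 2 → Fin 2 → ℝ) : qq (rc r) = ((Qr r : ℝ) : ℂ) := by
  simp [qq, rc, Qr]

theorem ss_rc (r : Fin 2 → Fin 2 → ℝ) : ss (rc r) = ((r 0 0 + r 1 0 : ℝ) : ℂ) := by
  simp [ss, rc]

theorem Qr_pos {r : Fin 2 → Fin 2 → ℝ} (hr : ∀ j, 0 < r j 0) : 0 < Qr r := by
  have h0 := hr 0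
  have h1 := hr 1
  unfold Qr
  positivity

theorem th_cast (L Q : ℝ) : th L ((Q : ℝ) : ℂ) = ((L ^ 2 / (L ^ 2 + Q) : ℝ) : ℂ) := by
  simp [th]

theorem Cc_cast (h V W M L Q : ℝ) : Cc h V W M L ((Q : ℝ) : ℂ) =
    (((V * ((M / L) ^ 2 + (1 - (M / L) ^ 2) * (M ^ 2 / (M ^ 2 + Q))) - W) / h : ℝ) : ℂ) := by
  unfold Cc
  rw [th_cast]
  push_cast
  ring

theorem bb_real {r : Fin 2 → Fin 2 → ℝ} (hr : ∀ j, 0 < r j 0) {h V W M L : ℝ} (hh : 0 < h)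
    (hM : 0 < M) (hML : M ≤ L) (i : Fin 2) :
    bb h V W M L (qq (rc r)) (rc r i 1) =
      ((V * (M ^ 2 / (M ^ 2 + Qr r)) - W * (L ^ 2 / (L ^ 2 + Qr r))
        - h * (L ^ 2 / (L ^ 2 + Qr r)) * r i 1 : ℝ) : ℂ) := by
  have hQ := Qr_pos hr
  have hL : 0 < L := lt_of_lt_of_le hM hML
  have h1 : 0 < L ^ 2 + Qr r := by positivity
  have h2 : 0 < M ^ 2 + Qr r := by positivity
  have key : V * (M ^ 2 / (M ^ 2 + Qr r)) - W * (L ^ 2 / (L ^ 2 + Qr r))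
        - h * (L ^ 2 / (L ^ 2 + Qr r)) * r i 1 = -h * (L ^ 2 / (L ^ 2 + Qr r)) *
        (r i 1 - (V * ((M / L) ^ 2 + (1 - (M / L) ^ 2) * (M ^ 2 / (M ^ 2 + Qr r))) - W) / h) := by
    field_simp
    ring
  rw [key, qq_rc]
  unfold bb
  rw [th_cast, Cc_cast]
  have : rc r i 1 = ((r i 1 : ℝ) : ℂ) := rfl
  rw [this]
  push_cast
  ring

theorem aa_real {r : Fin 2 → Fin 2 → ℝ} (hr : ∀ j, 0 < r j 0) {h V W M L : ℝ} (hh : 0 < h)
    (hM : 0 < M) (hML : M ≤ L) (hV : 0 ≤ V) (hW : 0 ≤ W) (i : Fin 2) :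
    ∃ C : ℝ, |C| ≤ (V + W) / h ∧ aa h V W M L (qq (rc r)) (ss (rc r)) (rc r i 1) =
      ((h * (3 * L ^ 2 * (r 0 0 + r 1 0) / (L ^ 2 + Qr r) ^ 2) * (r i 1 - C) ^ 2
        + 9 * (V ^ 2 / h) * (r 0 0 + r 1 0) / (M ^ 2 + Qr r) : ℝ) : ℂ) := by
  have hQ := Qr_pos hr
  have hL : 0 < L := lt_of_lt_of_le hM hML
  have h1 : 0 < L ^ 2 + Qr r := by positivity
  have h2 : 0 < M ^ 2 + Qr r := by positivity
  refine ⟨(V * ((M / L) ^ 2 + (1 - (M / L) ^ 2) * (M ^ 2 / (M ^ 2 + Qr r))) - W) / h, ?_, ?_⟩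
  · rw [abs_div, abs_of_pos hh]
    apply div_le_div_of_nonneg_right _ hh.le
    have e0 : 0 ≤ (M / L) ^ 2 := by positivity
    have e1 : (M / L) ^ 2 ≤ 1 := by
      have h3 : M / L ≤ 1 := by rw [div_le_one hL]; exact hML
      have h4 : 0 ≤ M / L := by positivity
      nlinarith
    have t0 : 0 ≤ M ^ 2 / (M ^ 2 + Qr r) := by positivity
    have t1 : M ^ 2 / (M ^ 2 + Qr r) ≤ 1 := by rw [div_le_one h2]; linarith
    set e := (M / L) ^ 2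
    set t := M ^ 2 / (M ^ 2 + Qr r)
    have g0 : 0 ≤ e + (1 - e) * t := by nlinarith
    have g1 : e + (1 - e) * t ≤ 1 := by nlinarith
    have g2 : 0 ≤ V * (e + (1 - e) * t) := mul_nonneg hV g0
    have g3 : V * (e + (1 - e) * t) ≤ V := by nlinarith
    rw [abs_le]
    constructor <;> linarith
  · rw [qq_rc, ss_rc]
    unfold aa
    rw [Cc_cast]
    have : rc r i 1 = ((r i 1 : ℝ) : ℂ) := rfl
    rw [this]
    push_cast
    ring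


end Pool.Agent.Helper321.DW
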