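import Mathlib
set_option autoImplicit false
open Metric Set Filter Topology
open scoped InnerProductSpace ComplexConjugate

namespace Pool.Agent.Helper321.DW

variable {E : Type} [NormedAddCommGroup E] [InnerProductSpace ℂ E]

/-- invariant two-point quantity of the unit ball; `1 - sg a b` is the square of the
pseudo-hyperbolic distance. -/
noncomputable def sg (a b : E) : ℝ := (1 - ‖a‖ ^ 2) * (1 - ‖b‖ ^ 2) / ‖1 - ⟪a, b⟫_ℂ‖ ^ 2

end Pool.Agent.Helper321.DW
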