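import Pool.Agent.Helper321.DW.Mob
import Pool.Agent.Helper321.DW.Sg
set_option autoImplicit false
set_option linter.unusedSectionVars false
open Metric Set
open scoped InnerProductSpace ComplexConjugate

namespace Pool.Agent.Helper321.DW

variable {E : Type} [NormedAddCommGroup E] [InnerProductSpace ℂ E]




/-- Schwarz-Pick inequality for holomorphic self-maps of the unit ball. -/
theorem schwarz_pick {F : E → E} (hF : DifferentiableOn ℂ F (ball (0:E) 1))
    (hm : MapsTo F (ball (0:E) 1) (ball (0:E) 1)) {a b : E} (ha : a ∈ ball (0:E) 1)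
    (hb : b ∈ ball (0:E) 1) :
    (1 - ‖a‖ ^ 2) * (1 - ‖b‖ ^ 2) * ‖1 - ⟪F a, F b⟫_ℂ‖ ^ 2 ≤
      (1 - ‖F a‖ ^ 2) * (1 - ‖F b‖ ^ 2) * ‖1 - ⟪a, b⟫_ℂ‖ ^ 2 := by
  have hFa := hm ha
  have hFb := hm hb
  rw [mem_ball_zero_iff] at ha hb hFa hFb
  have hna : ‖-a‖ < 1 := by rwa [norm_neg]
  have hnFa : ‖-F a‖ < 1 := by rwa [norm_neg]
  have hmob : ∀ η : E, ‖η‖ < 1 → DifferentiableOn ℂ (mob η) (ball (0:E) 1) := by
    intro η hη
    apply (differentiableOn_mob η).mono
    intro z hz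
    rw [mem_ball_zero_iff] at hz
    exact one_add_inner_ne hη hz.le
  have hmm : ∀ η : E, ‖η‖ < 1 → MapsTo (mob η) (ball (0:E) 1) (ball (0:E) 1) := by
    intro η hη z hz
    rw [mem_ball_zero_iff] at hz ⊢
    exact norm_mob_lt hη hz
  have hH : DifferentiableOn ℂ (fun z => mob (-F a) (F (mob a z))) (ball (0:E) 1) :=
    (hmob _ hnFa).comp (hF.comp (hmob a ha) (hmm a ha)) (hm.comp (hmm a ha))
  have hHm : MapsTo (fun z => mob (-F a) (F (mob a z))) (ball (0:E) 1) (closedBall (0:E) 1) :=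
    fun z hz => ball_subset_closedBall ((hmm _ hnFa) (hm ((hmm a ha) hz)))
  have hH0 : (fun z => mob (-F a) (F (mob a z))) 0 = 0 := by
    have := mob_neg_mob (η := F a) (z := 0) hFa (by simp)
    rw [mob_zero_right] at this
    simp only [mob_zero_right]
    exact this
  have hz : ‖mob (-a) b‖ < 1 := norm_mob_lt hna hb
  have hs := Complex.norm_le_norm_of_mapsTo_ball (f := fun z => mob (-F a) (F (mob a z))) hH hHm hH0 hz
  simp only [mob_mob_neg ha hb.le] at hs
  have e1 := norm_mob_sq' hna.le (one_add_inner_ne hna hb.le)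
  have e2 := norm_mob_sq' hnFa.le (one_add_inner_ne hnFa hFb.le)
  rw [norm_neg, inner_neg_left, ← sub_eq_add_neg] at e1 e2
  have p1 : 0 < ‖1 - ⟪a, b⟫_ℂ‖ := by
    apply norm_pos_iff.2
    have := one_add_inner_ne hna hb.le
    rwa [inner_neg_left, ← sub_eq_add_neg] at this
  have p2 : 0 < ‖1 - ⟪F a, F b⟫_ℂ‖ := by
    apply norm_pos_iff.2
    have := one_add_inner_ne hnFa hFb.le
    rwa [inner_neg_left, ← sub_eq_add_neg] at this
  have h3 : 1 - ‖mob (-a) b‖ ^ 2 ≤ 1 - ‖mob (-F a) (F b)‖ ^ 2 := by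
    have := pow_le_pow_left₀ (norm_nonneg _) hs 2
    linarith
  rw [e1, e2, div_le_div_iff₀ (by positivity) (by positivity)] at h3
  exact h3

end Pool.Agent.Helper321.DW
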